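import Pool.Agent.CFP.St

set_option autoImplicit false

/-!
# Equally spaced slicings are admissible (MP_1ff74e_co)
-/

namespace FriedPotato

open Metric

theorem Adm_len (u : E3) : ∀ (ts : List ℝ) (P : Set E3), (cuts u ts P).length = ts.length + 1
  | [], _ => rfl
  | t :: ts, P => by
    show (below u t P :: cuts u ts (above u t P)).length = (t :: ts).length + 1
    rw [List.length_cons, List.length_cons, Adm_len u ts]

theorem Adm_gen (K : Set E3) (u : E3) (hu : u ≠ 0) :
    ∀ (ts : List ℝ) (L₁ : List (Set E3)) (P : Set E3), Slicing K (L₁ ++ [P]) →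
      ts.Pairwise (· < ·) → (∀ t ∈ ts, ∃ x ∈ interior P, inner ℝ u x = t) →
      Slicing K (L₁ ++ cuts u ts P)
  | [], _, _, h, _, _ => h
  | t :: ts, L₁, P, h, hp, ht => by
    have h1 : Slicing K (L₁ ++ below u t P :: above u t P :: []) :=
      Slicing.cut L₁ [] P u t h hu (ht t List.mem_cons_self)
    have h2 : L₁ ++ below u t P :: above u t P :: [] =
        (L₁ ++ [below u t P]) ++ [above u t P] := by simp
    rw [h2] at h1
    have hp' := List.pairwise_cons.1 hp
    have h3 := Adm_gen K u hu ts (L₁ ++ [below u t P]) (above u t P) h1 hp'.2 (by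
      intro t' ht'
      obtain ⟨x, hx, hxt⟩ := ht t' (List.mem_cons_of_mem _ ht')
      refine ⟨x, ?_, hxt⟩
      have ho : IsOpen (interior P ∩ {y : E3 | t < inner ℝ u y}) :=
        isOpen_interior.inter (isOpen_lt continuous_const (continuous_const.inner continuous_id))
      have hsub : interior P ∩ {y : E3 | t < inner ℝ u y} ⊆ above u t P := by
        intro y hy
        exact ⟨interior_subset hy.1, le_of_lt hy.2⟩
      refine interior_maximal hsub ho ⟨hx, ?_⟩
      show t < inner ℝ u x
      rw [hxt]
      exact hp'.1 t' ht')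
    have h4 : L₁ ++ cuts u (t :: ts) P = (L₁ ++ [below u t P]) ++ cuts u ts (above u t P) := by
      show L₁ ++ (below u t P :: cuts u ts (above u t P)) = _
      simp
    rw [h4]
    exact h3

theorem Cut : S_cut := by
  intro K u ts hu hp ht
  refine ⟨?_, Adm_len u ts K⟩
  have h := Adm_gen K u hu ts [] K Slicing.start hp ht
  exact h

theorem Adm_lvl (K : Set E3) (hK : IsBody K) (u : E3) (t : ℝ) (hlo : lo K u < t)
    (hhi : t < hi K u) : ∃ x ∈ interior K, inner ℝ u x = t := by
  have hne : K.Nonempty := hK.inner.mono interior_subset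
  have hc : Continuous fun x : E3 => (inner ℝ u x : ℝ) := continuous_const.inner continuous_id
  have hcl : K ⊆ closure (interior K) := by
    rw [hK.convex.closure_interior_eq_closure_of_nonempty_interior hK.inner]
    exact subset_closure
  obtain ⟨_, ⟨x, hx, rfl⟩, hxt⟩ := exists_lt_of_lt_csSup (hne.image _) hhi
  obtain ⟨_, ⟨y, hy, rfl⟩, hyt⟩ := exists_lt_of_csInf_lt (hne.image _) hlo
  obtain ⟨x', hx'1, hx'2⟩ := mem_closure_iff.1 (hcl hx) {z : E3 | t < inner ℝ u z}
    (isOpen_lt continuous_const hc) hxt
  obtain ⟨y', hy'1, hy'2⟩ := mem_closure_iff.1 (hcl hy) {z : E3 | inner ℝ u z < t}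
    (isOpen_lt hc continuous_const) hyt
  obtain ⟨z, hz, hzt⟩ := hK.convex.interior.isPreconnected.intermediate_value hy'2 hx'2
    hc.continuousOn ⟨le_of_lt hy'1, le_of_lt hx'1⟩
  exact ⟨z, hz, hzt⟩

theorem Adm_levels (K : Set E3) (u : E3) (n : ℕ) : levels K u n =
    (List.range (n - 1)).map (fun j : ℕ => lo K u + ((j : ℝ) + 1) * (width K / n)) := by
  rfl

theorem Adm (hbas : S_bas) : S_adm := by
  intro K hK n hn u hu
  have hw : 0 < width K := (hbas K hK).2.2.2.2.2
  have hu0 : u ≠ 0 := by
    rintro rfl
    have h := hu.1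
    rw [norm_zero] at h
    exact zero_ne_one h
  have hn0 : (0 : ℝ) < n := by
    have : 0 < n := by omega
    exact_mod_cast this
  have hd : 0 < width K / n := div_pos hw hn0
  have hhl : hi K u - lo K u = width K := hu.2
  have h := Cut K u (levels K u n) hu0 (by
    rw [Adm_levels, List.pairwise_map]
    refine List.Pairwise.imp ?_ (List.pairwise_lt_range (n := n - 1))
    intro a b hab
    have hab' : (a : ℝ) < (b : ℝ) := by exact_mod_cast hab
    have := mul_lt_mul_of_pos_right (add_lt_add_left hab' 1) hd
    linarith) (by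
    intro t ht
    rw [Adm_levels] at ht
    obtain ⟨j, hj, rfl⟩ := List.mem_map.1 ht
    rw [List.mem_range] at hj
    have hj0 : (0 : ℝ) ≤ j := Nat.cast_nonneg j
    have hj1 : (j : ℝ) + 1 < n := by
      have : j + 1 < n := by omega
      exact_mod_cast this
    have hnd : (n : ℝ) * (width K / n) = width K := by field_simp
    apply Adm_lvl K hK u
    · have : 0 < ((j : ℝ) + 1) * (width K / n) := mul_pos (by linarith) hd
      linarith
    · have := mul_lt_mul_of_pos_right hj1 hd
      rw [hnd] at this
      linarith)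
  refine ⟨h.1, ?_⟩
  have h2 := h.2
  have h3 : (levels K u n).length = n - 1 := by
    rw [Adm_levels, List.length_map, List.length_range]
  rw [h3] at h2
  show (cuts u (levels K u n) K).length = n
  rw [h2]
  omega

end FriedPotato
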