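import Pool.Agent.CFP.St

/-!
# Basic facts about supporting planes, widths and inradii
-/

namespace FriedPotato

open Metric

theorem Bas_bddAbove {K : Set E3} (hK : IsCompact K) (u : E3) :
    BddAbove ((fun x => inner ℝ u x) '' K) :=
  (hK.image (by fun_prop)).bddAbove

theorem Bas_bddBelow {K : Set E3} (hK : IsCompact K) (u : E3) :
    BddBelow ((fun x => inner ℝ u x) '' K) :=
  (hK.image (by fun_prop)).bddBelow

theorem Bas_le_hi {K : Set E3} (hK : IsCompact K) (u : E3) {x : E3} (hx : x ∈ K) :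
    inner ℝ u x ≤ hi K u :=
  le_csSup (Bas_bddAbove hK u) ⟨x, hx, rfl⟩

theorem Bas_lo_le {K : Set E3} (hK : IsCompact K) (u : E3) {x : E3} (hx : x ∈ K) :
    lo K u ≤ inner ℝ u x :=
  csInf_le (Bas_bddBelow hK u) ⟨x, hx, rfl⟩

theorem Bas_exists_hi {K : Set E3} (hK : IsCompact K) (hne : K.Nonempty) (u : E3) :
    ∃ x ∈ K, inner ℝ u x = hi K u := by
  obtain ⟨x, hx, h⟩ := (hK.image (f := fun x => inner ℝ u x) (by fun_prop)).sSup_mem
    (hne.image _)
  exact ⟨x, hx, h⟩

theorem Bas_exists_lo {K : Set E3} (hK : IsCompact K) (hne : K.Nonempty) (u : E3) :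
    ∃ x ∈ K, inner ℝ u x = lo K u := by
  obtain ⟨x, hx, h⟩ := (hK.image (f := fun x => inner ℝ u x) (by fun_prop)).sInf_mem
    (hne.image _)
  exact ⟨x, hx, h⟩

theorem Bas_hi_le {K : Set E3} (hne : K.Nonempty) (u : E3) {a : ℝ}
    (h : ∀ x ∈ K, inner ℝ u x ≤ a) : hi K u ≤ a := by
  apply csSup_le (hne.image _)
  rintro _ ⟨x, hx, rfl⟩
  exact h x hx

theorem Bas_le_lo {K : Set E3} (hne : K.Nonempty) (u : E3) {a : ℝ}
    (h : ∀ x ∈ K, a ≤ inner ℝ u x) : a ≤ lo K u := by
  apply le_csInf (hne.image _)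
  rintro _ ⟨x, hx, rfl⟩
  exact h x hx

theorem Bas_inner_le {u : E3} (hu : ‖u‖ = 1) (x : E3) : inner ℝ u x ≤ ‖x‖ := by
  have := real_inner_le_norm u x
  rwa [hu, one_mul] at this

/-- The ball criterion. -/
theorem Ball : S_ball := by
  intro K hK hconv hne c r hr
  constructor
  · intro h u hu
    have hmem : c + r • u ∈ K := by
      apply h
      rw [mem_closedBall, dist_eq_norm]
      rw [add_sub_cancel_left, norm_smul, hu, mul_one, Real.norm_of_nonneg hr]
    have := Bas_le_hi hK u hmem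
    rw [inner_add_right, inner_smul_right, real_inner_self_eq_norm_sq, hu] at this
    linarith
  · intro h p hp
    by_contra hpK
    obtain ⟨f, s, hs1, hs2⟩ := geometric_hahn_banach_closed_point hconv hK.isClosed hpK
    -- represent f by a vector
    obtain ⟨v, hv⟩ : ∃ v : E3, ∀ x, f x = inner ℝ v x := by
      refine ⟨(InnerProductSpace.toDual ℝ E3).symm f, fun x => ?_⟩
      rw [InnerProductSpace.toDual_symm_apply]
    have hv0 : v ≠ 0 := by
      rintro rfl
      obtain ⟨y, hy⟩ := hne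
      have h1 := hs1 y hy
      rw [hv, inner_zero_left] at h1 hs2
      linarith
    have hvn : 0 < ‖v‖ := norm_pos_iff.mpr hv0
    set u : E3 := ‖v‖⁻¹ • v with hu
    have hun : ‖u‖ = 1 := by
      rw [hu, norm_smul, norm_inv, norm_norm, inv_mul_cancel₀ hvn.ne']
    have hvu : v = ‖v‖ • u := by
      rw [hu, smul_smul, mul_inv_cancel₀ hvn.ne', one_smul]
    have h1 := h u hun
    obtain ⟨x, hx, hxe⟩ := Bas_exists_hi hK hne u
    have h2 := hs1 x hx
    rw [hv, hvu, real_inner_smul_left] at h2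
    rw [hv, hvu, real_inner_smul_left] at hs2
    have h3 : inner ℝ u p - inner ℝ u c ≤ r := by
      rw [← inner_sub_right]
      refine (Bas_inner_le hun _).trans ?_
      rw [mem_closedBall, dist_eq_norm] at hp
      exact hp
    have h4 : ‖v‖ * inner ℝ u x < ‖v‖ * inner ℝ u p := h2.trans hs2
    have h5 := lt_of_mul_lt_mul_left h4 hvn.le
    linarith

theorem Bas_continuous_hi {K : Set E3} (hK : IsCompact K) (hne : K.Nonempty) :
    Continuous (hi K) := by
  obtain ⟨R, hR⟩ := hK.isBounded.exists_norm_le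
  have hR0 : 0 ≤ R := by
    obtain ⟨x, hx⟩ := hne
    exact (norm_nonneg x).trans (hR x hx)
  have key : ∀ u v : E3, hi K u ≤ hi K v + R * ‖u - v‖ := by
    intro u v
    apply Bas_hi_le hne
    intro x hx
    have h1 : inner ℝ u x = inner ℝ v x + inner ℝ (u - v) x := by
      rw [inner_sub_left]; ring
    have h2 := real_inner_le_norm (u - v) x
    have h3 := Bas_le_hi hK v hx
    have h4 : ‖u - v‖ * ‖x‖ ≤ R * ‖u - v‖ := by
      rw [mul_comm]
      exact mul_le_mul_of_nonneg_right (hR x hx) (norm_nonneg _)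
    linarith
  have : LipschitzWith (Real.toNNReal R) (hi K) := by
    apply LipschitzWith.of_dist_le_mul
    intro u v
    rw [Real.dist_eq, dist_eq_norm, abs_sub_le_iff, Real.coe_toNNReal R hR0]
    constructor
    · have := key u v
      linarith
    · have := key v u
      rw [norm_sub_rev] at this
      linarith
  exact this.continuous

theorem Bas_lo_eq (K : Set E3) (u : E3) : lo K u = -hi K (-u) := by
  have : ((fun x => inner ℝ u x) '' K) = -((fun x => inner ℝ (-u) x) '' K) := by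
    ext t
    simp only [Set.mem_image, Set.mem_neg]
    constructor
    · rintro ⟨x, hx, rfl⟩
      exact ⟨x, hx, inner_neg_left _ _⟩
    · rintro ⟨x, hx, h⟩
      refine ⟨x, hx, ?_⟩
      rw [inner_neg_left] at h
      linarith
  unfold lo hi
  rw [this, Real.sInf_def, neg_neg]

theorem Bas_continuous_widthIn {K : Set E3} (hK : IsCompact K) (hne : K.Nonempty) :
    Continuous (widthIn K) := by
  have h : widthIn K = fun u => hi K u + hi K (-u) := by
    funext u
    rw [widthIn, Bas_lo_eq]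
    ring
  rw [h]
  exact (Bas_continuous_hi hK hne).add ((Bas_continuous_hi hK hne).comp continuous_neg)

theorem Bas_widthIn_nonneg {K : Set E3} (hK : IsCompact K) (hne : K.Nonempty) (u : E3) :
    0 ≤ widthIn K u := by
  obtain ⟨x, hx⟩ := hne
  have h1 := Bas_le_hi hK u hx
  have h2 := Bas_lo_le hK u hx
  unfold widthIn
  linarith

theorem Bas_bddBelow_width {K : Set E3} (hK : IsCompact K) (hne : K.Nonempty) :
    BddBelow {d : ℝ | ∃ u : E3, ‖u‖ = 1 ∧ d = widthIn K u} := by
  refine ⟨0, ?_⟩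
  rintro _ ⟨u, _, rfl⟩
  exact Bas_widthIn_nonneg hK hne u

theorem Bas_width_le {K : Set E3} (hK : IsCompact K) (hne : K.Nonempty) {u : E3}
    (hu : ‖u‖ = 1) : width K ≤ widthIn K u :=
  csInf_le (Bas_bddBelow_width hK hne) ⟨u, hu, rfl⟩

theorem Bas_exists_unit : ∃ u : E3, ‖u‖ = 1 :=
  ⟨EuclideanSpace.single 0 1, by simp⟩

theorem Bas_exists_minDir {K : Set E3} (hK : IsCompact K) (hne : K.Nonempty) :
    ∃ u : E3, IsMinDir K u := by
  have hS : IsCompact (sphere (0 : E3) 1) := isCompact_sphere _ _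
  obtain ⟨u0, hu0⟩ := Bas_exists_unit
  obtain ⟨u, hu, hmin⟩ := hS.exists_isMinOn ⟨u0, by simpa using hu0⟩
    (Bas_continuous_widthIn hK hne).continuousOn
  have hun : ‖u‖ = 1 := by simpa using hu
  refine ⟨u, hun, le_antisymm ?_ (Bas_width_le hK hne hun)⟩
  refine le_csInf ⟨widthIn K u, u, hun, rfl⟩ ?_
  rintro _ ⟨v, hv, rfl⟩
  exact hmin (by simpa using hv)

/-- A ball in a set with a given width in some direction. -/
theorem Bas_two_mul_le_widthIn {K : Set E3} (hK : IsCompact K) {c : E3} {s : ℝ} (hs : 0 ≤ s)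
    (h : closedBall c s ⊆ K) {u : E3} (hu : ‖u‖ = 1) : 2 * s ≤ widthIn K u := by
  have h1 : c + s • u ∈ K := by
    apply h
    rw [mem_closedBall, dist_eq_norm, add_sub_cancel_left, norm_smul, hu, mul_one,
      Real.norm_of_nonneg hs]
  have h2 : c - s • u ∈ K := by
    apply h
    rw [mem_closedBall, dist_eq_norm, sub_sub_cancel_left, norm_neg, norm_smul, hu, mul_one,
      Real.norm_of_nonneg hs]
  have h3 := Bas_le_hi hK u h1
  have h4 := Bas_lo_le hK u h2
  rw [inner_add_right, inner_smul_right, real_inner_self_eq_norm_sq, hu] at h3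
  rw [inner_sub_right, inner_smul_right, real_inner_self_eq_norm_sq, hu] at h4
  unfold widthIn
  linarith

theorem Bas_radius_le {P : Set E3} {R : ℝ} (hP : ∀ x ∈ P, ‖x‖ ≤ R) {c : E3} {s : ℝ}
    (hs : 0 ≤ s) (h : closedBall c s ⊆ P) : s ≤ R := by
  obtain ⟨u, hu⟩ := Bas_exists_unit
  have h1 : c + s • u ∈ P := by
    apply h
    rw [mem_closedBall, dist_eq_norm, add_sub_cancel_left, norm_smul, hu, mul_one,
      Real.norm_of_nonneg hs]
  have h2 : c - s • u ∈ P := by
    apply h
    rw [mem_closedBall, dist_eq_norm, sub_sub_cancel_left, norm_neg, norm_smul, hu, mul_one,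
      Real.norm_of_nonneg hs]
  have h3 := hP _ h1
  have h4 := hP _ h2
  have h5 : ‖(2 * s) • u‖ ≤ 2 * R := by
    have : (2 * s) • u = (c + s • u) - (c - s • u) := by
      rw [two_mul, add_smul]; abel
    rw [this]
    refine (norm_sub_le _ _).trans ?_
    linarith
  rw [norm_smul, hu, mul_one, Real.norm_of_nonneg (by linarith)] at h5
  linarith

theorem Bas_bddAbove_radius {P : Set E3} (hP : Bornology.IsBounded P) :
    BddAbove {r : ℝ | 0 ≤ r ∧ ∃ c : E3, closedBall c r ⊆ P} := by
  obtain ⟨R, hR⟩ := hP.exists_norm_le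
  refine ⟨R, ?_⟩
  rintro r ⟨hr, c, hc⟩
  exact Bas_radius_le hR hr hc

theorem Bas_le_inradius {P : Set E3} (hP : Bornology.IsBounded P) {c : E3} {r : ℝ}
    (hr : 0 ≤ r) (h : closedBall c r ⊆ P) : r ≤ inradius P :=
  le_csSup (Bas_bddAbove_radius hP) ⟨hr, c, h⟩

theorem Bas_inradius_nonneg (P : Set E3) : 0 ≤ inradius P :=
  Real.sSup_nonneg fun _ h => h.1

theorem Bas_inradius_le {P : Set E3} {a : ℝ} (ha : 0 ≤ a)
    (h : ∀ (c : E3) (r : ℝ), 0 ≤ r → closedBall c r ⊆ P → r ≤ a) : inradius P ≤ a := by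
  apply Real.sSup_le _ ha
  rintro r ⟨hr, c, hc⟩
  exact h c r hr hc

theorem Bas_inradius_le_rMax {L : List (Set E3)} {P : Set E3} (h : P ∈ L) :
    inradius P ≤ rMax L := by
  unfold rMax
  induction L with
  | nil => simp at h
  | cons Q L ih =>
    simp only [List.map_cons, List.foldr_cons]
    rcases List.mem_cons.mp h with rfl | h
    · exact le_max_left _ _
    · exact (ih h).trans (le_max_right _ _)

theorem Bas_rMax_le {L : List (Set E3)} {a : ℝ} (ha : 0 ≤ a)
    (h : ∀ P ∈ L, inradius P ≤ a) : rMax L ≤ a := by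
  unfold rMax
  induction L with
  | nil => simpa using ha
  | cons Q L ih =>
    simp only [List.map_cons, List.foldr_cons]
    apply max_le (h Q (by simp))
    exact ih fun P hP => h P (List.mem_cons_of_mem _ hP)

theorem Bas_rMax_nonneg (L : List (Set E3)) : 0 ≤ rMax L := by
  unfold rMax
  induction L with
  | nil => simp
  | cons Q L ih =>
    simp only [List.map_cons, List.foldr_cons]
    exact ih.trans (le_max_right _ _)

/-- The largest ball exists. -/
theorem Bas_exists_inball {K : Set E3} (hK : IsBody K) :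
    ∃ c : E3, closedBall c (inradius K) ⊆ K := by
  have hne : K.Nonempty := hK.inner.mono interior_subset
  -- the set of pairs (c, r) with a ball of radius r in K
  set F : Set (E3 × ℝ) := {q | q.1 ∈ K ∧ 0 ≤ q.2 ∧
    ∀ u : E3, ‖u‖ = 1 → inner ℝ u q.1 + q.2 ≤ hi K u} with hF
  have hiff : ∀ (c : E3) (r : ℝ), 0 ≤ r → (closedBall c r ⊆ K ↔ (c, r) ∈ F) := by
    intro c r hr
    rw [Ball K hK.compact hK.convex hne c r hr]
    constructor
    · intro h
      refine ⟨?_, hr, h⟩
      have : closedBall c r ⊆ K := (Ball K hK.compact hK.convex hne c r hr).mpr h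
      exact this (mem_closedBall_self hr)
    · exact fun h => h.2.2
  obtain ⟨R, hR⟩ := hK.compact.isBounded.exists_norm_le
  have hFc : IsCompact F := by
    have hsub : F ⊆ K ×ˢ Set.Icc 0 R := by
      rintro ⟨c, r⟩ hq
      have h2 : 0 ≤ r := hq.2.1
      refine ⟨hq.1, h2, ?_⟩
      exact Bas_radius_le hR h2 ((hiff c r h2).mpr hq)
    refine (hK.compact.prod isCompact_Icc).of_isClosed_subset ?_ hsub
    have h1 : F = (Prod.fst ⁻¹' K) ∩ ({q : E3 × ℝ | 0 ≤ q.2} ∩
        ⋂ (u : E3) (_ : ‖u‖ = 1), {q : E3 × ℝ | inner ℝ u q.1 + q.2 ≤ hi K u}) := by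
      ext q
      simp [hF]
    rw [h1]
    refine (hK.compact.isClosed.preimage continuous_fst).inter
      ((isClosed_le continuous_const continuous_snd).inter ?_)
    refine isClosed_iInter fun u => isClosed_iInter fun _ => ?_
    exact isClosed_le (by fun_prop) continuous_const
  have hset : {r : ℝ | 0 ≤ r ∧ ∃ c : E3, closedBall c r ⊆ K} = Prod.snd '' F := by
    ext r
    constructor
    · rintro ⟨hr, c, hc⟩
      exact ⟨(c, r), (hiff c r hr).mp hc, rfl⟩
    · rintro ⟨⟨c, s⟩, hq, rfl⟩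
      exact ⟨hq.2.1, c, (hiff c s hq.2.1).mpr hq⟩
  have hne2 : {r : ℝ | 0 ≤ r ∧ ∃ c : E3, closedBall c r ⊆ K}.Nonempty := by
    obtain ⟨x, hx⟩ := hne
    refine ⟨0, le_rfl, x, ?_⟩
    rw [closedBall_zero]
    simpa using hx
  have hcomp : IsCompact {r : ℝ | 0 ≤ r ∧ ∃ c : E3, closedBall c r ⊆ K} := by
    rw [hset]
    exact hFc.image continuous_snd
  exact (hcomp.sSup_mem hne2).2

theorem Bas_inradius_pos {K : Set E3} (hK : IsBody K) : 0 < inradius K := by
  obtain ⟨x, hx⟩ := hK.inner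
  rw [mem_interior_iff_mem_nhds, Metric.mem_nhds_iff] at hx
  obtain ⟨ε, hε, hb⟩ := hx
  have h1 : closedBall x (ε / 2) ⊆ K := (closedBall_subset_ball (by linarith)).trans hb
  have h2 := Bas_le_inradius hK.compact.isBounded (by linarith) h1
  linarith

/-- The basic facts. -/
theorem Bas : S_bas := by
  intro K hK
  have hne : K.Nonempty := hK.inner.mono interior_subset
  refine ⟨Bas_exists_minDir hK.compact hne, fun u hu => Bas_width_le hK.compact hne hu,
    Bas_inradius_pos hK, Bas_exists_inball hK,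
    fun c s hs h => Bas_le_inradius hK.compact.isBounded hs h, ?_⟩
  obtain ⟨u, hu, huw⟩ := Bas_exists_minDir hK.compact hne
  obtain ⟨c, hc⟩ := Bas_exists_inball hK
  have h1 := Bas_two_mul_le_widthIn hK.compact (Bas_inradius_nonneg K) hc hu
  have h2 := Bas_inradius_pos hK
  rw [← huw]
  linarith

end FriedPotato
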