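import Pool.Agent.CFP.St

/-!
# BngA: the intersection part of Bang's argument
-/

namespace FriedPotato

open Metric

private theorem BngA_cont (u : E3) : Continuous (fun x : E3 => (inner ℝ u x : ℝ)) :=
  continuous_const.inner continuous_id

private theorem BngA_le_hi {K : Set E3} (hK : IsCompact K) (u : E3) {x : E3} (hx : x ∈ K) :
    inner ℝ u x ≤ hi K u :=
  le_csSup (hK.image (BngA_cont u)).bddAbove ⟨x, hx, rfl⟩

private theorem BngA_lo_le {K : Set E3} (hK : IsCompact K) (u : E3) {x : E3} (hx : x ∈ K) :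
    lo K u ≤ inner ℝ u x :=
  csInf_le (hK.image (BngA_cont u)).bddBelow ⟨x, hx, rfl⟩

private theorem BngA_hi_mem {K : Set E3} (hK : IsCompact K) (hn : K.Nonempty) (u : E3) :
    ∃ x ∈ K, inner ℝ u x = hi K u :=
  (hK.image (BngA_cont u)).sSup_mem (hn.image _)

private theorem BngA_lo_mem {K : Set E3} (hK : IsCompact K) (hn : K.Nonempty) (u : E3) :
    ∃ x ∈ K, inner ℝ u x = lo K u :=
  (hK.image (BngA_cont u)).sInf_mem (hn.image _)

/-- (i): the chord lemma. -/
private theorem BngA_chord {C : Set E3} (hC : IsCompact C) (hconv : Convex ℝ C)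
    (hne : C.Nonempty) {w : ℝ} (hw : 0 < w) (hwid : ∀ v : E3, ‖v‖ = 1 → w ≤ widthIn C v)
    {u : E3} (hu : ‖u‖ = 1) : ∃ x ∈ C, x + w • u ∈ C := by
  by_contra hcon
  push Not at hcon
  set C' : Set E3 := (fun x => x + -(w • u)) '' C with hC'
  have hC'c : IsCompact C' := hC.image (continuous_id.add continuous_const)
  have hC'v : Convex ℝ C' := by
    have := hconv.translate (-(w • u))
    have h2 : (fun x => -(w • u) + x) '' C = C' := by
      rw [hC']
      refine Set.image_congr ?_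
      intro x _
      exact add_comm _ _
    rw [← h2]
    exact this
  have hdisj : Disjoint C C' := by
    rw [Set.disjoint_left]
    rintro x hx ⟨y, hy, rfl⟩
    refine hcon _ hx ?_
    rw [add_assoc, neg_add_cancel, add_zero]
    exact hy
  obtain ⟨f, s, s', h1, h2, h3⟩ :=
    geometric_hahn_banach_compact_closed hconv hC hC'v hC'c.isClosed hdisj
  set v : E3 := (InnerProductSpace.toDual ℝ E3).symm f with hv
  have hfv : ∀ x : E3, f x = inner ℝ v x := by
    intro x
    rw [hv, InnerProductSpace.toDual_symm_apply]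
  have hxy : ∀ x ∈ C, ∀ y ∈ C, (inner ℝ v x : ℝ) < inner ℝ v y - w * inner ℝ v u := by
    intro x hx y hy
    have ha := h1 x hx
    have hb := h3 _ (Set.mem_image_of_mem _ hy)
    rw [hfv] at ha hb
    simp only [inner_add_right, inner_neg_right, real_inner_smul_right] at hb
    linarith
  obtain ⟨x0, hx0⟩ := hne
  have hv0 : v ≠ 0 := by
    intro h0
    have := hxy x0 hx0 x0 hx0
    rw [h0] at this
    simp at this
  have hvn : 0 < ‖v‖ := norm_pos_iff.mpr hv0
  set v' : E3 := (‖v‖)⁻¹ • v with hv'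
  have hv'n : ‖v'‖ = 1 := by
    rw [hv', norm_smul, norm_inv, norm_norm, inv_mul_cancel₀ hvn.ne']
  obtain ⟨x, hx, hxm⟩ := BngA_hi_mem hC ⟨x0, hx0⟩ v'
  obtain ⟨y, hy, hym⟩ := BngA_lo_mem hC ⟨x0, hx0⟩ v'
  have hwd := hwid v' hv'n
  have hlt : widthIn C v' < w := by
    rw [widthIn, ← hxm, ← hym, hv', real_inner_smul_left, real_inner_smul_left, ← mul_sub]
    have h4 := hxy x hx y hy
    have h5 : -(‖v‖ * ‖u‖) ≤ (inner ℝ v u : ℝ) := by
      have := abs_real_inner_le_norm v u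
      exact (abs_le.mp this).1
    rw [hu, mul_one] at h5
    have h6 : (inner ℝ v x : ℝ) - inner ℝ v y < w * ‖v‖ := by nlinarith
    calc (‖v‖)⁻¹ * ((inner ℝ v x : ℝ) - inner ℝ v y) < (‖v‖)⁻¹ * (w * ‖v‖) :=
          mul_lt_mul_of_pos_left h6 (inv_pos.mpr hvn)
      _ = w := by field_simp
  linarith

/-- (ii): shrinking. -/
private theorem BngA_shrink {C : Set E3} (hC : IsCompact C) (hconv : Convex ℝ C)
    (hne : C.Nonempty) {w d : ℝ} (hw : 0 < w) (hd0 : 0 ≤ d) (hdw : d ≤ w)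
    (hwid : ∀ v : E3, ‖v‖ = 1 → w ≤ widthIn C v) {u : E3} (hu : ‖u‖ = 1) :
    IsCompact {x | x ∈ C ∧ x + d • u ∈ C} ∧ Convex ℝ {x | x ∈ C ∧ x + d • u ∈ C} ∧
      ({x | x ∈ C ∧ x + d • u ∈ C} : Set E3).Nonempty ∧
      ∀ v : E3, ‖v‖ = 1 → w - d ≤ widthIn {x | x ∈ C ∧ x + d • u ∈ C} v := by
  obtain ⟨x, hx, hxu⟩ := BngA_chord hC hconv hne hw hwid hu
  have hcomp : IsCompact {x | x ∈ C ∧ x + d • u ∈ C} := by
    refine hC.inter_right ?_
    exact hC.isClosed.preimage (continuous_id.add continuous_const)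
  have hcv : Convex ℝ {x | x ∈ C ∧ x + d • u ∈ C} := by
    intro a ha b hb s t hs ht hst
    refine ⟨hconv ha.1 hb.1 hs ht hst, ?_⟩
    have h := hconv ha.2 hb.2 hs ht hst
    have h2 : s • a + t • b + d • u = s • (a + d • u) + t • (b + d • u) := by
      rw [smul_add, smul_add]
      have h3 : d • u = s • d • u + t • d • u := by rw [← add_smul, hst, one_smul]
      nth_rewrite 1 [h3]
      abel
    rw [h2]
    exact h
  set θ : ℝ := d / w with hθ
  have hθ0 : 0 ≤ θ := div_nonneg hd0 hw.le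
  have hθ1 : θ ≤ 1 := (div_le_one hw).mpr hdw
  have hθw : θ * w = d := by rw [hθ]; field_simp
  have hz : ∀ y ∈ C, (1 - θ) • y + θ • x ∈ {x | x ∈ C ∧ x + d • u ∈ C} := by
    intro y hy
    refine ⟨hconv hy hx (by linarith) hθ0 (by ring), ?_⟩
    have h := hconv hy hxu (a := 1 - θ) (b := θ) (by linarith) hθ0 (by ring)
    rw [smul_add, smul_smul, hθw, ← add_assoc] at h
    exact h
  obtain ⟨y0, hy0⟩ := hne
  refine ⟨hcomp, hcv, ⟨_, hz y0 hy0⟩, ?_⟩
  intro v hv
  obtain ⟨y1, hy1, hm1⟩ := BngA_hi_mem hC ⟨y0, hy0⟩ v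
  obtain ⟨y2, hy2, hm2⟩ := BngA_lo_mem hC ⟨y0, hy0⟩ v
  have h1 := BngA_le_hi hcomp v (hz y1 hy1)
  have h2 := BngA_lo_le hcomp v (hz y2 hy2)
  have h3 := hwid v hv
  rw [widthIn, ← hm1, ← hm2] at h3
  rw [inner_add_right, real_inner_smul_right, real_inner_smul_right] at h1 h2
  rw [widthIn]
  have h4 : (1 - θ) * w ≤ (1 - θ) * ((inner ℝ v y1 : ℝ) - inner ℝ v y2) :=
    mul_le_mul_of_nonneg_left h3 (by linarith)
  have h5 : (1 - θ) * w = w - d := by rw [sub_mul, hθw, one_mul]
  linarith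

/-- (iii): induction. -/
private theorem BngA_ind {N : ℕ} (u : Fin N → E3) {ρ : ℝ} (hρ : 0 < ρ) (hu : ∀ i, ‖u i‖ = 1)
    (s : Finset (Fin N)) : ∀ C : Set E3, IsCompact C → Convex ℝ C → C.Nonempty →
      (∀ v : E3, ‖v‖ = 1 → 2 * (s.card : ℝ) * ρ ≤ widthIn C v) →
      ∃ y : E3, ∀ A : Finset (Fin N), A ⊆ s → y + ∑ i ∈ A, (2 * ρ) • u i ∈ C := by
  classical
  induction s using Finset.induction_on with
  | empty =>
    rintro C - - ⟨y, hy⟩ -
    refine ⟨y, ?_⟩
    intro A hA
    rw [Finset.subset_empty.mp hA, Finset.sum_empty, add_zero]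
    exact hy
  | insert a s ha ih =>
    intro C hC hconv hne hwid
    rw [Finset.card_insert_of_notMem ha] at hwid
    push_cast at hwid
    have hw : 0 < 2 * ((s.card : ℝ) + 1) * ρ := by positivity
    obtain ⟨c1, c2, c3, c4⟩ := BngA_shrink (d := 2 * ρ) hC hconv hne hw (by positivity)
      (by nlinarith [(Nat.cast_nonneg s.card : (0 : ℝ) ≤ (s.card : ℝ))]) hwid (hu a)
    obtain ⟨y, hy⟩ := ih _ c1 c2 c3 (by
      intro v hv
      have := c4 v hv
      linarith)
    refine ⟨y, ?_⟩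
    intro A hA
    by_cases haA : a ∈ A
    · have hsub : A.erase a ⊆ s := by
        intro i hi
        rw [Finset.mem_erase] at hi
        rcases Finset.mem_insert.mp (hA hi.2) with h | h
        · exact absurd h hi.1
        · exact h
      have h := (hy _ hsub).2
      rw [← Finset.add_sum_erase A _ haA]
      have h2 : y + ((2 * ρ) • u a + ∑ x ∈ A.erase a, (2 * ρ) • u x)
          = y + ∑ x ∈ A.erase a, (2 * ρ) • u x + (2 * ρ) • u a := by abel
      rw [h2]
      exact h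
    · have hsub : A ⊆ s := by
        intro i hi
        rcases Finset.mem_insert.mp (hA hi) with h | h
        · subst h
          exact absurd hi haA
        · exact h
      exact (hy _ hsub).1

/-- **BngA.** -/
theorem BngA : S_bngA := by
  intro N u ρ C hρ hu hC hconv hne hwid
  obtain ⟨y, hy⟩ := BngA_ind u hρ hu Finset.univ C hC hconv hne (by
    intro v hv
    rw [Finset.card_univ, Fintype.card_fin]
    exact hwid v hv)
  exact ⟨y, fun A => hy A (Finset.subset_univ A)⟩

end FriedPotato
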