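import Pool.Agent.CFP.St

/-!
# CFP BngB: the choice of signs in Bang's argument (helper20)
-/

namespace FriedPotato

theorem BngB : S_bngB := by
  intro N u t ρ C hρ hu hy
  obtain ⟨y, hy⟩ := hy
  obtain ⟨A, -, hA⟩ := Finset.exists_max_image (Finset.univ : Finset (Finset (Fin N)))
    (fun A => ‖y + ∑ i ∈ A, (2 * ρ) • u i‖ ^ 2 - 4 * ρ * ∑ i ∈ A, t i)
    ⟨∅, Finset.mem_univ _⟩
  refine ⟨y + ∑ i ∈ A, (2 * ρ) • u i, hy A, fun i => ?_⟩
  set z : E3 := y + ∑ i ∈ A, (2 * ρ) • u i with hz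
  have hnu : ‖(2 * ρ) • u i‖ ^ 2 = 4 * ρ ^ 2 := by
    rw [norm_smul, hu i, mul_one, Real.norm_eq_abs, sq_abs]
    ring
  have hin : inner ℝ z ((2 * ρ) • u i) = 2 * ρ * inner ℝ (u i) z := by
    rw [inner_smul_right, real_inner_comm]
  by_cases hi : i ∈ A
  · have h1 := hA (A.erase i) (Finset.mem_univ _)
    have h2 : y + ∑ j ∈ A.erase i, (2 * ρ) • u j = z - (2 * ρ) • u i := by
      rw [hz, ← Finset.add_sum_erase A _ hi]
      abel
    have h3 : ∑ j ∈ A.erase i, t j = ∑ j ∈ A, t j - t i := by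
      rw [← Finset.add_sum_erase A _ hi]
      ring
    simp only [h2, h3] at h1
    rw [norm_sub_sq_real, hnu, hin] at h1
    have h4 : ρ * (ρ - (inner ℝ (u i) z - t i)) ≤ 0 := by nlinarith
    have h5 : ρ - (inner ℝ (u i) z - t i) ≤ 0 := by
      by_contra h6
      have := mul_pos hρ (not_le.mp h6)
      linarith
    exact le_trans (by linarith) (le_abs_self _)
  · have h1 := hA (insert i A) (Finset.mem_univ _)
    have h2 : y + ∑ j ∈ insert i A, (2 * ρ) • u j = z + (2 * ρ) • u i := by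
      rw [hz, Finset.sum_insert hi]
      abel
    have h3 : ∑ j ∈ insert i A, t j = ∑ j ∈ A, t j + t i := by
      rw [Finset.sum_insert hi]
      ring
    simp only [h2, h3] at h1
    rw [norm_add_sq_real, hnu, hin] at h1
    have h4 : ρ * (ρ + (inner ℝ (u i) z - t i)) ≤ 0 := by nlinarith
    have h5 : ρ + (inner ℝ (u i) z - t i) ≤ 0 := by
      by_contra h6
      have := mul_pos hρ (not_le.mp h6)
      linarith
    exact le_trans (by linarith) (neg_le_abs _)

end FriedPotato
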