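import Pool.Agent.CFP.St

/-! CFP, module Car (helper30): Caratheodory with four points, compact convex hulls. -/

set_option autoImplicit false

namespace FriedPotato

theorem Car : S_car := by
  classical
  intro U x hx
  obtain ⟨ι, _, z, w, hz, haff, hw, hw1, hwx⟩ := eq_pos_convex_span_of_mem_convexHull hx
  have hcard : Fintype.card ι ≤ Fintype.card (Fin 4) := by
    have h1 := haff.card_le_finrank_succ
    have h2 : Module.finrank ℝ (vectorSpan ℝ (Set.range z)) ≤ Module.finrank ℝ E3 :=
      Submodule.finrank_le _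
    have h3 : Module.finrank ℝ E3 = 3 := by simp [E3]
    rw [Fintype.card_fin]
    omega
  obtain ⟨e⟩ := Function.Embedding.nonempty_of_card_le hcard
  have hne : Nonempty ι := by
    by_contra h
    rw [not_nonempty_iff] at h
    rw [Finset.univ_eq_empty, Finset.sum_empty] at hw1
    exact zero_ne_one hw1
  obtain ⟨i0⟩ := hne
  have hex : ∀ j : Fin 4, (∃ i, e i = j) ∨ j ∉ Set.range e := fun j => by
    by_cases h : j ∈ Set.range e
    · exact Or.inl h
    · exact Or.inr h
  refine ⟨Function.extend e z (fun _ => z i0), Function.extend e w (fun _ => 0), ?_, ?_, ?_, ?_⟩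
  · intro j
    rcases hex j with ⟨i, rfl⟩ | h
    · rw [e.injective.extend_apply]
      exact hz ⟨i, rfl⟩
    · rw [Function.extend_apply' _ _ _ h]
      exact hz ⟨i0, rfl⟩
  · intro j
    rcases hex j with ⟨i, rfl⟩ | h
    · rw [e.injective.extend_apply]
      exact (hw i).le
    · rw [Function.extend_apply' _ _ _ h]
  · rw [← hw1]
    symm
    refine Fintype.sum_of_injective e e.injective _ _ ?_ ?_
    · intro j h
      rw [Function.extend_apply' _ _ _ h]
    · intro i
      rw [e.injective.extend_apply]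
  · rw [← hwx]
    symm
    refine Fintype.sum_of_injective e e.injective _ _ ?_ ?_
    · intro j h
      rw [Function.extend_apply' w _ _ h, zero_smul]
    · intro i
      rw [e.injective.extend_apply, e.injective.extend_apply]

theorem Cpt : S_cpt := by
  intro U hU
  have h1 : IsCompact ((fun p : (Fin 4 → E3) × (Fin 4 → ℝ) => ∑ i, p.2 i • p.1 i) ''
      ((Set.pi Set.univ fun _ => U) ×ˢ stdSimplex ℝ (Fin 4))) := by
    refine IsCompact.image ?_ ?_
    · exact (isCompact_univ_pi fun _ => hU).prod (isCompact_stdSimplex ℝ (Fin 4))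
    · fun_prop
  have h2 : convexHull ℝ U = (fun p : (Fin 4 → E3) × (Fin 4 → ℝ) => ∑ i, p.2 i • p.1 i) ''
      ((Set.pi Set.univ fun _ => U) ×ˢ stdSimplex ℝ (Fin 4)) := by
    ext x
    constructor
    · intro hx
      obtain ⟨u, l, hu, hl, hl1, hlx⟩ := Car U x hx
      exact ⟨(u, l), ⟨fun i _ => hu i, hl, hl1⟩, hlx⟩
    · rintro ⟨⟨u, l⟩, ⟨hu, hl, hl1⟩, rfl⟩
      exact (convex_convexHull ℝ U).sum_mem (fun i _ => hl i) hl1
        (fun i _ => subset_convexHull ℝ U (hu i (Set.mem_univ i)))
  rw [h2]
  exact h1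

end FriedPotato
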