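import Pool.Agent.CFP.St

/-!
# CFP, module ConA (theorem Con; the file name Con.lean is reserved): contact normals of the largest ball (helper76)
-/

set_option autoImplicit false

namespace FriedPotato

open Metric

private theorem Con_cont {K : Set E3} (hK : IsCompact K) : Continuous fun u : E3 => hi K u := by
  unfold hi
  exact hK.continuous_sSup (f := fun (u : E3) (x : E3) => inner ℝ u x) continuous_inner

theorem Con (hball : S_ball) (hbas : S_bas) (hcar : S_car) (hcpt : S_cpt) : S_con := by
  intro K hK
  obtain ⟨-, -, hR0, ⟨c, hc⟩, hmax, -⟩ := hbas K hK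
  have hne : K.Nonempty := hK.inner.mono interior_subset
  have hb := hball K hK.compact hK.convex hne
  have hφ : ∀ u : E3, ‖u‖ = 1 → inner ℝ u c + inradius K ≤ hi K u := (hb c _ hR0.le).1 hc
  have hhi : Continuous fun u : E3 => hi K u := Con_cont hK.compact
  have hcontφ : Continuous fun u : E3 => hi K u - inner ℝ u c - inradius K :=
    (hhi.sub (continuous_id.inner continuous_const)).sub continuous_const
  set U : Set E3 := {u | ‖u‖ = 1 ∧ hi K u = inner ℝ u c + inradius K} with hU
  have hUc : IsCompact U := by
    have h1 : U = sphere (0 : E3) 1 ∩ {u | hi K u = inner ℝ u c + inradius K} := by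
      ext u
      simp [hU]
    rw [h1]
    exact (isCompact_sphere 0 1).inter_right
      (isClosed_eq hhi ((continuous_id.inner continuous_const).add continuous_const))
  have h0 : (0 : E3) ∈ convexHull ℝ U := by
    by_contra h0
    obtain ⟨f, δ, hδ0, hδ⟩ := geometric_hahn_banach_point_closed (convex_convexHull ℝ U)
      (hcpt U hUc).isClosed h0
    rw [map_zero] at hδ0
    set q : E3 := (InnerProductSpace.toDual ℝ E3).symm f with hq
    have hqf : ∀ u : E3, inner ℝ u q = f u := by
      intro u
      rw [real_inner_comm, hq, InnerProductSpace.toDual_symm_apply]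
    have hη : ∃ η : ℝ, 0 < η ∧ ∀ u : E3, ‖u‖ = 1 → f u ≤ δ / 2 →
        η ≤ hi K u - inner ℝ u c - inradius K := by
      have hV : IsCompact ({u : E3 | ‖u‖ = 1 ∧ f u ≤ δ / 2}) := by
        have h1 : {u : E3 | ‖u‖ = 1 ∧ f u ≤ δ / 2} = sphere (0 : E3) 1 ∩ {u | f u ≤ δ / 2} := by
          ext u
          simp
        rw [h1]
        exact (isCompact_sphere 0 1).inter_right (isClosed_le f.continuous continuous_const)
      by_cases hVe : ({u : E3 | ‖u‖ = 1 ∧ f u ≤ δ / 2}).Nonempty
      · obtain ⟨u1, hu1, hmin⟩ := hV.exists_isMinOn hVe hcontφ.continuousOn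
        refine ⟨hi K u1 - inner ℝ u1 c - inradius K, ?_, fun u hu hfu => hmin ⟨hu, hfu⟩⟩
        have h2 := hφ u1 hu1.1
        have h3 : hi K u1 ≠ inner ℝ u1 c + inradius K := by
          intro h4
          have h5 := hδ u1 (subset_convexHull ℝ U ⟨hu1.1, h4⟩)
          have h6 := hu1.2
          linarith
        have h7 : inner ℝ u1 c + inradius K < hi K u1 := lt_of_le_of_ne h2 (Ne.symm h3)
        linarith
      · refine ⟨1, one_pos, fun u hu hfu => ?_⟩
        exact absurd ⟨u, hu, hfu⟩ hVe
    obtain ⟨η, hη0, hη⟩ := hη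
    set ε : ℝ := η / (2 * (‖q‖ + 1)) with hε
    have hq1 : 0 < ‖q‖ + 1 := by positivity
    have hε0 : 0 < ε := by positivity
    have hεq : ε * ‖q‖ ≤ η / 2 := by
      rw [hε, div_mul_eq_mul_div, div_le_iff₀ (by positivity)]
      have : 0 ≤ ‖q‖ := norm_nonneg q
      nlinarith
    set mm : ℝ := min (η / 2) (ε * δ / 2) with hm
    have hm0 : 0 < mm := lt_min (by positivity) (by positivity)
    have hm1 : mm ≤ η / 2 := min_le_left _ _
    have hm2 : mm ≤ ε * δ / 2 := min_le_right _ _
    have hsub : closedBall (c - ε • q) (inradius K + mm) ⊆ K := by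
      rw [hb _ _ (by linarith)]
      intro u hu
      rw [inner_sub_right, inner_smul_right, hqf]
      by_cases hfu : f u ≤ δ / 2
      · have h1 := hη u hu hfu
        have h2 : -(‖q‖) ≤ f u := by
          rw [← hqf]
          have h3 := abs_real_inner_le_norm u q
          rw [hu, one_mul, abs_le] at h3
          exact h3.1
        have h3 : -(η / 2) ≤ ε * f u := by nlinarith
        linarith
      · push Not at hfu
        have h1 := hφ u hu
        have h2 : ε * δ / 2 ≤ ε * f u := by nlinarith
        linarith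
    have h8 := hmax _ _ (by linarith) hsub
    linarith
  obtain ⟨u, l, hu, hl, hl1, hsum⟩ := hcar U 0 h0
  exact ⟨c, u, l, fun i => (hu i).1, hl, hl1, hsum, fun i => (hu i).2⟩

end FriedPotato
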