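import Pool.Agent.CFP.St

/-!
# CorA: the corner simplex, minimal-width directions
-/

set_option autoImplicit false

namespace FriedPotato

open Metric

private lemma CorA_inner (u x : E3) :
    inner ℝ u x = u 0 * x 0 + u 1 * x 1 + u 2 * x 2 := by
  simp only [PiLp.inner_apply, Fin.sum_univ_three]
  simp only [RCLike.inner_apply, conj_trivial]
  ring

private lemma CorA_norm (u : E3) : ‖u‖ ^ 2 = u 0 ^ 2 + u 1 ^ 2 + u 2 ^ 2 := by
  rw [← real_inner_self_eq_norm_sq, CorA_inner]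
  ring

private lemma CorA_convex : Convex ℝ corner := by
  intro x hx y hy a b ha hb hab
  obtain ⟨h1, h2, h3, h4⟩ := hx
  obtain ⟨k1, k2, k3, k4⟩ := hy
  have e : ∀ i : Fin 3, (a • x + b • y : E3) i = a * x i + b * y i := fun i => by
    simp [PiLp.add_apply, PiLp.smul_apply]
  refine ⟨?_, ?_, ?_, ?_⟩
  · rw [e]; positivity
  · rw [e]; positivity
  · rw [e]; positivity
  · rw [e, e, e]
    nlinarith [mul_le_mul_of_nonneg_left h4 ha, mul_le_mul_of_nonneg_left k4 hb]

private lemma CorA_cont (i : Fin 3) : Continuous fun x : E3 => x i :=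
  (EuclideanSpace.proj i : E3 →L[ℝ] ℝ).continuous

private lemma CorA_closed : IsClosed corner := by
  have h0 := CorA_cont 0
  have h1 := CorA_cont 1
  have h2 := CorA_cont 2
  have e : corner = {x : E3 | 0 ≤ x 0} ∩ ({x | 0 ≤ x 1} ∩ ({x | 0 ≤ x 2} ∩
      {x | x 0 + x 1 + x 2 ≤ 1})) := by
    ext x
    simp [corner]
  rw [e]
  exact (isClosed_le continuous_const h0).inter ((isClosed_le continuous_const h1).inter
    ((isClosed_le continuous_const h2).inter (isClosed_le ((h0.add h1).add h2) continuous_const)))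

private lemma CorA_compact : IsCompact corner := by
  refine (isCompact_closedBall (0 : E3) 1).of_isClosed_subset CorA_closed ?_
  rintro x ⟨h1, h2, h3, h4⟩
  rw [mem_closedBall, dist_zero_right]
  have := CorA_norm x
  have h5 : ‖x‖ ^ 2 ≤ 1 ^ 2 := by
    rw [this]
    nlinarith [mul_nonneg h1 h2, mul_nonneg h1 h3, mul_nonneg h2 h3]
  exact (abs_le_of_sq_le_sq' h5 zero_le_one).2

private lemma CorA_inner_nonempty : (interior corner).Nonempty := by
  have h0 := CorA_cont 0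
  have h1 := CorA_cont 1
  have h2 := CorA_cont 2
  refine ⟨(!₂[1 / 4, 1 / 4, 1 / 4] : E3), ?_⟩
  rw [mem_interior]
  refine ⟨{x : E3 | 0 < x 0} ∩ ({x | 0 < x 1} ∩ ({x | 0 < x 2} ∩
      {x | x 0 + x 1 + x 2 < 1})), ?_, ?_, ?_⟩
  · rintro x ⟨a1, a2, a3, a4⟩
    exact ⟨a1.le, a2.le, a3.le, a4.le⟩
  · exact (isOpen_lt continuous_const h0).inter ((isOpen_lt continuous_const h1).inter
      ((isOpen_lt continuous_const h2).inter (isOpen_lt ((h0.add h1).add h2) continuous_const)))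
  · refine ⟨?_, ?_, ?_, ?_⟩ <;> simp <;> norm_num

private lemma CorA_body : IsBody corner := ⟨CorA_convex, CorA_compact, CorA_inner_nonempty⟩

private lemma CorA_img (u : E3) : IsCompact ((fun x : E3 => inner ℝ u x) '' corner) :=
  CorA_compact.image (continuous_const.inner continuous_id)

private lemma CorA_le (u p q : E3) (hp : p ∈ corner) (hq : q ∈ corner) :
    inner ℝ u p - inner ℝ u q ≤ widthIn corner u := by
  have h1 : inner ℝ u p ≤ hi corner u := le_csSup (CorA_img u).bddAbove ⟨p, hp, rfl⟩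
  have h2 : lo corner u ≤ inner ℝ u q := csInf_le (CorA_img u).bddBelow ⟨q, hq, rfl⟩
  unfold widthIn
  linarith

private lemma CorA_zero : (0 : E3) ∈ corner := by
  simp [corner]

private lemma CorA_e (i : Fin 3) : (EuclideanSpace.single i (1 : ℝ) : E3) ∈ corner := by
  fin_cases i <;> simp [corner]

private lemma CorA_ie (u : E3) (i : Fin 3) :
    inner ℝ u (EuclideanSpace.single i (1 : ℝ) : E3) = u i := by
  rw [CorA_inner]
  fin_cases i <;> simp

private lemma CorA_nonneg (u : E3) : 0 ≤ widthIn corner u := by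
  have := CorA_le u 0 0 CorA_zero CorA_zero
  simpa using this

private lemma CorA_abs (u : E3) (i : Fin 3) : |u i| ≤ widthIn corner u := by
  have h1 := CorA_le u _ _ (CorA_e i) CorA_zero
  have h2 := CorA_le u _ _ CorA_zero (CorA_e i)
  rw [CorA_ie, inner_zero_right] at h1 h2
  rw [abs_le]
  constructor <;> linarith

private lemma CorA_diff (u : E3) (i j : Fin 3) : u i - u j ≤ widthIn corner u := by
  have h1 := CorA_le u _ _ (CorA_e i) (CorA_e j)
  rwa [CorA_ie, CorA_ie] at h1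

private lemma CorA_ge (u : E3) (hu : ‖u‖ = 1) : 1 / √3 ≤ widthIn corner u := by
  have h := CorA_norm u
  rw [hu] at h
  have h0 := CorA_abs u 0
  have h1 := CorA_abs u 1
  have h2 := CorA_abs u 2
  have hw := CorA_nonneg u
  have k0 := sq_le_sq' (abs_le.1 h0).1 (abs_le.1 h0).2
  have k1 := sq_le_sq' (abs_le.1 h1).1 (abs_le.1 h1).2
  have k2 := sq_le_sq' (abs_le.1 h2).1 (abs_le.1 h2).2
  have h3 : (1 / √3) ^ 2 ≤ (widthIn corner u) ^ 2 := by
    rw [div_pow, Real.sq_sqrt (by norm_num)]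
    linarith
  exact (abs_le_of_sq_le_sq' h3 hw).2

private lemma CorA_dir : ‖(!₂[1 / √3, 1 / √3, 1 / √3] : E3)‖ = 1 := by
  have h := CorA_norm (!₂[1 / √3, 1 / √3, 1 / √3] : E3)
  have h3 : ((1 : ℝ) / √3) ^ 2 = 1 / 3 := by
    rw [div_pow, Real.sq_sqrt (by norm_num)]
    norm_num
  have h4 : ‖(!₂[1 / √3, 1 / √3, 1 / √3] : E3)‖ ^ 2 = 1 := by
    rw [h]
    simp only [Matrix.cons_val_zero, Matrix.cons_val_one, Matrix.cons_val]
    rw [h3]
    norm_num
  have h5 := norm_nonneg (!₂[1 / √3, 1 / √3, 1 / √3] : E3)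
  nlinarith

private lemma CorA_dir_le : widthIn corner (!₂[1 / √3, 1 / √3, 1 / √3] : E3) ≤ 1 / √3 := by
  have hne : ((fun x : E3 => inner ℝ (!₂[1 / √3, 1 / √3, 1 / √3] : E3) x) '' corner).Nonempty :=
    ⟨_, 0, CorA_zero, rfl⟩
  have hin : ∀ x : E3, inner ℝ (!₂[1 / √3, 1 / √3, 1 / √3] : E3) x =
      1 / √3 * (x 0 + x 1 + x 2) := fun x => by
    rw [CorA_inner]
    simp only [Matrix.cons_val_zero, Matrix.cons_val_one, Matrix.cons_val]
    ring
  have hp : (0 : ℝ) < 1 / √3 := by positivity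
  have h1 : hi corner (!₂[1 / √3, 1 / √3, 1 / √3] : E3) ≤ 1 / √3 := by
    refine csSup_le hne ?_
    rintro _ ⟨x, ⟨a1, a2, a3, a4⟩, rfl⟩
    show inner ℝ (!₂[1 / √3, 1 / √3, 1 / √3] : E3) x ≤ 1 / √3
    rw [hin]
    nlinarith
  have h2 : 0 ≤ lo corner (!₂[1 / √3, 1 / √3, 1 / √3] : E3) := by
    refine le_csInf hne ?_
    rintro _ ⟨x, ⟨a1, a2, a3, a4⟩, rfl⟩
    show 0 ≤ inner ℝ (!₂[1 / √3, 1 / √3, 1 / √3] : E3) x
    rw [hin]
    positivity
  unfold widthIn
  linarith

private lemma CorA_width : width corner = 1 / √3 := by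
  unfold width
  apply le_antisymm
  · have hb : BddBelow {d : ℝ | ∃ u : E3, ‖u‖ = 1 ∧ d = widthIn corner u} := by
      refine ⟨0, ?_⟩
      rintro _ ⟨u, -, rfl⟩
      exact CorA_nonneg u
    exact (csInf_le hb ⟨_, CorA_dir, rfl⟩).trans CorA_dir_le
  · have hne : {d : ℝ | ∃ u : E3, ‖u‖ = 1 ∧ d = widthIn corner u}.Nonempty :=
      ⟨_, _, CorA_dir, rfl⟩
    refine le_csInf hne ?_
    rintro _ ⟨u, hu, rfl⟩
    exact CorA_ge u hu

/-- **CorA.** -/
theorem CorA : S_corA := by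
  refine ⟨CorA_body, ?_⟩
  rintro u ⟨hu, hw⟩
  rw [CorA_width] at hw
  have h := CorA_norm u
  rw [hu] at h
  have h3 : ((1 : ℝ) / √3) ^ 2 = 1 / 3 := by
    rw [div_pow, Real.sq_sqrt (by norm_num)]
    norm_num
  have hp : (0 : ℝ) < 1 / √3 := by positivity
  have hab : ∀ i, u i ^ 2 ≤ 1 / 3 := fun i => by
    have h0 := CorA_abs u i
    rw [hw] at h0
    have k0 := sq_le_sq' (abs_le.1 h0).1 (abs_le.1 h0).2
    rwa [h3] at k0
  have hd : ∀ i j, u i - u j ≤ 1 / √3 := fun i j => hw ▸ CorA_diff u i j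
  have heq : ∀ i, u i ^ 2 = (1 / √3) ^ 2 := by
    have a0 := hab 0
    have a1 := hab 1
    have a2 := hab 2
    intro i
    rw [h3]
    fin_cases i
    · show u 0 ^ 2 = 1 / 3
      linarith
    · show u 1 ^ 2 = 1 / 3
      linarith
    · show u 2 ^ 2 = 1 / 3
      linarith
  have hor : ∀ i, u i = 1 / √3 ∨ u i = -(1 / √3) := fun i => sq_eq_sq_iff_eq_or_eq_neg.1 (heq i)
  rcases hor 0 with h0 | h0
  · refine ⟨1, Or.inl rfl, ?_, CorA_width⟩
    intro i
    rcases hor i with hi' | hi'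
    · exact hi'
    · have := hd 0 i
      rw [h0, hi'] at this
      linarith
  · refine ⟨-1, Or.inr rfl, ?_, CorA_width⟩
    intro i
    rcases hor i with hi' | hi'
    · have := hd i 0
      rw [h0, hi'] at this
      linarith
    · rw [hi', neg_div]

end FriedPotato
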