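import Pool.Agent.CFP.St

/-!
# Cov: the centres of the balls are covered by planks and by the pieces
-/

namespace FriedPotato

open Metric

/-- A ball of radius `ρ` whose centre is at distance at least `ρ` from the plane lies on one side
of it. -/
private lemma Cov_side (u : E3) (hu : u ≠ 0) (t ρ : ℝ) (c : E3)
    (h : ρ ≤ |inner ℝ ((‖u‖)⁻¹ • u) c - (‖u‖)⁻¹ * t|) :
    (∀ x ∈ closedBall c ρ, inner ℝ u x ≤ t) ∨ (∀ x ∈ closedBall c ρ, t ≤ inner ℝ u x) := by
  have hn : 0 < ‖u‖ := norm_pos_iff.mpr hu
  have h1 : inner ℝ ((‖u‖)⁻¹ • u) c - (‖u‖)⁻¹ * t = (‖u‖)⁻¹ * (inner ℝ u c - t) := by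
    rw [inner_smul_left]
    simp only [conj_trivial]
    ring
  rw [h1, abs_mul, abs_of_pos (inv_pos.mpr hn)] at h
  have h2 : ρ * ‖u‖ ≤ |inner ℝ u c - t| := by
    have h3 := mul_le_mul_of_nonneg_right h hn.le
    have h4 : (‖u‖)⁻¹ * |inner ℝ u c - t| * ‖u‖ = |inner ℝ u c - t| := by
      field_simp
    rw [h4] at h3
    exact h3
  have h5 : ∀ x ∈ closedBall c ρ, |inner ℝ u x - inner ℝ u c| ≤ ρ * ‖u‖ := by
    intro x hx
    rw [← inner_sub_right]
    have h6 : |inner ℝ u (x - c)| ≤ ‖u‖ * ‖x - c‖ := abs_real_inner_le_norm u (x - c)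
    have h7 : ‖x - c‖ ≤ ρ := by
      rw [← dist_eq_norm]
      exact mem_closedBall.mp hx
    calc |inner ℝ u (x - c)| ≤ ‖u‖ * ‖x - c‖ := h6
      _ ≤ ‖u‖ * ρ := mul_le_mul_of_nonneg_left h7 hn.le
      _ = ρ * ‖u‖ := mul_comm _ _
  rcases le_total 0 (inner ℝ u c - t) with h8 | h8
  · right
    intro x hx
    rw [abs_of_nonneg h8] at h2
    have h9 := abs_le.mp (h5 x hx)
    linarith [h9.1]
  · left
    intro x hx
    rw [abs_of_nonpos h8] at h2
    have h9 := abs_le.mp (h5 x hx)
    linarith [h9.2]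

/-- Cov: the centres of the balls of radius `ρ` in `K` are covered by the open planks around the
cut planes and the centres of the balls in the pieces. -/
theorem Cov : S_cov := by
  intro K L hL
  induction hL with
  | start =>
    refine ⟨[], rfl, by simp, ?_⟩
    intro ρ _ c hc
    left
    exact ⟨K, by simp, hc⟩
  | cut L₁ L₂ P u t hS hu hx ih =>
    obtain ⟨M, hM1, hM2, hM3⟩ := ih
    have hn : 0 < ‖u‖ := norm_pos_iff.mpr hu
    refine ⟨((‖u‖)⁻¹ • u, (‖u‖)⁻¹ * t) :: M, ?_, ?_, ?_⟩
    · simp only [List.length_cons, List.length_append] at hM1 ⊢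
      omega
    · intro q hq
      rcases List.mem_cons.mp hq with rfl | hq
      · simp only [norm_smul, norm_inv, norm_norm]
        exact inv_mul_cancel₀ hn.ne'
      · exact hM2 q hq
    · intro ρ hρ c hc
      rcases hM3 ρ hρ c hc with ⟨P', hP', hcP⟩ | ⟨q, hq, hqc⟩
      · rcases List.mem_append.mp hP' with h1 | h1
        · left
          exact ⟨P', List.mem_append.mpr (Or.inl h1), hcP⟩
        · rcases List.mem_cons.mp h1 with h2 | h2
          · subst h2
            by_cases h3 : ρ ≤ |inner ℝ ((‖u‖)⁻¹ • u) c - (‖u‖)⁻¹ * t|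
            · left
              rcases Cov_side u hu t ρ c h3 with h4 | h4
              · refine ⟨below u t P', ?_, ?_⟩
                · exact List.mem_append.mpr (Or.inr (List.mem_cons.mpr (Or.inl rfl)))
                · intro x hx'
                  exact ⟨hcP hx', h4 x hx'⟩
              · refine ⟨above u t P', ?_, ?_⟩
                · exact List.mem_append.mpr (Or.inr (List.mem_cons.mpr (Or.inr
                    (List.mem_cons.mpr (Or.inl rfl)))))
                · intro x hx'
                  exact ⟨hcP hx', h4 x hx'⟩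
            · right
              exact ⟨_, List.mem_cons.mpr (Or.inl rfl), not_le.mp h3⟩
          · left
            exact ⟨P', List.mem_append.mpr (Or.inr (List.mem_cons.mpr (Or.inr
              (List.mem_cons.mpr (Or.inr h2))))), hcP⟩
      · right
        exact ⟨q, List.mem_cons.mpr (Or.inr hq), hqc⟩

end FriedPotato

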