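import Mathlib

/-!
# How far Conway's slicing of the fried potato is from optimal (MP_1ff74e_co)

Captain: helper79 (4 December).  This file holds the definitions of the problem file in Lean.
-/

namespace FriedPotato

/-- Euclidean three-space. -/
abbrev E3 := EuclideanSpace ℝ (Fin 3)

/-- A convex body: a compact convex set with nonempty interior. -/
structure IsBody (K : Set E3) : Prop where
  convex : Convex ℝ K
  compact : IsCompact K
  inner : (interior K).Nonempty

/-- The inradius: the largest radius of a ball contained in the set. -/
noncomputable def inradius (P : Set E3) : ℝ :=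
  sSup {r : ℝ | 0 ≤ r ∧ ∃ c : E3, Metric.closedBall c r ⊆ P}

/-- The part of `P` on one side of the plane `⟨u, x⟩ = t`. -/
def below (u : E3) (t : ℝ) (P : Set E3) : Set E3 := {x | x ∈ P ∧ inner ℝ u x ≤ t}

/-- The part of `P` on the other side of the plane `⟨u, x⟩ = t`. -/
def above (u : E3) (t : ℝ) (P : Set E3) : Set E3 := {x | x ∈ P ∧ t ≤ inner ℝ u x}

/-- `Slicing K L`: the list `L` of pieces arises from `K` by successive plane cuts.  Each cut
replaces exactly one of the current pieces `P` by its two closed parts on the two sides of a plane
`⟨u, x⟩ = t` that meets the interior of `P`. -/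
inductive Slicing (K : Set E3) : List (Set E3) → Prop
  | start : Slicing K [K]
  | cut (L₁ L₂ : List (Set E3)) (P : Set E3) (u : E3) (t : ℝ) :
      Slicing K (L₁ ++ P :: L₂) → u ≠ 0 → (∃ x ∈ interior P, inner ℝ u x = t) →
      Slicing K (L₁ ++ below u t P :: above u t P :: L₂)

/-- `r(S)`: the largest inradius among the pieces. -/
noncomputable def rMax (L : List (Set E3)) : ℝ := (L.map inradius).foldr max 0

/-- The supporting plane orthogonal to `u` on the upper side is `⟨u, x⟩ = hi K u`. -/
noncomputable def hi (K : Set E3) (u : E3) : ℝ := sSup ((fun x => inner ℝ u x) '' K)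

/-- The supporting plane orthogonal to `u` on the lower side is `⟨u, x⟩ = lo K u`. -/
noncomputable def lo (K : Set E3) (u : E3) : ℝ := sInf ((fun x => inner ℝ u x) '' K)

/-- For a unit vector `u`: the distance of the two supporting planes orthogonal to `u`. -/
noncomputable def widthIn (K : Set E3) (u : E3) : ℝ := hi K u - lo K u

/-- The width `w(K)`: the smallest distance between two parallel supporting planes. -/
noncomputable def width (K : Set E3) : ℝ := sInf {d : ℝ | ∃ u : E3, ‖u‖ = 1 ∧ d = widthIn K u}

/-- The unit vector `u` is orthogonal to a minimal-width pair of `K`. -/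
def IsMinDir (K : Set E3) (u : E3) : Prop := ‖u‖ = 1 ∧ widthIn K u = width K

/-- The pieces left by the successive parallel cuts `⟨u, x⟩ = t`, `t` in the list. -/
def cuts (u : E3) : List ℝ → Set E3 → List (Set E3)
  | [], P => [P]
  | t :: ts, P => below u t P :: cuts u ts (above u t P)

/-- The levels of the `n - 1` planes orthogonal to `u` that divide the slab between the two
supporting planes into `n` slabs of thickness `w(K) / n`. -/
noncomputable def levels (K : Set E3) (u : E3) (n : ℕ) : List ℝ :=
  (List.range (n - 1)).map (fun j : ℕ => lo K u + ((j : ℝ) + 1) * (width K / n))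

/-- The equally spaced parallel slicing attached to the minimal-width pair orthogonal to `u`. -/
noncomputable def equalSlices (K : Set E3) (u : E3) (n : ℕ) : List (Set E3) :=
  cuts u (levels K u n) K

end FriedPotato
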