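import Pool.Agent.CFP.St

/-!
# The lower bound for every slicing (helper78)
-/

set_option autoImplicit false

namespace FriedPotato

open Metric

private lemma Low_sub (K : Set E3) (L : List (Set E3)) (h : Slicing K L) : ∀ P ∈ L, P ⊆ K := by
  induction h with
  | start =>
    intro P hP
    rw [List.mem_singleton] at hP
    rw [hP]
  | cut L₁ L₂ P u t _ _ _ ih =>
    have hPK : P ⊆ K := ih P (by simp)
    intro Q hQ
    rw [List.mem_append] at hQ
    rcases hQ with hQ | hQ
    · exact ih Q (by rw [List.mem_append]; exact Or.inl hQ)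
    · rw [List.mem_cons, List.mem_cons] at hQ
      rcases hQ with hQ | hQ | hQ
      · rw [hQ]
        exact fun x hx => hPK hx.1
      · rw [hQ]
        exact fun x hx => hPK hx.1
      · exact ih Q (by rw [List.mem_append, List.mem_cons]; exact Or.inr (Or.inr hQ))

private lemma Low_nonneg (L : List (Set E3)) : 0 ≤ rMax L := by
  unfold rMax
  induction L with
  | nil => simp
  | cons P L ih =>
    rw [List.map_cons, List.foldr_cons]
    exact le_max_of_le_right ih

private lemma Low_le (L : List (Set E3)) (P : Set E3) (hP : P ∈ L) : inradius P ≤ rMax L := by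
  unfold rMax
  induction L with
  | nil => simp at hP
  | cons Q L ih =>
    rw [List.map_cons, List.foldr_cons]
    rw [List.mem_cons] at hP
    rcases hP with hP | hP
    · rw [hP]
      exact le_max_left _ _
    · exact (ih hP).trans (le_max_right _ _)

private lemma Low_inr (K P : Set E3) (hPK : P ⊆ K) (a : ℝ)
    (hb : ∀ (c : E3) (s : ℝ), 0 ≤ s → closedBall c s ⊆ K → s ≤ a) (c : E3) (r : ℝ) (hr : 0 ≤ r)
    (h : closedBall c r ⊆ P) : r ≤ inradius P := by
  unfold inradius
  refine le_csSup ⟨a, ?_⟩ ⟨hr, c, h⟩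
  rintro s ⟨hs, d, hd⟩
  exact hb d s hs (hd.trans hPK)

private lemma Low_width (K C : Set E3) (hK : IsCompact K) (hne : K.Nonempty) (hC : IsCompact C) (c v : E3)
    (θ : ℝ) (hCK : ∀ x ∈ K, (1 - θ) • x + θ • c ∈ C) :
    (1 - θ) * widthIn K v ≤ widthIn C v := by
  have hcont : Continuous fun x : E3 => inner ℝ v x := by fun_prop
  obtain ⟨x1, hx1, e1⟩ := hK.exists_sSup_image_eq hne hcont.continuousOn
  obtain ⟨x2, hx2, e2⟩ := hK.exists_sInf_image_eq hne hcont.continuousOn
  have hbdd : BddAbove ((fun x => inner ℝ v x) '' C) := (hC.image hcont).bddAbove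
  have hbdd' : BddBelow ((fun x => inner ℝ v x) '' C) := (hC.image hcont).bddBelow
  have h1 : inner ℝ v ((1 - θ) • x1 + θ • c) ≤ hi C v :=
    le_csSup hbdd ⟨_, hCK x1 hx1, rfl⟩
  have h2 : lo C v ≤ inner ℝ v ((1 - θ) • x2 + θ • c) :=
    csInf_le hbdd' ⟨_, hCK x2 hx2, rfl⟩
  rw [inner_add_right, inner_smul_right, inner_smul_right] at h1 h2
  have e3 : hi K v = inner ℝ v x1 := e1
  have e4 : lo K v = inner ℝ v x2 := e2
  unfold widthIn
  rw [e3, e4]
  linarith

private lemma Low_ball (K : Set E3) (hK : Convex ℝ K) (c : E3) (R ρ : ℝ) (hR : 0 < R) (hρ : 0 < ρ)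
    (hρR : ρ < R) (hc : closedBall c R ⊆ K) (x : E3) (hx : x ∈ K) :
    closedBall ((1 - ρ / R) • x + (ρ / R) • c) ρ ⊆ K := by
  intro p hp
  have hθ : 0 < ρ / R := by positivity
  have hθ1 : ρ / R < 1 := (div_lt_one hR).2 hρR
  set q : E3 := c + (R / ρ) • (p - ((1 - ρ / R) • x + (ρ / R) • c)) with hq
  have hqK : q ∈ K := by
    apply hc
    rw [mem_closedBall, dist_eq_norm, hq, add_sub_cancel_left, norm_smul, Real.norm_eq_abs,
      abs_of_pos (by positivity)]
    rw [mem_closedBall, dist_eq_norm] at hp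
    calc R / ρ * ‖p - ((1 - ρ / R) • x + (ρ / R) • c)‖ ≤ R / ρ * ρ :=
          mul_le_mul_of_nonneg_left hp (by positivity)
      _ = R := by field_simp
  have hpq : p = (1 - ρ / R) • x + (ρ / R) • q := by
    rw [hq, smul_add, smul_smul]
    have : ρ / R * (R / ρ) = 1 := by field_simp
    rw [this, one_smul]
    abel
  rw [hpq]
  exact hK hx hqK (by linarith) hθ.le (by ring)

/-- **Low** -/
theorem Low (hbas : S_bas) (hcov : S_cov) (hA : S_bngA) (hB : S_bngB) : S_low := by
  intro K hK L hL
  obtain ⟨_, hw, hR, ⟨c, hc⟩, hmax, hw0⟩ := hbas K hK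
  obtain ⟨M, hM, hunit, hcv⟩ := hcov K L hL
  set R := inradius K with hRdef
  set w := width K with hwdef
  have hn : ((L.length : ℝ) - 1) = (M.length : ℝ) := by
    rw [← hM]
    push_cast
    ring
  rw [hn]
  have hne : K.Nonempty := by
    obtain ⟨x, hx⟩ := hK.inner
    exact ⟨x, interior_subset hx⟩
  have hA0 : 0 < 2 * (M.length : ℝ) + w / R := by positivity
  have claim : ∀ ρ : ℝ, rMax L < ρ → w ≤ (2 * (M.length : ℝ) + w / R) * ρ := by
    intro ρ hρL
    have hρ : 0 < ρ := lt_of_le_of_lt (Low_nonneg L) hρL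
    rcases le_or_gt R ρ with hRρ | hρR
    · have h1 : w ≤ w / R * ρ := by
        rw [div_mul_eq_mul_div, le_div_iff₀ hR]
        exact mul_le_mul_of_nonneg_left hRρ hw0.le
      have h2 : 0 ≤ 2 * (M.length : ℝ) * ρ := by positivity
      linarith
    · by_contra hlt
      push Not at hlt
      have hθ1 : ρ / R < 1 := (div_lt_one hR).2 hρR
      set C : Set E3 := (fun x => (1 - ρ / R) • x + (ρ / R) • c) '' K with hCdef
      have hCc : IsCompact C := hK.compact.image (by fun_prop)
      have hCconv : Convex ℝ C := by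
        rintro _ ⟨x, hx, rfl⟩ _ ⟨y, hy, rfl⟩ a b ha hb hab
        refine ⟨a • x + b • y, hK.convex hx hy ha hb hab, ?_⟩
        simp only [smul_add, smul_smul]
        have e : (ρ / R) • c = (a * (ρ / R)) • c + (b * (ρ / R)) • c := by
          rw [← add_smul, ← add_mul, hab, one_mul]
        rw [e, mul_comm (1 - ρ / R) a, mul_comm (1 - ρ / R) b]
        abel
      have hCne : C.Nonempty := hne.image _
      have hwid : ∀ v : E3, ‖v‖ = 1 → 2 * (M.length : ℝ) * ρ ≤ widthIn C v := by
        intro v hv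
        have h1 := Low_width K C hK.compact hne hCc c v (ρ / R) (fun x hx => ⟨x, hx, rfl⟩)
        have h2 := hw v hv
        have h3 : (1 - ρ / R) * w ≤ (1 - ρ / R) * widthIn K v :=
          mul_le_mul_of_nonneg_left h2 (by linarith)
        have h4 : (2 * (M.length : ℝ) + w / R) * ρ = 2 * (M.length : ℝ) * ρ + ρ / R * w := by ring
        rw [h4] at hlt
        linarith
      obtain ⟨y, hy⟩ := hA M.length (fun i => (M.get i).1) ρ C hρ
        (fun i => hunit _ (List.get_mem _ _)) hCc hCconv hCne hwid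
      obtain ⟨z, hz, hzi⟩ := hB M.length (fun i => (M.get i).1) (fun i => (M.get i).2) ρ C hρ
        (fun i => hunit _ (List.get_mem _ _)) ⟨y, hy⟩
      obtain ⟨x, hx, rfl⟩ := hz
      have hball := Low_ball K hK.convex c R ρ hR hρ hρR hc x hx
      rcases hcv ρ hρ _ hball with ⟨P, hP, hPb⟩ | ⟨q, hq, hqb⟩
      · have h1 := Low_inr K P (Low_sub K L hL P hP) R hmax _ ρ hρ.le hPb
        have h2 := Low_le L P hP
        linarith
      · obtain ⟨i, hi⟩ := List.mem_iff_get.1 hq
        have h1 := hzi i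
        rw [hi] at h1
        linarith
  refine le_of_forall_pos_le_add fun ε hε => ?_
  have h1 := claim (rMax L + ε / (2 * (M.length : ℝ) + w / R)) (by
    have : 0 < ε / (2 * (M.length : ℝ) + w / R) := by positivity
    linarith)
  rw [mul_add, mul_div_cancel₀ _ hA0.ne'] at h1
  exact h1

end FriedPotato
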