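import Pool.Agent.CFP.St

/-!
# Two pieces: the truncated tetrahedron

For `n = 2` the factor `(n - 1 + √3)/n = (1 + √3)/2` is also best possible: the extremal bodies are
regular tetrahedra truncated at one vertex by a plane parallel to the opposite face, so that the
only minimal-width direction is the normal `g = (1,1,1)/√3` of that face.  (This replaces the corner
simplex.)

TruA.  `trunc q` is compact, convex, contains the six points `A₀ = (1,q,q), A₁ = (q,1,q),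
A₂ = (q,q,1), B₀ = (1,-1,-1), B₁ = (-1,1,-1), B₂ = (-1,-1,1)`, and `0` is an interior point.  Let
`w₀ = 2(1+q)/√3 < 2`.  In the direction `g` the width is `w₀`: on `trunc q` we have
`-1 ≤ x+y+z ≤ 1+2q` and both are attained.
Let `u` be a unit vector with `widthIn u ≤ w₀`.  Replacing `u` by `-u` we may assume that the sum of
the coordinates is `≥ 0`.  Let `x ≥ y ≥ z` be the coordinates of `u` in decreasing order,
`S = x+y+z ≥ 0`.  The width is at least each difference of values of `⟨u,·⟩` at two of the six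
points.  `⟨u, A_i⟩ = q S + (1-q) u_i`, `⟨u, B_i⟩ = -S + 2 u_i`.  So
`D₁ = ⟨u, A_i⟩ - ⟨u, B_j⟩ = 2x + (1+q) y - (1-q) z ≤ w₀` (`u_i = x`, `u_j = z`) and
`D₂ = ⟨u, B_i⟩ - ⟨u, B_j⟩ = 2 (x - z) ≤ w₀ < 2`.
Case `y + z < 0`.  Then `z < 0` and `(x-z)² ≥ x²+y²+z² = 1`, that is `2x(-z) ≥ y²`: if `y ≥ 0` then
`x ≥ y` and `-z ≥ y`; if `y < 0` then `x ≥ -y-z ≥ -y` and `-z ≥ -y`.  So `D₂ ≥ 2`, a contradiction.
Case `y + z ≥ 0`.  Put `α = (y+z)/2 ≥ 0`, `β = (y-z)/2 ≥ 0`, `γ = x - y ≥ 0`, so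
`u = α(1,1,1) + β(1,1,-1) + γ(1,0,0)` (coordinates sorted), `1 = ‖u‖ ≤ √3 α + √3 β + γ` (this is
`(α+β+γ)² + (α+β)² + (α-β)² ≤ (√3 α + √3 β + γ)²`, clear after expansion), and
`D₁ = 2(1+q) α + 4 β + 2 γ`.  Hence `w₀ ≤ w₀ √3 α + w₀ √3 β + w₀ γ = 2(1+q) α + 2(1+q) β + w₀ γ`
and `D₁ - w₀ ≥ (4 - 2(1+q)) β + (2 - w₀) γ`, where both brackets are positive (`1+q < √3`).  Since
`D₁ ≤ w₀` we get `β = γ = 0`, so `x = y = z`, and `3 x² = 1`, `x > 0`: `u = g`.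
In particular all widths are `≥ w₀`, so `width = w₀`, and the minimal directions are `±g`.
(In Lean: one lemma for sorted `x ≥ y ≥ z` with `S ≥ 0`, then twelve cases for the order of
`u 0, u 1, u 2` and the sign of the sum.)

TruB (from TruA).  Slicing `S`: the plane `x = 0` (through the interior point `0`), two pieces,
contained in `tet ∩ {x ≤ 0}` and `tet ∩ {x ≥ 0}`.  For a ball (centre `c`, radius `r`) in the first
one: `-c₀ - c₁ - c₂ + √3 r ≤ 1` and `-c₀ + c₁ + c₂ + √3 r ≤ 1` (the ball contains `c + (r/√3) σ` for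
`σ = (-1,-1,-1)` and `(-1,1,1)`), so `-c₀ + √3 r ≤ 1`, and `c₀ + r ≤ 0`: `(1+√3) r ≤ 1`.  The second
one is similar (`σ = (1,-1,1), (1,1,-1)`).
`S₀`: `u = ε g`, `ε = ±1`, `equalSlices (trunc q) u 2 = [below u t K, above u t K]` with
`t = lo K u + w₀/2`; as `lo K g = -1/√3`, `hi K g = (1+2q)/√3`, `lo K (-g) = -hi K g`, the plane is
`x+y+z = q` in both cases.  The piece `x+y+z ≤ q` contains the ball with centre `c₀(1,1,1)`,
`c₀ = (q-1)/6`, and radius `R = (1+q)/(2√3)`: for `x` in the ball and `σ` with entries `±1`,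
`⟨σ,x⟩ ≤ c₀ (σ₀+σ₁+σ₂) + √3 R`; for `σ = (-1,-1,-1)` this is `(1-q)/2 + (1+q)/2 = 1`; for the three
other facet normals (`σ₀+σ₁+σ₂ = 1`) it is `(q-1)/6 + (1+q)/2 = (4q+2)/6 ≤ 1`; and
`x+y+z ≤ 3c₀ + √3 R = (q-1)/2 + (1+q)/2 = q`.  So `rMax ≥ R`. -/

namespace FriedPotato

/-- The regular tetrahedron truncated at one vertex. -/
def trunc (q : ℝ) : Set E3 := {x | x ∈ tet ∧ x 0 + x 1 + x 2 ≤ 1 + 2 * q}

/-- TruA. -/
def S_truA : Prop :=
  ∀ q : ℝ, 0 < q → q < √3 - 1 → IsBody (trunc q) ∧ width (trunc q) = 2 * (1 + q) / √3 ∧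
    ∀ u : E3, IsMinDir (trunc q) u → ∃ ε : ℝ, (ε = 1 ∨ ε = -1) ∧ ∀ i : Fin 3, u i = ε / √3

/-- TruB. -/
def S_truB : Prop :=
  ∀ q : ℝ, 0 < q → q < √3 - 1 →
    ∃ L : List (Set E3), Slicing (trunc q) L ∧ L.length = 2 ∧ rMax L ≤ 1 / (1 + √3) ∧
      ∀ u : E3, IsMinDir (trunc q) u → (1 + q) / (2 * √3) ≤ rMax (equalSlices (trunc q) u 2)

end FriedPotato
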