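import Pool.Agent.CFP.St

/-!
# Stg: Steinhagen's inequality in three-space from the contact normals (helper92)
-/

namespace FriedPotato

open Metric

private theorem Stg_width (K : Set E3) (hK : IsBody K) (hw : ∀ u : E3, ‖u‖ = 1 →
    width K ≤ widthIn K u) (hw0 : 0 < width K) (v : E3) (a b : ℝ) (hab : 0 ≤ a + b)
    (h1 : ∀ x ∈ K, inner ℝ v x ≤ a) (h2 : ∀ x ∈ K, -b ≤ inner ℝ v x) :
    ‖v‖ * width K ≤ a + b := by
  by_cases hv : v = 0
  · rw [hv, norm_zero, zero_mul]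
    exact hab
  · have hn : 0 < ‖v‖ := norm_pos_iff.2 hv
    have hne : K.Nonempty := hK.inner.mono interior_subset
    have hu : ‖(‖v‖)⁻¹ • v‖ = 1 := by
      rw [norm_smul, norm_inv, norm_norm, inv_mul_cancel₀ hn.ne']
    have h3 := hw _ hu
    have h4 : hi K ((‖v‖)⁻¹ • v) ≤ (‖v‖)⁻¹ * a := by
      apply csSup_le (hne.image _)
      rintro y ⟨x, hx, rfl⟩
      show inner ℝ ((‖v‖)⁻¹ • v) x ≤ _
      rw [real_inner_smul_left]
      exact mul_le_mul_of_nonneg_left (h1 x hx) (inv_nonneg.2 hn.le)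
    have h5 : (‖v‖)⁻¹ * (-b) ≤ lo K ((‖v‖)⁻¹ • v) := by
      apply le_csInf (hne.image _)
      rintro y ⟨x, hx, rfl⟩
      show _ ≤ inner ℝ ((‖v‖)⁻¹ • v) x
      rw [real_inner_smul_left]
      exact mul_le_mul_of_nonneg_left (h2 x hx) (inv_nonneg.2 hn.le)
    have h6 : width K ≤ (‖v‖)⁻¹ * (a + b) := by
      unfold widthIn at h3
      linarith
    calc ‖v‖ * width K ≤ ‖v‖ * ((‖v‖)⁻¹ * (a + b)) := mul_le_mul_of_nonneg_left h6 hn.le
      _ = a + b := by rw [← mul_assoc, mul_inv_cancel₀ hn.ne', one_mul]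

/-- [Stg] Steinhagen's inequality. -/
theorem Stg (hbas : S_bas) : S_stg := by
  intro K hK
  rintro ⟨c, u, l, hu, hl, hl1, hlu, hhi⟩
  obtain ⟨-, hw, hR, -, -, hw0⟩ := hbas K hK
  have hle : ∀ i, ∀ x ∈ K, inner ℝ (u i) x ≤ inner ℝ (u i) c + inradius K := by
    intro i x hx
    rw [← hhi i]
    apply le_csSup
    · exact (hK.compact.image (by fun_prop)).bddAbove
    · exact ⟨x, hx, rfl⟩
  have hsum : ∀ x : E3, ∑ i, l i * inner ℝ (u i) x = 0 := by
    intro x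
    have h1 : inner ℝ (∑ i, l i • u i) x = 0 := by rw [hlu, inner_zero_left]
    rw [sum_inner] at h1
    rw [← h1]
    exact Finset.sum_congr rfl (fun i _ => (real_inner_smul_left _ _ _).symm)
  -- the main bound
  have key : ∀ e : Fin 4 → ℝ, (∀ i, 0 ≤ e i ∧ e i ≤ 1) →
      ‖∑ i, (e i * l i) • u i‖ * width K ≤ inradius K := by
    intro e he
    have hv : ∀ x : E3, inner ℝ (∑ i, (e i * l i) • u i) x = ∑ i, e i * l i * inner ℝ (u i) x := by
      intro x
      rw [sum_inner]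
      exact Finset.sum_congr rfl (fun i _ => real_inner_smul_left _ _ _)
    have hab : ∑ i, e i * l i * (inner ℝ (u i) c + inradius K) +
        ∑ i, (1 - e i) * l i * (inner ℝ (u i) c + inradius K) = inradius K := by
      rw [← Finset.sum_add_distrib]
      have h1 : ∀ i, e i * l i * (inner ℝ (u i) c + inradius K) +
          (1 - e i) * l i * (inner ℝ (u i) c + inradius K) =
          l i * inner ℝ (u i) c + l i * inradius K := fun i => by ring
      rw [Finset.sum_congr rfl (fun i _ => h1 i), Finset.sum_add_distrib, hsum c,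
        ← Finset.sum_mul, hl1]
      ring
    have h1 := Stg_width K hK hw hw0 (∑ i, (e i * l i) • u i)
      (∑ i, e i * l i * (inner ℝ (u i) c + inradius K))
      (∑ i, (1 - e i) * l i * (inner ℝ (u i) c + inradius K)) (by rw [hab]; exact hR.le)
      (by
        intro x hx
        rw [hv x]
        exact Finset.sum_le_sum (fun i _ => mul_le_mul_of_nonneg_left (hle i x hx)
          (mul_nonneg (he i).1 (hl i))))
      (by
        intro x hx
        rw [hv x]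
        have h2 : ∑ i, e i * l i * inner ℝ (u i) x +
            ∑ i, (1 - e i) * l i * inner ℝ (u i) x = 0 := by
          rw [← Finset.sum_add_distrib, ← hsum x]
          exact Finset.sum_congr rfl (fun i _ => by ring)
        have h3 : ∑ i, (1 - e i) * l i * inner ℝ (u i) x ≤
            ∑ i, (1 - e i) * l i * (inner ℝ (u i) c + inradius K) :=
          Finset.sum_le_sum (fun i _ => mul_le_mul_of_nonneg_left (hle i x hx)
            (mul_nonneg (sub_nonneg.2 (he i).2) (hl i)))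
        linarith)
    rw [hab] at h1
    exact h1
  have k1 := key ![1, 1, 0, 0] (by intro i; fin_cases i <;> simp)
  have k2 := key ![1, 0, 1, 0] (by intro i; fin_cases i <;> simp)
  have k3 := key ![1, 0, 0, 1] (by intro i; fin_cases i <;> simp)
  simp only [Fin.sum_univ_four, Matrix.cons_val_zero, Matrix.cons_val_one, Matrix.cons_val,
    one_mul, zero_mul, zero_smul, add_zero] at k1 k2 k3
  rw [Fin.sum_univ_four] at hl1 hlu
  have hsq : ∀ (v : E3), ‖v‖ * width K ≤ inradius K → ‖v‖ ^ 2 * (width K) ^ 2 ≤ (inradius K) ^ 2 := by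
    intro v hv
    rw [← mul_pow]
    exact pow_le_pow_left₀ (mul_nonneg (norm_nonneg _) hw0.le) hv 2
  have s1 := hsq _ k1
  have s2 := hsq _ k2
  have s3 := hsq _ k3
  have n1 : ‖l 0 • u 0 + l 1 • u 1‖ ^ 2 = l 0 ^ 2 + 2 * inner ℝ (l 0 • u 0) (l 1 • u 1) + l 1 ^ 2 := by
    rw [norm_add_sq_real, norm_smul, norm_smul, hu 0, hu 1, mul_one, mul_one, Real.norm_eq_abs,
      Real.norm_eq_abs, sq_abs, sq_abs]
  have n2 : ‖l 0 • u 0 + l 2 • u 2‖ ^ 2 = l 0 ^ 2 + 2 * inner ℝ (l 0 • u 0) (l 2 • u 2) + l 2 ^ 2 := by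
    rw [norm_add_sq_real, norm_smul, norm_smul, hu 0, hu 2, mul_one, mul_one, Real.norm_eq_abs,
      Real.norm_eq_abs, sq_abs, sq_abs]
  have n3 : ‖l 0 • u 0 + l 3 • u 3‖ ^ 2 = l 0 ^ 2 + 2 * inner ℝ (l 0 • u 0) (l 3 • u 3) + l 3 ^ 2 := by
    rw [norm_add_sq_real, norm_smul, norm_smul, hu 0, hu 3, mul_one, mul_one, Real.norm_eq_abs,
      Real.norm_eq_abs, sq_abs, sq_abs]
  have hin : inner ℝ (l 0 • u 0) (l 1 • u 1) + inner ℝ (l 0 • u 0) (l 2 • u 2) +
      inner ℝ (l 0 • u 0) (l 3 • u 3) = - l 0 ^ 2 := by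
    have h1 : inner ℝ (l 0 • u 0) (l 0 • u 0 + l 1 • u 1 + l 2 • u 2 + l 3 • u 3) = 0 := by
      rw [hlu, inner_zero_right]
    rw [inner_add_right, inner_add_right, inner_add_right, real_inner_self_eq_norm_sq, norm_smul,
      hu 0, mul_one, Real.norm_eq_abs, sq_abs] at h1
    linarith
  rw [n1] at s1
  rw [n2] at s2
  rw [n3] at s3
  have h4 : 1 / 4 ≤ l 0 ^ 2 + l 1 ^ 2 + l 2 ^ 2 + l 3 ^ 2 := by
    have h5 : l 3 = 1 - l 0 - l 1 - l 2 := by linarith
    rw [h5]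
    nlinarith [sq_nonneg (l 0 - 1 / 4), sq_nonneg (l 1 - 1 / 4), sq_nonneg (l 2 - 1 / 4),
      sq_nonneg (l 0 + l 1 + l 2 - 3 / 4)]
  have h6 : (width K) ^ 2 ≤ 12 * (inradius K) ^ 2 := by
    have h7 : (l 0 ^ 2 + l 1 ^ 2 + l 2 ^ 2 + l 3 ^ 2) * (width K) ^ 2 ≤ 3 * (inradius K) ^ 2 := by
      have h8 : (l 0 ^ 2 + l 1 ^ 2 + l 2 ^ 2 + l 3 ^ 2) * (width K) ^ 2 =
          (l 0 ^ 2 + 2 * inner ℝ (l 0 • u 0) (l 1 • u 1) + l 1 ^ 2) * (width K) ^ 2 +
          (l 0 ^ 2 + 2 * inner ℝ (l 0 • u 0) (l 2 • u 2) + l 2 ^ 2) * (width K) ^ 2 +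
          (l 0 ^ 2 + 2 * inner ℝ (l 0 • u 0) (l 3 • u 3) + l 3 ^ 2) * (width K) ^ 2 := by
        have h9 : inner ℝ (l 0 • u 0) (l 3 • u 3) = - l 0 ^ 2 -
            inner ℝ (l 0 • u 0) (l 1 • u 1) - inner ℝ (l 0 • u 0) (l 2 • u 2) := by linarith
        rw [h9]
        ring
      rw [h8]
      linarith
    have h10 : 1 / 4 * (width K) ^ 2 ≤ (l 0 ^ 2 + l 1 ^ 2 + l 2 ^ 2 + l 3 ^ 2) * (width K) ^ 2 :=
      mul_le_mul_of_nonneg_right h4 (sq_nonneg _)
    linarith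
  apply le_of_sq_le_sq _ (by positivity)
  rw [mul_pow, mul_pow, Real.sq_sqrt (by norm_num)]
  linarith

end FriedPotato
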