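import Pool.Agent.CFP.St

set_option autoImplicit false

/-!
# TetA: the regular tetrahedron and its minimal-width directions
-/

namespace FriedPotato

open Metric

private theorem TetA_in (u x : E3) : inner ℝ u x = u 0 * x 0 + u 1 * x 1 + u 2 * x 2 := by
  simp only [PiLp.inner_apply, Fin.sum_univ_three, RCLike.inner_apply, conj_trivial]
  ring

private theorem TetA_sq (u : E3) : ‖u‖ ^ 2 = u 0 ^ 2 + u 1 ^ 2 + u 2 ^ 2 := by
  rw [EuclideanSpace.norm_sq_eq, Fin.sum_univ_three]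
  simp only [Real.norm_eq_abs, sq_abs]

private theorem TetA_vtx : (!₂[(1 : ℝ), 1, 1] : E3) ∈ tet ∧ (!₂[(1 : ℝ), -1, -1] : E3) ∈ tet ∧
    (!₂[(-1 : ℝ), 1, -1] : E3) ∈ tet ∧ (!₂[(-1 : ℝ), -1, 1] : E3) ∈ tet := by
  refine ⟨?_, ?_, ?_, ?_⟩ <;> · simp [tet]; try norm_num

private theorem TetA_bd {x : E3} (hx : x ∈ tet) (i : Fin 3) : -1 ≤ x i ∧ x i ≤ 1 := by
  obtain ⟨h1, h2, h3, h4⟩ := hx
  fin_cases i
  · constructor
    · show -1 ≤ x 0
      linarith
    · show x 0 ≤ 1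
      linarith
  · constructor
    · show -1 ≤ x 1
      linarith
    · show x 1 ≤ 1
      linarith
  · constructor
    · show -1 ≤ x 2
      linarith
    · show x 2 ≤ 1
      linarith

private theorem TetA_closed : IsClosed tet := by
  have h : tet = {x : E3 | -x 0 - x 1 - x 2 ≤ 1} ∩ ({x : E3 | -x 0 + x 1 + x 2 ≤ 1} ∩
      ({x : E3 | x 0 - x 1 + x 2 ≤ 1} ∩ {x : E3 | x 0 + x 1 - x 2 ≤ 1})) := rfl
  rw [h]
  refine IsClosed.inter ?_ (IsClosed.inter ?_ (IsClosed.inter ?_ ?_)) <;>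
    exact isClosed_le (by fun_prop) continuous_const

private theorem TetA_body : IsBody tet := by
  refine ⟨?_, ?_, ?_⟩
  · intro x hx y hy a b ha hb hab
    obtain ⟨h1, h2, h3, h4⟩ := hx
    obtain ⟨k1, k2, k3, k4⟩ := hy
    have e : ∀ i : Fin 3, (a • x + b • y) i = a * x i + b * y i := fun i => by
      simp [PiLp.add_apply, PiLp.smul_apply]
    have hb' : b = 1 - a := by linarith
    refine ⟨?_, ?_, ?_, ?_⟩ <;> simp only [e]
    · nlinarith [mul_le_mul_of_nonneg_left h1 ha, mul_le_mul_of_nonneg_left k1 hb]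
    · nlinarith [mul_le_mul_of_nonneg_left h2 ha, mul_le_mul_of_nonneg_left k2 hb]
    · nlinarith [mul_le_mul_of_nonneg_left h3 ha, mul_le_mul_of_nonneg_left k3 hb]
    · nlinarith [mul_le_mul_of_nonneg_left h4 ha, mul_le_mul_of_nonneg_left k4 hb]
  · refine Metric.isCompact_of_isClosed_isBounded TetA_closed ?_
    refine (Metric.isBounded_closedBall (x := (0 : E3)) (r := 2)).subset ?_
    intro x hx
    rw [mem_closedBall_zero_iff]
    have h0 := TetA_bd hx 0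
    have h1 := TetA_bd hx 1
    have h2 := TetA_bd hx 2
    have h := TetA_sq x
    have hn := norm_nonneg x
    nlinarith
  · refine ⟨0, mem_interior_iff_mem_nhds.mpr
      (Filter.mem_of_superset (Metric.ball_mem_nhds 0 (by norm_num : (0 : ℝ) < 1 / 3)) ?_)⟩
    intro x hx
    rw [mem_ball_zero_iff] at hx
    have h : ∀ i : Fin 3, |x i| ≤ 1 / 3 := fun i => by
      have := PiLp.norm_apply_le x i
      rw [Real.norm_eq_abs] at this
      linarith
    have h0 := abs_le.mp (h 0)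
    have h1 := abs_le.mp (h 1)
    have h2 := abs_le.mp (h 2)
    exact ⟨by linarith, by linarith, by linarith, by linarith⟩

private theorem TetA_hi (u : E3) {x : E3} (hx : x ∈ tet) : inner ℝ u x ≤ hi tet u := by
  refine le_csSup ?_ ⟨x, hx, rfl⟩
  exact (TetA_body.compact.image (by fun_prop)).bddAbove

private theorem TetA_lo (u : E3) {x : E3} (hx : x ∈ tet) : lo tet u ≤ inner ℝ u x := by
  refine csInf_le ?_ ⟨x, hx, rfl⟩
  exact (TetA_body.compact.image (by fun_prop)).bddBelow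

private theorem TetA_ne : tet.Nonempty := ⟨_, TetA_vtx.1⟩

private theorem TetA_ei (i : Fin 3) {ε : ℝ} (hε : ε = 1 ∨ ε = -1) :
    lo tet (ε • EuclideanSpace.single i (1 : ℝ)) = -1 ∧
      hi tet (ε • EuclideanSpace.single i (1 : ℝ)) = 1 := by
  have hin : ∀ x : E3, inner ℝ (ε • EuclideanSpace.single i (1 : ℝ) : E3) x = ε * x i := by
    intro x
    rw [inner_smul_left, EuclideanSpace.inner_single_left]
    simp
  obtain ⟨y, hy, hyi⟩ : ∃ y ∈ tet, y i = 1 := ⟨_, TetA_vtx.1, by fin_cases i <;> rfl⟩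
  obtain ⟨z, hz, hzi⟩ : ∃ z ∈ tet, z i = -1 := by
    obtain ⟨-, h2, h3, h4⟩ := TetA_vtx
    fin_cases i
    · exact ⟨_, h3, rfl⟩
    · exact ⟨_, h2, rfl⟩
    · exact ⟨_, h2, rfl⟩
  have hy1 := TetA_hi (ε • EuclideanSpace.single i (1 : ℝ)) hy
  have hy2 := TetA_lo (ε • EuclideanSpace.single i (1 : ℝ)) hy
  have hz1 := TetA_hi (ε • EuclideanSpace.single i (1 : ℝ)) hz
  have hz2 := TetA_lo (ε • EuclideanSpace.single i (1 : ℝ)) hz
  rw [hin, hyi] at hy1 hy2
  rw [hin, hzi] at hz1 hz2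
  have hle : hi tet (ε • EuclideanSpace.single i (1 : ℝ)) ≤ 1 := by
    refine csSup_le (TetA_ne.image _) ?_
    rintro _ ⟨x, hx, rfl⟩
    show inner ℝ (ε • EuclideanSpace.single i (1 : ℝ) : E3) x ≤ 1
    rw [hin]
    have := TetA_bd hx i
    rcases hε with rfl | rfl <;> linarith
  have hge : -1 ≤ lo tet (ε • EuclideanSpace.single i (1 : ℝ)) := by
    refine le_csInf (TetA_ne.image _) ?_
    rintro _ ⟨x, hx, rfl⟩
    show -1 ≤ inner ℝ (ε • EuclideanSpace.single i (1 : ℝ) : E3) x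
    rw [hin]
    have := TetA_bd hx i
    rcases hε with rfl | rfl <;> linarith
  constructor
  · rcases hε with rfl | rfl <;> linarith
  · rcases hε with rfl | rfl <;> linarith

private theorem TetA_abs {a b w : ℝ} (h1 : 2 * (a + b) ≤ w) (h2 : -(2 * (a + b)) ≤ w)
    (h3 : 2 * (a - b) ≤ w) (h4 : -(2 * (a - b)) ≤ w) : 2 * (|a| + |b|) ≤ w := by
  rcases abs_cases a with h | h <;> rcases abs_cases b with h' | h' <;> linarith

private theorem TetA_w (u : E3) : 2 * (|u 0| + |u 1|) ≤ widthIn tet u ∧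
    2 * (|u 0| + |u 2|) ≤ widthIn tet u ∧ 2 * (|u 1| + |u 2|) ≤ widthIn tet u := by
  obtain ⟨h1, h2, h3, h4⟩ := TetA_vtx
  have p1 := TetA_hi u h1
  have p2 := TetA_hi u h2
  have p3 := TetA_hi u h3
  have p4 := TetA_hi u h4
  have q1 := TetA_lo u h1
  have q2 := TetA_lo u h2
  have q3 := TetA_lo u h3
  have q4 := TetA_lo u h4
  rw [TetA_in] at p1 p2 p3 p4 q1 q2 q3 q4
  simp at p1 p2 p3 p4 q1 q2 q3 q4
  unfold widthIn
  refine ⟨TetA_abs ?_ ?_ ?_ ?_, TetA_abs ?_ ?_ ?_ ?_, TetA_abs ?_ ?_ ?_ ?_⟩ <;> linarith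

private theorem TetA_zero {A B C : ℝ} (hB : 0 ≤ B) (hC : 0 ≤ C) (hBA : B ≤ A)
    (hCA : C ≤ A) (h : A ^ 2 + B ^ 2 + C ^ 2 = 1) (h1 : A + B ≤ 1) (h2 : A + C ≤ 1) :
    B = 0 ∧ C = 0 := by
  have h3 : 2 * (A * B) ≤ C ^ 2 := by nlinarith
  have h4 : 2 * (A * C) ≤ B ^ 2 := by nlinarith
  have h5 : 2 * B ^ 2 ≤ C ^ 2 := by nlinarith
  have h6 : 2 * C ^ 2 ≤ B ^ 2 := by nlinarith
  constructor
  · have : B ^ 2 = 0 := by nlinarith [sq_nonneg B, sq_nonneg C]
    exact pow_eq_zero_iff (two_ne_zero) |>.mp this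
  · have : C ^ 2 = 0 := by nlinarith [sq_nonneg B, sq_nonneg C]
    exact pow_eq_zero_iff (two_ne_zero) |>.mp this

private theorem TetA_pm {a : ℝ} (h : a ^ 2 = 1) : a = 1 ∨ a = -1 := by
  have h1 : (a - 1) * (a + 1) = 0 := by nlinarith
  rcases mul_eq_zero.mp h1 with h2 | h2
  · exact Or.inl (by linarith)
  · exact Or.inr (by linarith)

private theorem TetA_dir (u : E3) (hu : ‖u‖ = 1) (hw : widthIn tet u ≤ 2) :
    ∃ (i : Fin 3) (ε : ℝ), (ε = 1 ∨ ε = -1) ∧ u = ε • EuclideanSpace.single i (1 : ℝ) := by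
  obtain ⟨w1, w2, w3⟩ := TetA_w u
  have hs := TetA_sq u
  rw [hu] at hs
  have hs' : |u 0| ^ 2 + |u 1| ^ 2 + |u 2| ^ 2 = 1 := by
    rw [sq_abs, sq_abs, sq_abs]
    linarith
  have a0 := abs_nonneg (u 0)
  have a1 := abs_nonneg (u 1)
  have a2 := abs_nonneg (u 2)
  rcases le_total (|u 1|) (|u 0|) with h01 | h01
  · rcases le_total (|u 2|) (|u 0|) with h02 | h02
    · obtain ⟨hb, hc⟩ := TetA_zero a1 a2 h01 h02 hs' (by linarith) (by linarith)
      have hb' : u 1 = 0 := abs_eq_zero.mp hb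
      have hc' : u 2 = 0 := abs_eq_zero.mp hc
      refine ⟨0, u 0, ?_, ?_⟩
      · rw [hb', hc'] at hs
        exact TetA_pm (by linarith)
      · ext j
        fin_cases j <;> simp [hb', hc']
    · obtain ⟨ha, hb⟩ := TetA_zero (A := |u 2|) a0 a1 h02 (h01.trans h02) (by linarith)
        (by linarith) (by linarith)
      have ha' : u 0 = 0 := abs_eq_zero.mp ha
      have hb' : u 1 = 0 := abs_eq_zero.mp hb
      refine ⟨2, u 2, ?_, ?_⟩
      · rw [ha', hb'] at hs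
        exact TetA_pm (by linarith)
      · ext j
        fin_cases j <;> simp [ha', hb']
  · rcases le_total (|u 2|) (|u 1|) with h12 | h12
    · obtain ⟨ha, hc⟩ := TetA_zero (A := |u 1|) a0 a2 h01 h12 (by linarith)
        (by linarith) (by linarith)
      have ha' : u 0 = 0 := abs_eq_zero.mp ha
      have hc' : u 2 = 0 := abs_eq_zero.mp hc
      refine ⟨1, u 1, ?_, ?_⟩
      · rw [ha', hc'] at hs
        exact TetA_pm (by linarith)
      · ext j
        fin_cases j <;> simp [ha', hc']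
    · obtain ⟨ha, hb⟩ := TetA_zero (A := |u 2|) a0 a1 (h01.trans h12) h12 (by linarith)
        (by linarith) (by linarith)
      have ha' : u 0 = 0 := abs_eq_zero.mp ha
      have hb' : u 1 = 0 := abs_eq_zero.mp hb
      refine ⟨2, u 2, ?_, ?_⟩
      · rw [ha', hb'] at hs
        exact TetA_pm (by linarith)
      · ext j
        fin_cases j <;> simp [ha', hb']

private theorem TetA_wei (i : Fin 3) {ε : ℝ} (hε : ε = 1 ∨ ε = -1) :
    widthIn tet (ε • EuclideanSpace.single i (1 : ℝ)) = 2 := by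
  obtain ⟨h1, h2⟩ := TetA_ei i hε
  unfold widthIn
  rw [h1, h2]
  norm_num

private theorem TetA_ge (u : E3) (hu : ‖u‖ = 1) : 2 ≤ widthIn tet u := by
  by_contra h
  rw [not_le] at h
  obtain ⟨i, ε, hε, rfl⟩ := TetA_dir u hu h.le
  rw [TetA_wei i hε] at h
  exact lt_irrefl _ h

private theorem TetA_width : width tet = 2 := by
  have h0 : ‖(EuclideanSpace.single 0 (1 : ℝ) : E3)‖ = 1 := by simp
  have hw : widthIn tet (EuclideanSpace.single 0 (1 : ℝ)) = 2 := by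
    have := TetA_wei 0 (Or.inl rfl : (1 : ℝ) = 1 ∨ (1 : ℝ) = -1)
    rwa [one_smul] at this
  apply le_antisymm
  · refine csInf_le ⟨2, ?_⟩ ⟨_, h0, hw.symm⟩
    rintro d ⟨u, hu, rfl⟩
    exact TetA_ge u hu
  · refine le_csInf ⟨2, _, h0, hw.symm⟩ ?_
    rintro d ⟨u, hu, rfl⟩
    exact TetA_ge u hu

theorem TetA : S_tetA := by
  refine ⟨TetA_body, TetA_width, ?_⟩
  rintro u ⟨hu, hw⟩
  rw [TetA_width] at hw
  obtain ⟨i, ε, hε, rfl⟩ := TetA_dir u hu hw.le
  exact ⟨⟨i, ε, hε, rfl⟩, TetA_ei i hε⟩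

end FriedPotato
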