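import Pool.Agent.CFP.St

/-!
# TetB: the equal slicing of the regular tetrahedron has a piece of inradius at least `1/n`
(MP_1ff74e_co, helper66)
-/

set_option autoImplicit false

namespace FriedPotato

open Metric

private theorem TetB_piece (u : E3) (X : Set E3) : ∀ (ts : List ℝ) (P : Set E3), X ⊆ P →
    (∀ t ∈ ts, (∀ x ∈ X, inner ℝ u x ≤ t) ∨ (∀ x ∈ X, t ≤ inner ℝ u x)) →
    ∃ Q ∈ cuts u ts P, X ⊆ Q := by
  intro ts
  induction ts with
  | nil =>
    intro P hP _
    exact ⟨P, by simp [cuts], hP⟩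
  | cons t ts ih =>
    intro P hP h
    rcases h t (by simp) with h1 | h1
    · exact ⟨below u t P, by simp [cuts], fun x hx => ⟨hP hx, h1 x hx⟩⟩
    · obtain ⟨Q, hQ, hX⟩ := ih (above u t P) (fun x hx => ⟨hP hx, h1 x hx⟩)
        (fun t' ht' => h t' (by simp [ht']))
      exact ⟨Q, by simp [cuts, hQ], hX⟩

private theorem TetB_sub (u : E3) : ∀ (ts : List ℝ) (P Q : Set E3), Q ∈ cuts u ts P → Q ⊆ P := by
  intro ts
  induction ts with
  | nil =>
    intro P Q hQ
    simp only [cuts, List.mem_singleton] at hQ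
    rw [hQ]
  | cons t ts ih =>
    intro P Q hQ
    simp only [cuts, List.mem_cons] at hQ
    rcases hQ with rfl | hQ
    · exact fun x hx => hx.1
    · exact (ih _ _ hQ).trans fun x hx => hx.1

private theorem TetB_inr (P K : Set E3) (hK : IsCompact K) (hP : P ⊆ K) (c : E3) (r : ℝ)
    (hr : 0 ≤ r) (h : closedBall c r ⊆ P) : r ≤ inradius P := by
  obtain ⟨D, hD⟩ := hK.isBounded.subset_closedBall (0 : E3)
  refine le_csSup ⟨D, ?_⟩ ⟨hr, c, h⟩
  rintro s ⟨hs, c', h'⟩
  have he : ‖(EuclideanSpace.single (0 : Fin 3) (1 : ℝ) : E3)‖ = 1 := by simp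
  obtain ⟨e, he'⟩ : ∃ e : E3, ‖e‖ = 1 := ⟨_, he⟩
  have h1 : c' + s • e ∈ closedBall (0 : E3) D := by
    apply hD
    apply hP
    apply h'
    rw [mem_closedBall, dist_eq_norm, add_sub_cancel_left, norm_smul, he', mul_one,
      Real.norm_of_nonneg hs]
  have h2 : c' - s • e ∈ closedBall (0 : E3) D := by
    apply hD
    apply hP
    apply h'
    rw [mem_closedBall, dist_eq_norm, sub_sub_cancel_left, norm_neg, norm_smul, he', mul_one,
      Real.norm_of_nonneg hs]
  rw [mem_closedBall, dist_zero_right] at h1 h2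
  have h3 : ‖(c' + s • e) - (c' - s • e)‖ ≤ D + D := (norm_sub_le _ _).trans (add_le_add h1 h2)
  have h4 : (c' + s • e) - (c' - s • e) = (2 * s) • e := by
    rw [two_mul, add_smul]
    abel
  rw [h4, norm_smul, he', mul_one, Real.norm_of_nonneg (by linarith)] at h3
  linarith

private theorem TetB_max (L : List (Set E3)) (P : Set E3) (hP : P ∈ L) :
    inradius P ≤ rMax L := by
  induction L with
  | nil => simp at hP
  | cons Q L ih =>
    have h1 : rMax (Q :: L) = max (inradius Q) (rMax L) := rfl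
    rw [h1]
    rcases List.mem_cons.1 hP with rfl | h2
    · exact le_max_left _ _
    · exact (ih h2).trans (le_max_right _ _)

private theorem TetB_cs (y : E3) (r a b c : ℝ) (hy : ‖y‖ ≤ r) (hr : 0 ≤ r)
    (ha : a ^ 2 = 1) (hb : b ^ 2 = 1) (hc : c ^ 2 = 1) :
    a * y 0 + b * y 1 + c * y 2 ≤ 2 * r := by
  by_contra h
  push Not at h
  have h1 : ‖y‖ ^ 2 = y 0 ^ 2 + y 1 ^ 2 + y 2 ^ 2 := by
    rw [EuclideanSpace.norm_sq_eq, Fin.sum_univ_three]
    simp [Real.norm_eq_abs, sq_abs]
  have h2 : ‖y‖ ^ 2 ≤ r ^ 2 := pow_le_pow_left₀ (norm_nonneg _) hy 2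
  have h3 : (2 * r) ^ 2 < (a * y 0 + b * y 1 + c * y 2) ^ 2 :=
    pow_lt_pow_left₀ h (by positivity) two_ne_zero
  have h4 : (a * y 0 + b * y 1 + c * y 2) ^ 2 ≤ 3 * (y 0 ^ 2 + y 1 ^ 2 + y 2 ^ 2) := by
    have e1 : 3 * (y 0 ^ 2 + y 1 ^ 2 + y 2 ^ 2) - (a * y 0 + b * y 1 + c * y 2) ^ 2 =
        (a * y 0 - b * y 1) ^ 2 + (b * y 1 - c * y 2) ^ 2 + (a * y 0 - c * y 2) ^ 2 := by
      linear_combination (-3 * y 0 ^ 2) * ha + (-3 * y 1 ^ 2) * hb + (-3 * y 2 ^ 2) * hc
    nlinarith [sq_nonneg (a * y 0 - b * y 1), sq_nonneg (b * y 1 - c * y 2),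
      sq_nonneg (a * y 0 - c * y 2)]
  nlinarith

private theorem TetB_abs (a : ℝ) (ha : a ^ 2 = 1) : |a| = 1 := by
  have h : (a - 1) * (a + 1) = 0 := by linear_combination ha
  rcases mul_eq_zero.1 h with h | h
  · have : a = 1 := by linarith
    rw [this, abs_one]
  · have : a = -1 := by linarith
    rw [this, abs_neg, abs_one]

theorem TetB (hA : S_tetA) : S_tetB := by
  obtain ⟨hbody, hw, hdir⟩ := hA
  intro n hn u hu
  obtain ⟨⟨i, ε, hε, hui⟩, hlo, _⟩ := hdir u hu
  have hnorm : ‖u‖ = 1 := hu.1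
  have hn3 : (3 : ℝ) ≤ n := by exact_mod_cast hn
  have hn0 : (0 : ℝ) < n := by linarith
  obtain ⟨k, hk⟩ : ∃ k : ℕ, k = n / 2 := ⟨_, rfl⟩
  obtain ⟨s, hs⟩ : ∃ s : ℝ, s = -1 + (2 * (k : ℝ) + 1) / n := ⟨_, rfl⟩
  have hs1 : 0 ≤ s ∧ s ≤ 1 / n := by
    rcases Nat.even_or_odd' n with ⟨m, hm | hm⟩
    · have h1 : k = m := by omega
      have h2 : (n : ℝ) = 2 * k := by rw [h1]; exact_mod_cast hm
      have h3 : s = 1 / n := by
        rw [hs, ← h2]
        field_simp
        ring
      rw [h3]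
      exact ⟨by positivity, le_rfl⟩
    · have h1 : k = m := by omega
      have h2 : (n : ℝ) = 2 * k + 1 := by rw [h1]; exact_mod_cast hm
      have h3 : s = 0 := by
        rw [hs, ← h2]
        field_simp
        ring
      rw [h3]
      exact ⟨le_rfl, by positivity⟩
  have hr0 : (0 : ℝ) ≤ 1 / n := by positivity
  have h3n : 3 * (1 / (n : ℝ)) ≤ 1 := by
    rw [mul_one_div, div_le_one hn0]
    exact hn3
  -- the ball lies in the tetrahedron
  have hball : closedBall (s • u) (1 / (n : ℝ)) ⊆ tet := by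
    intro x hx
    rw [mem_closedBall, dist_eq_norm] at hx
    obtain ⟨y, hy⟩ : ∃ y : E3, y = x - s • u := ⟨_, rfl⟩
    rw [← hy] at hx
    have hxj : ∀ j, x j = s * u j + y j := by
      intro j
      rw [hy]
      simp
    have key : ∀ a b c : ℝ, a ^ 2 = 1 → b ^ 2 = 1 → c ^ 2 = 1 →
        a * x 0 + b * x 1 + c * x 2 ≤ 1 := by
      intro a b c ha hb hc
      have h1 := TetB_cs y (1 / n) a b c hx hr0 ha hb hc
      have h2 : |a * u 0 + b * u 1 + c * u 2| = 1 := by
        have hε1 : |ε| = 1 := by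
          rcases hε with rfl | rfl <;> simp
        have ha1 : |a| = 1 := TetB_abs a ha
        have hb1 : |b| = 1 := TetB_abs b hb
        have hc1 : |c| = 1 := TetB_abs c hc
        rw [hui]
        fin_cases i
        · simp [abs_mul, ha1, hε1]
        · simp [abs_mul, hb1, hε1]
        · simp [abs_mul, hc1, hε1]
      have h3 : s * (a * u 0 + b * u 1 + c * u 2) ≤ 1 / n := by
        calc s * (a * u 0 + b * u 1 + c * u 2) ≤ |s * (a * u 0 + b * u 1 + c * u 2)| :=
              le_abs_self _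
          _ = s := by rw [abs_mul, h2, mul_one, abs_of_nonneg hs1.1]
          _ ≤ 1 / n := hs1.2
      rw [hxj 0, hxj 1, hxj 2]
      linarith
    refine ⟨?_, ?_, ?_, ?_⟩
    · have := key (-1) (-1) (-1) (by norm_num) (by norm_num) (by norm_num)
      linarith
    · have := key (-1) 1 1 (by norm_num) (by norm_num) (by norm_num)
      linarith
    · have := key 1 (-1) 1 (by norm_num) (by norm_num) (by norm_num)
      linarith
    · have := key 1 1 (-1) (by norm_num) (by norm_num) (by norm_num)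
      linarith
  have hin : ∀ x ∈ closedBall (s • u) (1 / (n : ℝ)),
      s - 1 / n ≤ inner ℝ u x ∧ inner ℝ u x ≤ s + 1 / n := by
    intro x hx
    rw [mem_closedBall, dist_eq_norm] at hx
    have h1 : |inner ℝ u (x - s • u)| ≤ 1 / n := by
      refine (abs_real_inner_le_norm _ _).trans ?_
      rw [hnorm, one_mul]
      exact hx
    have h2 : inner ℝ u (x - s • u) = inner ℝ u x - s := by
      rw [inner_sub_right, real_inner_smul_right, real_inner_self_eq_norm_sq, hnorm]
      ring
    rw [h2, abs_le] at h1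
    constructor <;> linarith [h1.1, h1.2]
  obtain ⟨Q, hQ, hXQ⟩ := TetB_piece u (closedBall (s • u) (1 / (n : ℝ))) (levels tet u n) tet
    hball (by
      intro t ht
      simp only [levels, List.mem_map] at ht
      obtain ⟨j, _, rfl⟩ := ht
      rw [hlo, hw]
      rcases Nat.lt_or_ge j k with hjk | hjk
      · right
        intro x hx
        refine le_trans ?_ (hin x hx).1
        have h1 : (j : ℝ) + 1 ≤ k := by exact_mod_cast hjk
        have h2 : ((j : ℝ) + 1) * (2 / n) ≤ k * (2 / n) :=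
          mul_le_mul_of_nonneg_right h1 (by positivity)
        have h3 : s - 1 / n = -1 + k * (2 / n) := by
          rw [hs]
          field_simp
          ring
        linarith
      · left
        intro x hx
        refine (hin x hx).2.trans ?_
        have h1 : (k : ℝ) + 1 ≤ (j : ℝ) + 1 := by
          have : (k : ℝ) ≤ j := by exact_mod_cast hjk
          linarith
        have h2 : ((k : ℝ) + 1) * (2 / n) ≤ ((j : ℝ) + 1) * (2 / n) :=
          mul_le_mul_of_nonneg_right h1 (by positivity)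
        have h3 : s + 1 / n = -1 + ((k : ℝ) + 1) * (2 / n) := by
          rw [hs]
          field_simp
          ring
        linarith)
  exact (TetB_inr Q tet hbody.compact (TetB_sub u _ _ _ hQ) _ _ hr0 hXQ).trans (TetB_max _ _ hQ)

end FriedPotato
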