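import Pool.Agent.CFP.St

/-!
# TetC : the better slicing of the tetrahedron
-/

set_option autoImplicit false

namespace FriedPotato

open Metric

private theorem TetC_rMax {L : List (Set E3)} {ρ : ℝ} (h0 : 0 ≤ ρ)
    (h : ∀ P ∈ L, inradius P ≤ ρ) : rMax L ≤ ρ := by
  unfold rMax
  induction L with
  | nil => simpa using h0
  | cons P L ih =>
    rw [List.map_cons, List.foldr_cons]
    exact max_le (h P (by simp)) (ih fun Q hQ => h Q (by simp [hQ]))

private theorem TetC_inner (x : E3) :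
    inner ℝ (EuclideanSpace.single (0 : Fin 3) (1 : ℝ)) x = x 0 := by
  simp [EuclideanSpace.inner_single_left]

private theorem TetC_range (m : ℕ) (s ρ : ℝ) :
    ((List.range (m + 1)).map fun j : ℕ => s + 2 * ρ * (j : ℝ)) =
      s :: ((List.range m).map fun j : ℕ => (s + 2 * ρ) + 2 * ρ * (j : ℝ)) := by
  rw [List.range_succ_eq_map, List.map_cons, List.map_map]
  congr 1
  · simp
  · refine List.map_congr_left fun j _ => ?_
    simp only [Function.comp, Nat.succ_eq_add_one, Nat.cast_add, Nat.cast_one]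
    ring

private theorem TetC_pieces (u : E3) (ρ : ℝ) : ∀ (m : ℕ) (s : ℝ) (P : Set E3),
    (∀ x ∈ P, s - 2 * ρ ≤ inner ℝ u x) →
    ∀ X ∈ cuts u ((List.range m).map fun j : ℕ => s + 2 * ρ * (j : ℝ)) P, X ⊆ P ∧
      ((∃ a : ℝ, ∀ x ∈ X, a ≤ inner ℝ u x ∧ inner ℝ u x ≤ a + 2 * ρ) ∨
        ∀ x ∈ X, s + 2 * ρ * ((m : ℝ) - 1) ≤ inner ℝ u x) := by
  intro m
  induction m with
  | zero =>
    intro s P hP X hX
    simp only [List.range_zero, List.map_nil, cuts, List.mem_singleton] at hX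
    subst hX
    refine ⟨subset_rfl, Or.inr fun x hx => ?_⟩
    have := hP x hx
    push_cast
    linarith
  | succ m ih =>
    intro s P hP X hX
    rw [TetC_range, cuts, List.mem_cons] at hX
    rcases hX with hX | hX
    · subst hX
      refine ⟨fun x hx => hx.1, Or.inl ⟨s - 2 * ρ, fun x hx => ⟨hP x hx.1, ?_⟩⟩⟩
      have := hx.2
      linarith
    · obtain ⟨h1, h2⟩ := ih (s + 2 * ρ) (above u s P) (fun x hx => by
        have := hx.2
        linarith) X hX
      refine ⟨h1.trans fun x hx => hx.1, ?_⟩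
      rcases h2 with h2 | h2
      · exact Or.inl h2
      · refine Or.inr fun x hx => ?_
        have := h2 x hx
        push_cast
        linarith

/-- the two points of a ball on the line through the centre in direction `e₀`. -/
private theorem TetC_axis {X : Set E3} {c : E3} {r : ℝ} (hr : 0 ≤ r)
    (h : closedBall c r ⊆ X) :
    (∃ p ∈ X, p 0 = c 0 + r) ∧ (∃ p ∈ X, p 0 = c 0 - r) := by
  constructor
  · refine ⟨c + r • EuclideanSpace.single (0 : Fin 3) (1 : ℝ), h ?_, by simp⟩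
    rw [mem_closedBall, dist_eq_norm, add_sub_cancel_left, norm_smul, Real.norm_of_nonneg hr]
    simp
  · refine ⟨c - r • EuclideanSpace.single (0 : Fin 3) (1 : ℝ), h ?_, by simp⟩
    rw [mem_closedBall, dist_eq_norm, sub_sub_cancel_left, norm_neg, norm_smul,
      Real.norm_of_nonneg hr]
    simp

private theorem TetC_facet {X : Set E3} {c : E3} {r : ℝ} (hr : 0 ≤ r)
    (h : closedBall c r ⊆ X) (a b d : ℝ) (ha : a ^ 2 = 1) (hb : b ^ 2 = 1) (hd : d ^ 2 = 1) :
    ∃ p ∈ X, a * p 0 + b * p 1 + d * p 2 = a * c 0 + b * c 1 + d * c 2 + √3 * r := by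
  have h3 : (0 : ℝ) < √3 := Real.sqrt_pos.2 (by norm_num)
  have h33 : √3 * √3 = 3 := Real.mul_self_sqrt (by norm_num)
  set w : E3 := !₂[a, b, d] with hw
  have hwn : ‖w‖ = √3 := by
    rw [EuclideanSpace.norm_eq]
    congr 1
    simp only [hw, Fin.sum_univ_three, Real.norm_eq_abs, sq_abs]
    simp [ha, hb, hd]
    norm_num
  refine ⟨c + (r / √3) • w, h ?_, ?_⟩
  · rw [mem_closedBall, dist_eq_norm, add_sub_cancel_left, norm_smul, hwn,
      Real.norm_of_nonneg (div_nonneg hr h3.le), div_mul_cancel₀ _ h3.ne']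
  · have h0 : w 0 = a := rfl
    have h1 : w 1 = b := rfl
    have h2 : w 2 = d := rfl
    have e0 : (c + (r / √3) • w) 0 = c 0 + r / √3 * a := by simp [h0]
    have e1 : (c + (r / √3) • w) 1 = c 1 + r / √3 * b := by simp [h1]
    have e2 : (c + (r / √3) • w) 2 = c 2 + r / √3 * d := by simp [h2]
    rw [e0, e1, e2]
    have hk : r / √3 * 3 = √3 * r := by
      rw [div_mul_eq_mul_div, div_eq_iff h3.ne']
      linear_combination (-r) * h33
    have : a * (c 0 + r / √3 * a) + b * (c 1 + r / √3 * b) + d * (c 2 + r / √3 * d) =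
        a * c 0 + b * c 1 + d * c 2 + r / √3 * (a ^ 2 + b ^ 2 + d ^ 2) := by ring
    rw [this, ha, hb, hd]
    norm_num
    linarith

private theorem TetC_int {t : ℝ} (h : |t| < 1) :
    t • EuclideanSpace.single (0 : Fin 3) (1 : ℝ) ∈ interior tet := by
  have hc : ∀ i : Fin 3, Continuous fun x : E3 => x i := fun i => by fun_prop
  have ho : IsOpen {x : E3 | -x 0 - x 1 - x 2 < 1 ∧ -x 0 + x 1 + x 2 < 1 ∧
      x 0 - x 1 + x 2 < 1 ∧ x 0 + x 1 - x 2 < 1} := by
    refine (isOpen_lt ?_ continuous_const).and ((isOpen_lt ?_ continuous_const).and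
      ((isOpen_lt ?_ continuous_const).and (isOpen_lt ?_ continuous_const)))
    · exact ((hc 0).neg.sub (hc 1)).sub (hc 2)
    · exact ((hc 0).neg.add (hc 1)).add (hc 2)
    · exact ((hc 0).sub (hc 1)).add (hc 2)
    · exact ((hc 0).add (hc 1)).sub (hc 2)
  refine interior_maximal ?_ ho ?_
  · rintro x ⟨h1, h2, h3, h4⟩
    exact ⟨h1.le, h2.le, h3.le, h4.le⟩
  · obtain ⟨h1, h2⟩ := abs_lt.1 h
    refine ⟨?_, ?_, ?_, ?_⟩ <;> simp <;> linarith

theorem TetC (hcut : S_cut) : S_tetC := by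
  intro n hn
  obtain ⟨m, rfl⟩ : ∃ m, n = m + 2 := ⟨n - 2, by omega⟩
  have h3 : (0 : ℝ) < √3 := Real.sqrt_pos.2 (by norm_num)
  have hm : (0 : ℝ) ≤ (m : ℝ) := Nat.cast_nonneg m
  have hden : (0 : ℝ) < ((m + 2 : ℕ) : ℝ) - 1 + √3 := by
    push_cast
    linarith
  set ρ : ℝ := 1 / (((m + 2 : ℕ) : ℝ) - 1 + √3) with hρ
  have hρ0 : 0 < ρ := by positivity
  have hρ1 : ((m : ℝ) + 1 + √3) * ρ = 1 := by
    rw [hρ]
    push_cast
    have : (m : ℝ) + 2 - 1 + √3 ≠ 0 := by
      push_cast at hden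
      exact hden.ne'
    field_simp
    ring
  set u : E3 := EuclideanSpace.single (0 : Fin 3) (1 : ℝ) with hu
  have hu0 : u ≠ 0 := by
    intro h
    have := congrArg (fun x : E3 => x 0) h
    simp [hu] at this
  set s : ℝ := -(m : ℝ) * ρ with hs
  set ts : List ℝ := (List.range (m + 1)).map fun j : ℕ => s + 2 * ρ * (j : ℝ) with hts
  have hpw : ts.Pairwise (· < ·) := by
    rw [hts, List.pairwise_map]
    refine List.pairwise_lt_range.imp fun {a b} hab => ?_
    have : (a : ℝ) < (b : ℝ) := by exact_mod_cast hab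
    have := mul_lt_mul_of_pos_left this (by positivity : (0 : ℝ) < 2 * ρ)
    linarith
  have hlev : ∀ t ∈ ts, ∃ x ∈ interior tet, inner ℝ u x = t := by
    intro t ht
    rw [hts, List.mem_map] at ht
    obtain ⟨j, hj, rfl⟩ := ht
    have hj' : (j : ℝ) ≤ m := by
      have := List.mem_range.1 hj
      exact_mod_cast Nat.lt_succ_iff.1 this
    have hj0 : (0 : ℝ) ≤ (j : ℝ) := Nat.cast_nonneg j
    refine ⟨(s + 2 * ρ * (j : ℝ)) • u, TetC_int ?_, ?_⟩
    · rw [abs_lt, hs]
      have h5 : 0 ≤ ρ * (j : ℝ) := mul_nonneg hρ0.le hj0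
      have h6 : ρ * (j : ℝ) ≤ ρ * m := mul_le_mul_of_nonneg_left hj' hρ0.le
      have h7 : 0 < √3 * ρ := mul_pos h3 hρ0
      constructor <;> nlinarith
    · rw [TetC_inner]
      simp [hu]
  obtain ⟨hsl, hlen⟩ := hcut tet u ts hu0 hpw hlev
  refine ⟨cuts u ts tet, hsl, ?_, ?_⟩
  · rw [hlen, hts, List.length_map, List.length_range]
  · have hts' : ts = s :: ((List.range m).map fun j : ℕ => (s + 2 * ρ) + 2 * ρ * (j : ℝ)) :=
      TetC_range m s ρ
    refine TetC_rMax hρ0.le fun X hX => Real.sSup_le ?_ hρ0.le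
    rintro r ⟨hr, c, hc⟩
    have key : (1 + √3) * r ≤ 1 - (m : ℝ) * ρ → r ≤ ρ := by
      intro hk
      have h1 : (1 + √3) * r ≤ (1 + √3) * ρ := by
        have : (1 : ℝ) - (m : ℝ) * ρ = (1 + √3) * ρ := by linarith
        linarith
      exact le_of_mul_le_mul_left h1 (by positivity)
    rw [hts', cuts, List.mem_cons] at hX
    rcases hX with hX | hX
    · subst hX
      obtain ⟨p, hp, hp1⟩ := TetC_facet hr hc (-1) (-1) (-1) (by norm_num) (by norm_num)
        (by norm_num)
      obtain ⟨q, hq, hq1⟩ := TetC_facet hr hc (-1) 1 1 (by norm_num) (by norm_num)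
        (by norm_num)
      obtain ⟨⟨a, ha, ha1⟩, -⟩ := TetC_axis hr hc
      have e1 := hp.1.1
      have e2 := hq.1.2.1
      have e3 := ha.2
      rw [TetC_inner, ha1, hs] at e3
      apply key
      linarith
    · obtain ⟨h1, h2⟩ := TetC_pieces u ρ m (s + 2 * ρ) (above u s tet) (fun x hx => by
        have := hx.2
        linarith) X hX
      obtain ⟨⟨a, ha, ha1⟩, ⟨b, hb, hb1⟩⟩ := TetC_axis hr hc
      rcases h2 with ⟨t, ht⟩ | h2
      · have e1 := (ht a ha).2
        have e2 := (ht b hb).1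
        rw [TetC_inner] at e1 e2
        linarith
      · obtain ⟨p, hp, hp1⟩ := TetC_facet hr hc 1 (-1) 1 (by norm_num) (by norm_num)
          (by norm_num)
        obtain ⟨q, hq, hq1⟩ := TetC_facet hr hc 1 1 (-1) (by norm_num) (by norm_num)
          (by norm_num)
        have e1 := (h1 hp).1.2.2.1
        have e2 := (h1 hq).1.2.2.2
        have e3 := h2 b hb
        rw [TetC_inner, hb1, hs] at e3
        apply key
        linarith

end FriedPotato
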