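import Pool.Agent.CFP.Bas
import Pool.Agent.CFP.Adm
import Pool.Agent.CFP.BngA
import Pool.Agent.CFP.BngB
import Pool.Agent.CFP.Car
import Pool.Agent.CFP.ConA
import Pool.Agent.CFP.Cov
import Pool.Agent.CFP.Low
import Pool.Agent.CFP.Stg
import Pool.Agent.CFP.TetA
import Pool.Agent.CFP.TetB
import Pool.Agent.CFP.TetC
import Pool.Agent.CFP.St2

/-!
# Assembly
-/

namespace FriedPotato

/-- Steinhagen's inequality. -/
theorem Main_stg (K : Set E3) (hK : IsBody K) : width K ≤ 2 * √3 * inradius K :=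
  Stg Bas K hK (Con Ball Bas Car Cpt K hK)

/-- The lower bound for all slicings. -/
theorem Main_low (K : Set E3) (hK : IsBody K) (L : List (Set E3)) (hL : Slicing K L) :
    width K ≤ (2 * ((L.length : ℝ) - 1) + width K / inradius K) * rMax L :=
  Low Bas Cov BngA BngB K hK L hL

/-- The factor that depends on the body. -/
theorem Main_factor (hupp : S_upp) (K : Set E3) (hK : IsBody K) (n : ℕ) (hn : 2 ≤ n) (u : E3)
    (hu : IsMinDir K u) (L : List (Set E3)) (hL : Slicing K L) (hLn : L.length = n) :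
    rMax (equalSlices K u n) ≤ ((n : ℝ) - 1 + width K / (2 * inradius K)) / n * rMax L := by
  have h1 := hupp K hK n hn u hu
  have h2 := Main_low K hK L hL
  rw [hLn] at h2
  have hn0 : (0 : ℝ) < n := by
    have : 0 < n := by omega
    exact_mod_cast this
  have hr : 0 < inradius K := (Bas K hK).2.2.1
  have h3 : width K / (2 * n) ≤ (2 * ((n : ℝ) - 1) + width K / inradius K) * rMax L / (2 * n) := by
    apply div_le_div_of_nonneg_right h2
    positivity
  refine (h1.trans h3).trans (le_of_eq ?_)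
  field_simp

theorem Main_factor' (hupp : S_upp) (K : Set E3) (hK : IsBody K) (n : ℕ) (hn : 2 ≤ n) (u : E3)
    (hu : IsMinDir K u) (L : List (Set E3)) (hL : Slicing K L) (hLn : L.length = n) :
    rMax (equalSlices K u n) ≤ ((n : ℝ) - 1 + √3) / n * rMax L := by
  have h1 := Main_factor hupp K hK n hn u hu L hL hLn
  have hn0 : (0 : ℝ) < n := by
    have : 0 < n := by omega
    exact_mod_cast this
  have hr : 0 < inradius K := (Bas K hK).2.2.1
  have h2 : width K / (2 * inradius K) ≤ √3 := by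
    rw [div_le_iff₀ (by positivity)]
    have := Main_stg K hK
    linarith
  refine h1.trans (mul_le_mul_of_nonneg_right ?_ (Bas_rMax_nonneg L))
  apply div_le_div_of_nonneg_right _ hn0.le
  linarith

/-- The regular tetrahedron, `n ≥ 3`. -/
theorem Main_tet (hupp : S_upp) (n : ℕ) (hn : 3 ≤ n) :
    ∃ L : List (Set E3), Slicing tet L ∧ L.length = n ∧ rMax L = 1 / ((n : ℝ) - 1 + √3) ∧
      ∀ u : E3, IsMinDir tet u → rMax (equalSlices tet u n) = 1 / n ∧
        rMax (equalSlices tet u n) = ((n : ℝ) - 1 + √3) / n * rMax L := by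
  obtain ⟨L, hL, hLn, hLr⟩ := TetC Cut n (by omega)
  have hbody : IsBody tet := TetA.1
  have hn1 : (1 : ℝ) ≤ n := by exact_mod_cast (by omega : 1 ≤ n)
  have hs : (0 : ℝ) < √3 := by positivity
  have hd : (0 : ℝ) < (n : ℝ) - 1 + √3 := by linarith
  have hn0 : (0 : ℝ) < n := by linarith
  have key : ∀ u : E3, IsMinDir tet u → 1 / (n : ℝ) ≤ rMax (equalSlices tet u n) ∧
      rMax (equalSlices tet u n) ≤ ((n : ℝ) - 1 + √3) / n * rMax L := fun u hu =>
    ⟨TetB TetA n hn u hu, Main_factor' hupp tet hbody n (by omega) u hu L hL hLn⟩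
  have h1 : ((n : ℝ) - 1 + √3) / n * rMax L ≤ 1 / n := by
    calc ((n : ℝ) - 1 + √3) / n * rMax L
        ≤ ((n : ℝ) - 1 + √3) / n * (1 / ((n : ℝ) - 1 + √3)) :=
          mul_le_mul_of_nonneg_left hLr (by positivity)
      _ = 1 / n := by field_simp
  refine ⟨L, hL, hLn, ?_, ?_⟩
  · obtain ⟨u, hu⟩ := (Bas tet hbody).1
    obtain ⟨h2, h3⟩ := key u hu
    apply le_antisymm hLr
    have h4 : 1 / (n : ℝ) ≤ ((n : ℝ) - 1 + √3) / n * rMax L := h2.trans h3
    rw [div_le_iff₀ hd]
    rw [div_mul_eq_mul_div, div_le_div_iff_of_pos_right hn0] at h4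
    linarith
  · intro u hu
    obtain ⟨h2, h3⟩ := key u hu
    exact ⟨le_antisymm (h3.trans h1) h2, le_antisymm h3 (h1.trans h2)⟩

/-- Two pieces: the factor `(1 + √3)/2` cannot be lowered. -/
theorem Main_two (hB : S_truB) (hA : S_truA) (c : ℝ) (hc : c < (1 + √3) / 2) :
    ∃ K : Set E3, IsBody K ∧ ∃ L : List (Set E3), Slicing K L ∧ L.length = 2 ∧
      ∀ u : E3, IsMinDir K u → c * rMax L < rMax (equalSlices K u 2) := by
  have hs : (0 : ℝ) < √3 := by positivity
  have hs1 : (1 : ℝ) < √3 := by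
    rw [Real.lt_sqrt (by norm_num)]
    norm_num
  -- choose q close to √3 - 1
  have hlim : ∃ q : ℝ, 0 < q ∧ q < √3 - 1 ∧ c * (1 / (1 + √3)) < (1 + q) / (2 * √3) := by
    have h1 : c * (1 / (1 + √3)) < 1 / 2 := by
      rw [mul_one_div, div_lt_iff₀ (by positivity)]
      linarith
    set d : ℝ := 2 * √3 * (c * (1 / (1 + √3))) - 1 with hd
    have h2 : d < √3 - 1 := by
      rw [hd]
      have : 2 * √3 * (c * (1 / (1 + √3))) < 2 * √3 * (1 / 2) :=
        mul_lt_mul_of_pos_left h1 (by positivity)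
      linarith
    have h3 : max 0 d < √3 - 1 := max_lt (by linarith) h2
    obtain ⟨q, hq1, hq2⟩ := exists_between h3
    refine ⟨q, (le_max_left _ _).trans_lt hq1, hq2, ?_⟩
    rw [lt_div_iff₀ (by positivity)]
    have := (le_max_right 0 d).trans_lt hq1
    rw [hd] at this
    linarith
  obtain ⟨q, hq0, hq1, hq2⟩ := hlim
  obtain ⟨L, hL, hLn, hLr, h⟩ := hB q hq0 hq1
  refine ⟨trunc q, (hA q hq0 hq1).1, L, hL, hLn, fun u hu => ?_⟩
  refine lt_of_lt_of_le ?_ (h u hu)
  rcases le_or_gt c 0 with hc0 | hc0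
  · have h1 : c * rMax L ≤ 0 := mul_nonpos_of_nonpos_of_nonneg hc0 (Bas_rMax_nonneg L)
    have h2 : 0 < (1 + q) / (2 * √3) := by positivity
    linarith
  · exact (mul_le_mul_of_nonneg_left hLr hc0.le).trans_lt hq2

/-- The factor `(n - 1 + √3)/n` cannot be lowered, `n ≥ 2`. -/
theorem Main_all (hupp : S_upp) (hB : S_truB) (hA : S_truA) (n : ℕ) (hn : 2 ≤ n) (c : ℝ)
    (hc : c < ((n : ℝ) - 1 + √3) / n) :
    ∃ K : Set E3, IsBody K ∧ ∃ L : List (Set E3), Slicing K L ∧ L.length = n ∧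
      ∀ u : E3, IsMinDir K u → c * rMax L < rMax (equalSlices K u n) := by
  rcases Nat.lt_or_ge n 3 with h | h
  · obtain rfl : n = 2 := by omega
    apply Main_two hB hA c
    norm_num at hc
    exact hc
  · obtain ⟨L, hL, hLn, hLr, h2⟩ := Main_tet hupp n h
    refine ⟨tet, TetA.1, L, hL, hLn, fun u hu => ?_⟩
    rw [(h2 u hu).2]
    have hn1 : (1 : ℝ) ≤ n := by exact_mod_cast (by omega : 1 ≤ n)
    have hd : (0 : ℝ) < (n : ℝ) - 1 + √3 := by
      have : (0 : ℝ) < √3 := by positivity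
      linarith
    have hpos : 0 < rMax L := by
      rw [hLr]
      positivity
    exact mul_lt_mul_of_pos_right hc hpos

end FriedPotato
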