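import Pool.Agent.CFP.Defs

/-!
# Statements and complete proofs

THEOREM (to be assembled in `Results/MP_1ff74e_co`).  Let `K` be a convex body in three-space of
width `w` and inradius `r`, let `n ≥ 2`, let `S₀` be an equally spaced slicing attached to a
minimal-width pair and let `S` be any admissible slicing into `n` pieces.
(a) `r(S₀) ≤ ((n - 1 + w/(2r)) / n) r(S)` and `w ≤ 2√3 r`, so the factor is at most
    `(n - 1 + √3)/n`.
(b) For the regular tetrahedron `T` and every `n ≥ 3` there is an `S` with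
    `r(S₀) = ((n - 1 + √3)/n) r(S)` for every `S₀`.
(c) For `n = 2` and the corner simplex there is an `S` with `r(S) < r(S₀)` for the only `S₀`.

Every `def S_... : Prop` below is a module; the proof is in the comment above it.  The module
`XXX.lean` proves `theorem XXX : S_xxx`.  Modules may import each other where the comments say so.
-/

namespace FriedPotato

open Metric

/-! ## Bas: basic facts (helper79)

All with `K` compact (and nonempty, convex where needed).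
1. `inner u x ≤ hi K u`, `lo K u ≤ inner u x` for `x ∈ K`; both are attained; `lo K u = - hi K (-u)`.
2. For `r ≥ 0` and `K` compact convex nonempty: `closedBall c r ⊆ K` iff
   `inner u c + r ≤ hi K u` for all unit `u` (if a point `p` of the ball is not in `K`, a hyperplane
   separates `p` strictly from `K`: `hi K u < inner u p ≤ inner u c + r`).
3. `hi K` is continuous, so `widthIn K` attains its minimum on the unit sphere: minimal-width
   directions exist, and `width K ≤ widthIn K u` for all unit `u`.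
4. `K` contains a ball of radius `inradius K > 0`; `2 * inradius K ≤ width K`.
5. `inradius P ≤ a` if all balls in `P` have radius `≤ a`; `r ≤ inradius P` if `closedBall c r ⊆ P`
   and `P` is bounded.
6. `inradius P ≤ rMax L` for `P ∈ L`; `rMax L ≤ a` if `0 ≤ a` and `inradius P ≤ a` for `P ∈ L`. -/

/-- Bas: the ball criterion. -/
def S_ball : Prop :=
  ∀ K : Set E3, IsCompact K → Convex ℝ K → K.Nonempty → ∀ (c : E3) (r : ℝ), 0 ≤ r →
    (closedBall c r ⊆ K ↔ ∀ u : E3, ‖u‖ = 1 → inner ℝ u c + r ≤ hi K u)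

/-- Bas: minimal-width directions exist, every width is at least `width K`, `K` contains a ball of
radius `inradius K`, which is positive. -/
def S_bas : Prop :=
  ∀ K : Set E3, IsBody K →
    (∃ u : E3, IsMinDir K u) ∧ (∀ u : E3, ‖u‖ = 1 → width K ≤ widthIn K u) ∧
    0 < inradius K ∧ (∃ c : E3, closedBall c (inradius K) ⊆ K) ∧
    (∀ (c : E3) (s : ℝ), 0 ≤ s → closedBall c s ⊆ K → s ≤ inradius K) ∧ 0 < width K

/-! ## Cov

Induction on `Slicing K L`.  Start: `L = [K]`, `M = []`.  Cut: the new list of planes is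
`(u/‖u‖, t/‖u‖) :: M`.  Given `ρ > 0` and `closedBall c ρ ⊆ K`, either a plane of `M` works, or the
ball lies in a piece `P'` of the old list.  If `P'` is not the piece that is cut, it is still in the
new list.  If it is the piece `P` and `|⟨u',c⟩ - t'| ≥ ρ` with `u' = u/‖u‖`, `t' = t/‖u‖`, then the
ball lies on one side of the plane (for `x` in the ball `|⟨u',x⟩ - ⟨u',c⟩| ≤ ρ`), so in `below u t P`
or in `above u t P`. -/

/-- Cov: the centres of the balls of radius `ρ` in `K` are covered by the open planks around the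
cut planes and the centres of the balls in the pieces. -/
def S_cov : Prop :=
  ∀ (K : Set E3) (L : List (Set E3)), Slicing K L →
    ∃ M : List (E3 × ℝ), M.length + 1 = L.length ∧ (∀ q ∈ M, ‖q.1‖ = 1) ∧
      ∀ ρ : ℝ, 0 < ρ → ∀ c : E3, closedBall c ρ ⊆ K →
        (∃ P ∈ L, closedBall c ρ ⊆ P) ∨ ∃ q ∈ M, |inner ℝ q.1 c - q.2| < ρ

/-! ## BngA (the intersection part of Bang's argument) and BngB (the choice of signs)

BngA.  Let `C` be compact convex nonempty, `w > 0`, all widths `widthIn C v ≥ w` (`v` unit).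
(i) For every unit `u` there is `x ∈ C` with `x + w u ∈ C`.  Otherwise `C` and its translate
`C - w u = {x | x + w u ∈ C}` are disjoint compact convex sets, so there are `f` (in the dual, hence
`f = inner v`, `v ≠ 0`) and `s < s'` with `⟨v,x⟩ ≤ s < s' ≤ ⟨v,y⟩` for `x ∈ C`, `y + w u ∈ C`, or
with the two sets exchanged; taking `x` at the maximum, `y` at the minimum, the width of `C` in the
direction `v/‖v‖` is `< w |⟨u, v/‖v‖⟩| ≤ w`, a contradiction.
(ii) For `0 ≤ d ≤ w` and unit `u` put `C' = {x ∈ C | x + d u ∈ C}`.  With `x` from (i) and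
`θ = d/w`, the point `z = (1-θ) y + θ x` lies in `C'` for all `y ∈ C`:
`z + d u = (1-θ) y + θ (x + w u)`.  So `C'` contains `(1-θ) C + θ x`, hence it is nonempty and all
its widths are at least `(1-θ) w = w - d`.  It is compact and convex.
(iii) By induction on the finite set `s`: if all widths of `C` are at least `2 ρ |s|`, there is `y`
with `y + ∑ i ∈ A, (2ρ) u i ∈ C` for all `A ⊆ s`.  For `insert a s` use `C'` with `u = u a`,
`d = 2ρ` (widths of `C` at least `2ρ(|s|+1)`), the point `y` for `C'` and `s`; if `a ∈ A` then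
`y + ∑ A = (y + ∑ A.erase a) + 2ρ u a ∈ C`.  (For `s = ∅` any `y ∈ C`.  Here `ρ > 0`.)

BngB.  Let `y` be as in (iii) for `s = univ` and let `A` maximise
`G(A) = ‖y + ∑ i ∈ A, (2ρ) u i‖² - 4 ρ ∑ i ∈ A, t i`.  Put `z = y + ∑ i ∈ A, (2ρ) u i ∈ C`.  For
`i ∉ A`, `0 ≥ G(insert i A) - G(A) = 4ρ⟨u i, z⟩ + 4ρ² - 4ρ t i`, so `⟨u i, z⟩ - t i ≤ -ρ`.  For
`i ∈ A`, `0 ≥ G(A.erase i) - G(A) = -4ρ⟨u i, z⟩ + 4ρ² + 4ρ t i`, so `⟨u i, z⟩ - t i ≥ ρ`. -/

/-- BngA. -/
def S_bngA : Prop :=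
  ∀ (N : ℕ) (u : Fin N → E3) (ρ : ℝ) (C : Set E3), 0 < ρ → (∀ i, ‖u i‖ = 1) →
    IsCompact C → Convex ℝ C → C.Nonempty →
    (∀ v : E3, ‖v‖ = 1 → 2 * (N : ℝ) * ρ ≤ widthIn C v) →
    ∃ y : E3, ∀ A : Finset (Fin N), y + ∑ i ∈ A, (2 * ρ) • u i ∈ C

/-- BngB: if all subset sums stay in `C`, some point of `C` escapes all open planks. -/
def S_bngB : Prop :=
  ∀ (N : ℕ) (u : Fin N → E3) (t : Fin N → ℝ) (ρ : ℝ) (C : Set E3), 0 < ρ → (∀ i, ‖u i‖ = 1) →
    (∃ y : E3, ∀ A : Finset (Fin N), y + ∑ i ∈ A, (2 * ρ) • u i ∈ C) →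
    ∃ z ∈ C, ∀ i, ρ ≤ |inner ℝ (u i) z - t i|

/-! ## Low (imports Bas, Cov, BngA, BngB)

Let `R = inradius K`, `closedBall c R ⊆ K`, `w = width K`, `n = L.length`, `r(S) = rMax L`.  Let
`ρ > rMax L`, so `ρ > 0`.  Claim `w ≤ (2(n-1) + w/R) ρ`; then let `ρ` tend to `rMax L`.
If `ρ ≥ R` then `w ≤ (w/R) ρ` and we are done.  Let `ρ < R`, `θ = ρ/R ∈ (0,1)` and
`C = {(1-θ) x + θ c | x ∈ K}`: compact convex nonempty, with widths `(1-θ) widthIn K v ≥ (1-θ) w`.
For `z = (1-θ) x + θ c ∈ C` the ball `closedBall z ρ = (1-θ) x + θ closedBall c R` lies in `K`.  By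
Cov (with `M`, `n - 1 = M.length`) and since no piece contains a ball of radius `ρ` (its inradius
would be at least `ρ > rMax L`; the pieces are subsets of `K`, bounded), every `z ∈ C` lies in an
open plank of `M`.  By BngA and BngB (with `N = n - 1`) not all widths of `C` are `≥ 2(n-1)ρ`, so
some `v` has `(1-θ) w ≤ (1-θ) widthIn K v = widthIn C v < 2(n-1)ρ`, that is
`w < 2(n-1)ρ + (ρ/R) w`. -/

/-- Low: the lower bound for every slicing. -/
def S_low : Prop :=
  ∀ K : Set E3, IsBody K → ∀ L : List (Set E3), Slicing K L →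
    width K ≤ (2 * ((L.length : ℝ) - 1) + width K / inradius K) * rMax L

/-! ## Car (Carathéodory in the form of four points) and Cpt (compactness)

Car.  If `x ∈ convexHull ℝ U` then `x = ∑ i, l i • u i` with `u : Fin 4 → E3` in `U`, `l ≥ 0`,
`∑ l = 1`: by Carathéodory (`minCardFinsetOfMemConvexHull`, affine independence, so at most
`finrank + 1 = 4` points) and padding with weights `0`.
Cpt.  If `U` is compact then `convexHull ℝ U` is compact: by Car it is the image of the compact set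
`(univ.pi fun _ => U) ×ˢ stdSimplex ℝ (Fin 4)` under a continuous map. -/

/-- Car. -/
def S_car : Prop :=
  ∀ (U : Set E3) (x : E3), x ∈ convexHull ℝ U →
    ∃ (u : Fin 4 → E3) (l : Fin 4 → ℝ), (∀ i, u i ∈ U) ∧ (∀ i, 0 ≤ l i) ∧ ∑ i, l i = 1 ∧
      ∑ i, l i • u i = x

/-- Cpt. -/
def S_cpt : Prop := ∀ U : Set E3, IsCompact U → IsCompact (convexHull ℝ U)

/-! ## Con (contact normals of the largest ball; imports Bas, Car, Cpt)

Let `R = inradius K`, `closedBall c R ⊆ K`, `φ(u) = hi K u - inner u c - R`, which is continuous and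
`≥ 0` on the unit sphere, and `U = {u | ‖u‖ = 1, φ(u) = 0}`, a compact set.  Claim
`0 ∈ convexHull ℝ U`; then Car gives the statement.  If not, `convexHull ℝ U` is compact convex and
there are `q` and `δ > 0` with `inner q u ≥ δ` for all `u ∈ U`.  The set
`V = {u | ‖u‖ = 1, inner q u ≤ δ/2}` is compact and `φ > 0` on it, so `φ ≥ η > 0` on `V`.  For small
`ε > 0` (with `ε ‖q‖ ≤ η/2`) and `c' = c - ε q` we have for all unit `u`
`hi K u - inner u c' - R = φ(u) + ε inner q u ≥ min (η/2) (ε δ/2) =: m > 0`, so by the ball criterion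
`closedBall c' (R + m) ⊆ K`, a contradiction. -/

/-- Con. -/
def S_con : Prop :=
  ∀ K : Set E3, IsBody K →
    ∃ (c : E3) (u : Fin 4 → E3) (l : Fin 4 → ℝ), (∀ i, ‖u i‖ = 1) ∧ (∀ i, 0 ≤ l i) ∧
      ∑ i, l i = 1 ∧ ∑ i, l i • u i = 0 ∧ ∀ i, hi K (u i) = inner ℝ (u i) c + inradius K

/-! ## Stg (Steinhagen's inequality in three-space; imports Bas)

With the data of Con: for `I ⊆ {0,1,2,3}` put `v_I = ∑_{I} l i u i = - ∑_{not I} l i u i`.  For
`x ∈ K`, `⟨v_I, x⟩ ≤ ∑_I l i hi(u i)` and `⟨v_I, x⟩ ≥ - ∑_{not I} l i hi(u i)`, and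
`∑ l i hi (u i) = ⟨∑ l i u i, c⟩ + R = R`.  So `‖v_I‖ w ≤ R` (if `v_I = 0` trivial; else use the unit
vector `v_I/‖v_I‖`).  Next `‖v_01‖² + ‖v_02‖² + ‖v_03‖² = 3 l0² + l1² + l2² + l3² +
2 ⟨l0 u0, l1 u1 + l2 u2 + l3 u3⟩ = l0² + l1² + l2² + l3² ≥ 1/4`.  So some `‖v_I‖² ≥ 1/12` and
`w ≤ R √12 = 2√3 R`. -/

/-- Stg. -/
def S_stg : Prop :=
  ∀ K : Set E3, IsBody K →
    (∃ (c : E3) (u : Fin 4 → E3) (l : Fin 4 → ℝ), (∀ i, ‖u i‖ = 1) ∧ (∀ i, 0 ≤ l i) ∧
      ∑ i, l i = 1 ∧ ∑ i, l i • u i = 0 ∧ ∀ i, hi K (u i) = inner ℝ (u i) c + inradius K) →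
    width K ≤ 2 * √3 * inradius K

/-! ## Upp and Adm

Upp.  Every piece of `equalSlices K u n` lies in a slab `s ≤ ⟨u,x⟩ ≤ s + w/n` (first piece:
`lo K u ≤ ⟨u,x⟩ ≤ lo K u + w/n`; last piece: `hi K u = lo K u + w`).  A ball of radius `r` with
centre `c` contains `c ± r u`, so `2 r ≤ w/n`.
Suggested induction: for a list of levels of the form `s + w/n, s + 2w/n, ..., s + k w/n` and a set
`P` inside `{s ≤ ⟨u,x⟩ ≤ s + (k+1) w/n}` every piece of `cuts` lies in such a slab.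

Adm.  (i) General lemma: if `ts` is strictly increasing (`List.Pairwise (· < ·)`) and every level
`t` of it is `⟨u, x⟩` for some `x ∈ interior K`, `u ≠ 0`, then `Slicing K (cuts u ts K)`.  Prove by
induction on `ts`, for all `L₁` and `P`: if `Slicing K (L₁ ++ [P])`, and all levels `t` of `ts` are
taken at a point of `interior P`, and `ts` is increasing, then `Slicing K (L₁ ++ cuts u ts P)`; in
the step, `interior (above u t P)` contains all points of `interior P` with `t < ⟨u,x⟩`.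
(ii) For the levels of `equalSlices`: let `p ∈ interior K`, `x, y ∈ K` with `⟨u,x⟩ = hi`,
`⟨u,y⟩ = lo`.  The half-open segments from `p` to `x` and to `y` lie in `interior K`
(`Convex.combo_interior_self_mem_interior` or `Convex.openSegment_interior_self_subset_interior`),
so all values in `(lo, hi)` are taken in the interior, and the levels are in `(lo, hi)`, since
`width K > 0` and `hi - lo = width K`. -/

/-- Upp. -/
def S_upp : Prop :=
  ∀ K : Set E3, IsBody K → ∀ n : ℕ, 2 ≤ n → ∀ u : E3, IsMinDir K u →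
    rMax (equalSlices K u n) ≤ width K / (2 * n)

/-- Adm, part (i). -/
def S_cut : Prop :=
  ∀ (K : Set E3) (u : E3) (ts : List ℝ), u ≠ 0 → ts.Pairwise (· < ·) →
    (∀ t ∈ ts, ∃ x ∈ interior K, inner ℝ u x = t) →
    Slicing K (cuts u ts K) ∧ (cuts u ts K).length = ts.length + 1

/-- Adm, part (ii). -/
def S_adm : Prop :=
  ∀ K : Set E3, IsBody K → ∀ n : ℕ, 2 ≤ n → ∀ u : E3, IsMinDir K u →
    Slicing K (equalSlices K u n) ∧ (equalSlices K u n).length = n

/-! ## The tetrahedron: TetA (body and minimal directions), TetB (`r(S₀) ≥ 1/n`), TetC (the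
better slicing)

TetA.  `T` is compact, convex, `0` is interior.  It contains the vertices
`(1,1,1), (1,-1,-1), (-1,1,-1), (-1,-1,1)`.  For `u = (a,b,c)` the differences of the values of
`⟨u,·⟩` at two vertices are `±2(b+c), ±2(a+c), ±2(a+b), ±2(a-b), ±2(a-c), ±2(b-c)`, so
`widthIn T u ≥ 2(|a|+|b|)`, `2(|a|+|c|)`, `2(|b|+|c|)`.  For `u = e₀` the width is `2` (add the
inequalities `-x-y-z ≤ 1`, `-x+y+z ≤ 1` to get `x ≥ -1`, similarly `x ≤ 1`).  If `‖u‖ = 1` and
`widthIn T u ≤ 2` then two of the three coordinates vanish: `|a|+|b| ≤ 1`, `|a|+|c| ≤ 1`,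
`|b|+|c| ≤ 1`, `a²+b²+c² = 1`; say `|a|` is largest, then `1 = a²+b²+c² ≤ a² + b² + |a||c| ≤ ...`:
from `(|a|+|b|)² ≤ 1 = a²+b²+c²` we get `2|a||b| ≤ c² `, similarly `2|a||c| ≤ b²`,
`2|b||c| ≤ a²`; with `|a| ≥ |b|, |c|`: `2b² ≤ 2|a||b| ≤ c²`, `2c² ≤ b²`, so `b = c = 0`.  Hence
`width T = 2` and `u = ±e_i`; then `lo T u = -1`, `hi T u = 1` (by symmetry, or by the same sums of
two inequalities and the vertices).

TetB.  Let `n ≥ 3`, `k = n/2` (integer part), `s = -1 + (2k+1)/n`, so `s = 0` or `s = 1/n`, and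
`B = closedBall (s • u) (1/n)` with `u = ±e_i`.  `B ⊆ T`: for `x ∈ B` and a facet normal
`σ = (±1,±1,±1)`, `⟨σ,x⟩ ≤ s ⟨σ,u⟩ + √3/n ≤ (1+√3)/n ≤ 1`.  For `x ∈ B`,
`-1 + 2k/n ≤ ⟨u,x⟩ ≤ -1 + 2(k+1)/n`.  The levels are `-1 + 2(j+1)/n`, `j < n-1`; for `j+1 ≤ k` the
ball is above the level, for `j + 1 ≥ k + 1` it is below.  Lemma: if `X ⊆ P` and for every level `t`
of the list `X` is below or above `t`, then some piece of `cuts u ts P` contains `X` (induction).
So some piece contains `B` and `rMax ≥ 1/n` (the pieces are bounded).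

TetC.  `ρ = 1/(n-1+√3)`, `u = e₀`, levels `t_j = (-(n-2) + 2 j) ρ`, `j = 0, ..., n-2`.  They are
strictly increasing and `|t_j| ≤ (n-2)ρ < 1`; the point `t_j e₀` is in the interior of `T`
(`|t_j| < 1`).  So S_cut gives the slicing.  First piece: for a ball (centre `c`, radius `r`) in it,
`-c₀ - c₁ - c₂ + √3 r ≤ 1`, `-c₀ + c₁ + c₂ + √3 r ≤ 1` (the ball contains `c + (r/√3) σ`), so
`-c₀ + √3 r ≤ 1`, and `c₀ + r ≤ t_0`; the sum is `(1+√3) r ≤ 1 - (n-2)ρ = (1+√3) ρ`.  The last piece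
is similar: `c₀ + √3 r ≤ 1`, `-c₀ + r ≤ -t_{n-2} = -(n-2)ρ`.  The other pieces lie in slabs of
thickness `2ρ`.  (For `n = 2` there is one level, `0`.) -/

/-- The regular tetrahedron. -/
def tet : Set E3 :=
  {x | -x 0 - x 1 - x 2 ≤ 1 ∧ -x 0 + x 1 + x 2 ≤ 1 ∧ x 0 - x 1 + x 2 ≤ 1 ∧ x 0 + x 1 - x 2 ≤ 1}

/-- TetA. -/
def S_tetA : Prop :=
  IsBody tet ∧ width tet = 2 ∧
    ∀ u : E3, IsMinDir tet u →
      (∃ (i : Fin 3) (ε : ℝ), (ε = 1 ∨ ε = -1) ∧ u = ε • EuclideanSpace.single i (1 : ℝ)) ∧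
      lo tet u = -1 ∧ hi tet u = 1

/-- TetB. -/
def S_tetB : Prop :=
  ∀ n : ℕ, 3 ≤ n → ∀ u : E3, IsMinDir tet u → 1 / (n : ℝ) ≤ rMax (equalSlices tet u n)

/-- TetC. -/
def S_tetC : Prop :=
  ∀ n : ℕ, 2 ≤ n → ∃ L : List (Set E3), Slicing tet L ∧ L.length = n ∧
    rMax L ≤ 1 / ((n : ℝ) - 1 + √3)

/-! ## Cor: the corner simplex, `n = 2`

`Δ = {x, y, z ≥ 0, x + y + z ≤ 1}`.  It contains `0, e₀, e₁, e₂`, so for a unit `u = (a,b,c)` the
width is at least each of `|a|, |b|, |c|, |a-b|, |a-c|, |b-c|`.  In the direction `g = (1,1,1)/√3`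
the width is `1/√3`.  If `widthIn Δ u ≤ 1/√3` then `a², b², c² ≤ 1/3`, so all three are `1/3`, and
the signs agree (otherwise a difference is `2/√3`), so `u = ±g`.  Thus `width Δ = 1/√3`, the minimal
directions are `±g`, the only level for `n = 2` is `±1/(2√3)`, that is the plane `x + y + z = 1/2`.
The piece `x + y + z ≥ 1/2` contains the ball with centre `(1/4,1/4,1/4)` and radius `1/(4√3) < 1/4`:
for `x` in it, `|x+y+z - 3/4| ≤ √3/(4√3) = 1/4`.  So `r(S₀) ≥ 1/(4√3)`.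
The cut `x + y + z = 3/5` (it meets the interior, at `(1/5,1/5,1/5)`): a ball (centre `c`, radius
`r`) in the lower piece has `c_i ≥ r`, `c₀+c₁+c₂+√3 r ≤ 3/5`, so `(3+√3) r ≤ 3/5`; in the upper
piece `2√3 r ≤ 2/5`.  Both give `r ≤ 13/100` (`3/5 ≤ (3+√3)·0.13` as `√3 ≥ 1.7`; `0.4 ≤ 2·1.7·0.13`)
and `13/100 < 1/(4√3)` as `0.52·√3 < 1`. -/

/-- The corner simplex. -/
def corner : Set E3 := {x | 0 ≤ x 0 ∧ 0 ≤ x 1 ∧ 0 ≤ x 2 ∧ x 0 + x 1 + x 2 ≤ 1}

/-- CorA: the body and its minimal directions. -/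
def S_corA : Prop :=
  IsBody corner ∧ ∀ u : E3, IsMinDir corner u → ∃ ε : ℝ, (ε = 1 ∨ ε = -1) ∧
    (∀ i : Fin 3, u i = ε / √3) ∧ width corner = 1 / √3

/-- CorB: the better slicing. -/
def S_corB : Prop :=
  ∃ L : List (Set E3), Slicing corner L ∧ L.length = 2 ∧
    ∀ u : E3, IsMinDir corner u → rMax L < rMax (equalSlices corner u 2)

end FriedPotato
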