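import Pool.Agent.CFP.St2
import Pool.Agent.CFP.Bas

set_option autoImplicit false

/-!
# TruA (helper82): the truncated tetrahedron and its minimal-width direction
-/

namespace FriedPotato

open Metric

private theorem TruA_in (u x : E3) : inner ℝ u x = u 0 * x 0 + u 1 * x 1 + u 2 * x 2 := by
  simp only [PiLp.inner_apply, Fin.sum_univ_three, RCLike.inner_apply, conj_trivial]
  ring

private theorem TruA_sq (u : E3) : ‖u‖ ^ 2 = u 0 ^ 2 + u 1 ^ 2 + u 2 ^ 2 := by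
  rw [EuclideanSpace.norm_sq_eq, Fin.sum_univ_three]
  simp only [Real.norm_eq_abs, sq_abs]

private theorem TruA_s3 : √3 * √3 = 3 := Real.mul_self_sqrt (by norm_num)

private theorem TruA_s0 : 0 < √3 := Real.sqrt_pos.2 (by norm_num)

private theorem TruA_q1 {q : ℝ} (hq : q < √3 - 1) : q < 1 := by
  have h1 : √3 < 2 := by
    rw [Real.sqrt_lt' (by norm_num)]
    norm_num
  linarith

private theorem TruA_vtx {q : ℝ} (hq0 : 0 < q) (hq1 : q < 1) :
    (!₂[1, q, q] : E3) ∈ trunc q ∧ (!₂[q, 1, q] : E3) ∈ trunc q ∧ (!₂[q, q, 1] : E3) ∈ trunc q ∧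
    (!₂[1, -1, -1] : E3) ∈ trunc q ∧ (!₂[-1, 1, -1] : E3) ∈ trunc q ∧ (!₂[-1, -1, 1] : E3) ∈ trunc q := by
  refine ⟨?_, ?_, ?_, ?_, ?_, ?_⟩ <;>
    · simp only [trunc, tet, Set.mem_ofPred_eq, Matrix.cons_val_zero, Matrix.cons_val_one, Matrix.cons_val]
      refine ⟨⟨?_, ?_, ?_, ?_⟩, ?_⟩ <;> linarith

private theorem TruA_bd {q : ℝ} {x : E3} (hx : x ∈ trunc q) (i : Fin 3) : -1 ≤ x i ∧ x i ≤ 1 := by
  obtain ⟨⟨h1, h2, h3, h4⟩, -⟩ := hx
  fin_cases i
  · constructor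
    · show -1 ≤ x 0
      linarith
    · show x 0 ≤ 1
      linarith
  · constructor
    · show -1 ≤ x 1
      linarith
    · show x 1 ≤ 1
      linarith
  · constructor
    · show -1 ≤ x 2
      linarith
    · show x 2 ≤ 1
      linarith

private theorem TruA_closed (q : ℝ) : IsClosed (trunc q) := by
  have h : trunc q = ({x : E3 | -x 0 - x 1 - x 2 ≤ 1} ∩ ({x : E3 | -x 0 + x 1 + x 2 ≤ 1} ∩
      ({x : E3 | x 0 - x 1 + x 2 ≤ 1} ∩ {x : E3 | x 0 + x 1 - x 2 ≤ 1}))) ∩ {x : E3 | x 0 + x 1 + x 2 ≤ 1 + 2 * q} := rfl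
  rw [h]
  refine IsClosed.inter (IsClosed.inter ?_ (IsClosed.inter ?_ (IsClosed.inter ?_ ?_))) ?_ <;>
    exact isClosed_le (by fun_prop) continuous_const

private theorem TruA_body {q : ℝ} (hq : 0 < q) : IsBody (trunc q) := by
  refine ⟨?_, ?_, ?_⟩
  · intro x hx y hy a b ha hb hab
    obtain ⟨⟨h1, h2, h3, h4⟩, h5⟩ := hx
    obtain ⟨⟨k1, k2, k3, k4⟩, k5⟩ := hy
    have e : ∀ i : Fin 3, (a • x + b • y) i = a * x i + b * y i := fun i => by
      simp [PiLp.add_apply, PiLp.smul_apply]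
    have hb' : b = 1 - a := by linarith
    refine ⟨⟨?_, ?_, ?_, ?_⟩, ?_⟩ <;> simp only [e]
    · nlinarith [mul_le_mul_of_nonneg_left h1 ha, mul_le_mul_of_nonneg_left k1 hb]
    · nlinarith [mul_le_mul_of_nonneg_left h2 ha, mul_le_mul_of_nonneg_left k2 hb]
    · nlinarith [mul_le_mul_of_nonneg_left h3 ha, mul_le_mul_of_nonneg_left k3 hb]
    · nlinarith [mul_le_mul_of_nonneg_left h4 ha, mul_le_mul_of_nonneg_left k4 hb]
    · have m1 := mul_le_mul_of_nonneg_left h5 ha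
      have m2 := mul_le_mul_of_nonneg_left k5 hb
      have m3 : a * (1 + 2 * q) + b * (1 + 2 * q) = 1 + 2 * q := by
        rw [← add_mul, hab, one_mul]
      linarith
  · refine Metric.isCompact_of_isClosed_isBounded (TruA_closed q) ?_
    refine (Metric.isBounded_closedBall (x := (0 : E3)) (r := 2)).subset ?_
    intro x hx
    rw [mem_closedBall_zero_iff]
    have h0 := TruA_bd hx 0
    have h1 := TruA_bd hx 1
    have h2 := TruA_bd hx 2
    have h := TruA_sq x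
    have hn := norm_nonneg x
    nlinarith
  · refine ⟨0, mem_interior_iff_mem_nhds.mpr
      (Filter.mem_of_superset (Metric.ball_mem_nhds 0 (by norm_num : (0 : ℝ) < 1 / 3)) ?_)⟩
    intro x hx
    rw [mem_ball_zero_iff] at hx
    have h : ∀ i : Fin 3, |x i| ≤ 1 / 3 := fun i => by
      have := PiLp.norm_apply_le x i
      rw [Real.norm_eq_abs] at this
      linarith
    have h0 := abs_le.mp (h 0)
    have h1 := abs_le.mp (h 1)
    have h2 := abs_le.mp (h 2)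
    exact ⟨⟨by linarith, by linarith, by linarith, by linarith⟩, by linarith⟩

/-- sorted coordinates with nonnegative sum -/
private theorem TruA_core {q w x y z : ℝ} (hq0 : 0 < q) (hq1 : q < √3 - 1) (hw : w * √3 = 2 * (1 + q))
    (hxy : y ≤ x) (hyz : z ≤ y) (hS : 0 ≤ x + y + z) (h1 : x ^ 2 + y ^ 2 + z ^ 2 = 1)
    (hD1 : 2 * x + (1 + q) * y - (1 - q) * z ≤ w) (hD2 : 2 * (x - z) ≤ w) :
    x = 1 / √3 ∧ y = 1 / √3 ∧ z = 1 / √3 := by
  have hs3 := TruA_s3
  have hs0 := TruA_s0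
  have hw2 : w < 2 := by
    have h2 : w * √3 < 2 * √3 := by rw [hw]; linarith
    exact lt_of_mul_lt_mul_right h2 hs0.le
  have hw0 : 0 < w := by
    by_contra hcon
    have h2 : w * √3 ≤ 0 := mul_nonpos_of_nonpos_of_nonneg (not_lt.1 hcon) hs0.le
    linarith
  have hq := TruA_q1 hq1
  have hyz0 : 0 ≤ y + z := by
    by_contra hcon
    rw [not_le] at hcon
    have hz : z < 0 := by linarith
    have h2 : y ^ 2 ≤ x * (-z) := by
      rcases le_total 0 y with hy | hy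
      · have h3 : y * y ≤ x * (-z) := mul_le_mul hxy (by linarith) hy (by linarith)
        nlinarith
      · have h3 : (-y) * (-y) ≤ x * (-z) := mul_le_mul (by linarith) (by linarith) (by linarith) (by linarith)
        nlinarith
    have h3 : 1 ≤ (x - z) ^ 2 := by nlinarith [sq_nonneg y]
    have h4 : 1 ≤ x - z := by
      by_contra hcon2
      rw [not_le] at hcon2
      exact absurd h3 (not_le.2 (pow_lt_one₀ (by linarith) hcon2 two_ne_zero))
    linarith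
  have hα : 0 ≤ (y + z) / 2 := by linarith
  have hβ : 0 ≤ (y - z) / 2 := by linarith
  have hγ : 0 ≤ x - y := by linarith
  obtain ⟨α, hα'⟩ : ∃ α, α = (y + z) / 2 := ⟨_, rfl⟩
  obtain ⟨β, hβ'⟩ : ∃ β, β = (y - z) / 2 := ⟨_, rfl⟩
  obtain ⟨γ, hγ'⟩ : ∃ γ, γ = x - y := ⟨_, rfl⟩
  rw [← hα'] at hα
  rw [← hβ'] at hβ
  rw [← hγ'] at hγ
  have ey : y = α + β := by rw [hα', hβ']; ring
  have ez : z = α - β := by rw [hα', hβ']; ring
  have ex : x = α + β + γ := by linarith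
  have hT : 1 ≤ √3 * α + √3 * β + γ := by
    have h2 : 1 ≤ (√3 * α + √3 * β + γ) ^ 2 := by
      have h3 : (√3 * α + √3 * β + γ) ^ 2 = (√3 * √3) * α ^ 2 + (√3 * √3) * β ^ 2 + γ ^ 2 +
          2 * (√3 * √3) * (α * β) + 2 * √3 * (α * γ) + 2 * √3 * (β * γ) := by ring
      rw [h3, hs3]
      have h4 : (α + β + γ) ^ 2 + (α + β) ^ 2 + (α - β) ^ 2 = 1 := by rw [← ex, ← ey, ← ez]; exact h1
      have h5 : 0 ≤ α * β := mul_nonneg hα hβ
      have h6 : 0 ≤ α * γ := mul_nonneg hα hγ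
      have h7 : 0 ≤ β * γ := mul_nonneg hβ hγ
      have h8 : 1 ≤ √3 := by linarith
      have h9 : 0 ≤ (√3 - 1) * (α * γ) := mul_nonneg (by linarith) h6
      have h10 : 0 ≤ (√3 - 1) * (β * γ) := mul_nonneg (by linarith) h7
      have e1 : (α + β + γ) ^ 2 + (α + β) ^ 2 + (α - β) ^ 2 =
          3 * α ^ 2 + 3 * β ^ 2 + γ ^ 2 + 2 * (α * β) + 2 * (α * γ) + 2 * (β * γ) := by ring
      have e2 : 2 * √3 * (α * γ) = 2 * (α * γ) + 2 * ((√3 - 1) * (α * γ)) := by ring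
      have e3 : 2 * √3 * (β * γ) = 2 * (β * γ) + 2 * ((√3 - 1) * (β * γ)) := by ring
      rw [e1] at h4
      rw [e2, e3]
      linarith
    by_contra hcon
    rw [not_le] at hcon
    have h3 : 0 ≤ √3 * α + √3 * β + γ := by positivity
    exact absurd h2 (not_le.2 (pow_lt_one₀ h3 hcon two_ne_zero))
  have h2 : w ≤ 2 * (1 + q) * α + 2 * (1 + q) * β + w * γ := by
    have h3 : w * 1 ≤ w * (√3 * α + √3 * β + γ) := mul_le_mul_of_nonneg_left hT hw0.le
    have h4 : w * (√3 * α + √3 * β + γ) = (w * √3) * α + (w * √3) * β + w * γ := by ring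
    rw [h4, hw] at h3
    linarith
  have h3 : 2 * x + (1 + q) * y - (1 - q) * z = 2 * (1 + q) * α + 4 * β + 2 * γ := by
    rw [ex, ey, ez]
    ring
  rw [h3] at hD1
  have h4 : 0 ≤ (2 * (1 - q)) * β := mul_nonneg (by linarith) hβ
  have h5 : 0 ≤ (2 - w) * γ := mul_nonneg (by linarith) hγ
  have h6 : (2 * (1 - q)) * β + (2 - w) * γ ≤ 0 := by linarith
  have hβ0 : β = 0 := by
    have h7 : (2 * (1 - q)) * β = 0 := by linarith
    rcases mul_eq_zero.1 h7 with h8 | h8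
    · linarith
    · exact h8
  have hγ0 : γ = 0 := by
    have h7 : (2 - w) * γ = 0 := by linarith
    rcases mul_eq_zero.1 h7 with h8 | h8
    · linarith
    · exact h8
  rw [hβ0, hγ0] at ex
  rw [hβ0] at ey ez
  have hx : x = 1 / √3 := by
    have h7 : 3 * α ^ 2 = 1 := by
      rw [ex, ey, ez] at h1
      linarith
    have h8 : (√3 * α) ^ 2 = 1 := by
      rw [mul_pow, pow_two (√3), hs3]
      exact h7
    have h9 : √3 * α = 1 := by
      have h10 : 0 ≤ √3 * α := by positivity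
      exact (pow_eq_one_iff_of_nonneg h10 two_ne_zero).1 h8
    rw [ex, eq_div_iff hs0.ne']
    linarith
  exact ⟨hx, by linarith, by linarith⟩

private theorem TruA_case {q w a b c : ℝ} (hq0 : 0 < q) (hq1 : q < √3 - 1) (hw : w * √3 = 2 * (1 + q))
    (h : b ≤ a) (h' : c ≤ b) (hs : a ^ 2 + b ^ 2 + c ^ 2 = 1)
    (F1 : 2 * a + (1 + q) * b - (1 - q) * c ≤ w) (F2 : -(2 * c + (1 + q) * b - (1 - q) * a) ≤ w)
    (F3 : 2 * (a - c) ≤ w) :
    ∃ ε : ℝ, (ε = 1 ∨ ε = -1) ∧ a = ε / √3 ∧ b = ε / √3 ∧ c = ε / √3 := by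
  rcases le_total 0 (a + b + c) with h0 | h0
  · exact ⟨1, Or.inl rfl, TruA_core hq0 hq1 hw h h' h0 hs F1 F3⟩
  · obtain ⟨h1, h2, h3⟩ := TruA_core (x := -c) (y := -b) (z := -a) hq0 hq1 hw (by linarith) (by linarith) (by linarith)
      (by rw [neg_sq, neg_sq, neg_sq]; linarith) (by linarith) (by linarith)
    refine ⟨-1, Or.inr rfl, ?_, ?_, ?_⟩
    · rw [neg_div]; linarith
    · rw [neg_div]; linarith
    · rw [neg_div]; linarith

private theorem TruA_dir {q : ℝ} (hq0 : 0 < q) (hq1 : q < √3 - 1) (u : E3) (hu : ‖u‖ = 1)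
    (hwd : widthIn (trunc q) u ≤ 2 * (1 + q) / √3) :
    ∃ ε : ℝ, (ε = 1 ∨ ε = -1) ∧ ∀ i : Fin 3, u i = ε / √3 := by
  have hb := TruA_body hq0
  have hs0 := TruA_s0
  obtain ⟨w, hw'⟩ : ∃ w, w = 2 * (1 + q) / √3 := ⟨_, rfl⟩
  have hw : w * √3 = 2 * (1 + q) := by rw [hw', div_mul_cancel₀ _ hs0.ne']
  rw [← hw'] at hwd
  obtain ⟨hA0, hA1, hA2, hB0, hB1, hB2⟩ := TruA_vtx hq0 (TruA_q1 hq1)
  have hW : ∀ x ∈ trunc q, ∀ y ∈ trunc q, (inner ℝ u x : ℝ) - inner ℝ u y ≤ w := by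
    intro x hx y hy
    have h1 := Bas_le_hi hb.compact u hx
    have h2 := Bas_lo_le hb.compact u hy
    unfold widthIn at hwd
    linarith
  have hs := TruA_sq u
  rw [hu, one_pow] at hs
  have f01 := hW _ hA0 _ hB1
  have f02 := hW _ hA0 _ hB2
  have f10 := hW _ hA1 _ hB0
  have f12 := hW _ hA1 _ hB2
  have f20 := hW _ hA2 _ hB0
  have f21 := hW _ hA2 _ hB1
  have g01 := hW _ hB1 _ hA0
  have g02 := hW _ hB2 _ hA0
  have g10 := hW _ hB0 _ hA1
  have g12 := hW _ hB2 _ hA1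
  have g20 := hW _ hB0 _ hA2
  have g21 := hW _ hB1 _ hA2
  have b01 := hW _ hB0 _ hB1
  have b02 := hW _ hB0 _ hB2
  have b10 := hW _ hB1 _ hB0
  have b12 := hW _ hB1 _ hB2
  have b20 := hW _ hB2 _ hB0
  have b21 := hW _ hB2 _ hB1
  simp only [TruA_in, Matrix.cons_val_zero, Matrix.cons_val_one, Matrix.cons_val]
    at f01 f02 f10 f12 f20 f21 g01 g02 g10 g12 g20 g21 b01 b02 b10 b12 b20 b21
  have fin : ∀ ε : ℝ, u 0 = ε / √3 → u 1 = ε / √3 → u 2 = ε / √3 → ∀ i : Fin 3, u i = ε / √3 := by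
    intro ε h0 h1 h2 i
    fin_cases i
    · exact h0
    · exact h1
    · exact h2
  rcases le_total (u 0) (u 1) with h01 | h01
  · rcases le_total (u 1) (u 2) with h12 | h12
    · obtain ⟨ε, hε, e1, e2, e3⟩ := TruA_case (a := u 2) (b := u 1) (c := u 0) hq0 hq1 hw h12 h01 (by linarith)
        (by linarith) (by linarith) (by linarith)
      exact ⟨ε, hε, fin ε e3 e2 e1⟩
    · rcases le_total (u 0) (u 2) with h02 | h02
      · obtain ⟨ε, hε, e1, e2, e3⟩ := TruA_case (a := u 1) (b := u 2) (c := u 0) hq0 hq1 hw h12 h02 (by linarith)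
          (by linarith) (by linarith) (by linarith)
        exact ⟨ε, hε, fin ε e3 e1 e2⟩
      · obtain ⟨ε, hε, e1, e2, e3⟩ := TruA_case (a := u 1) (b := u 0) (c := u 2) hq0 hq1 hw h01 h02 (by linarith)
          (by linarith) (by linarith) (by linarith)
        exact ⟨ε, hε, fin ε e2 e1 e3⟩
  · rcases le_total (u 1) (u 2) with h12 | h12
    · rcases le_total (u 0) (u 2) with h02 | h02
      · obtain ⟨ε, hε, e1, e2, e3⟩ := TruA_case (a := u 2) (b := u 0) (c := u 1) hq0 hq1 hw h02 h01 (by linarith)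
          (by linarith) (by linarith) (by linarith)
        exact ⟨ε, hε, fin ε e2 e3 e1⟩
      · obtain ⟨ε, hε, e1, e2, e3⟩ := TruA_case (a := u 0) (b := u 2) (c := u 1) hq0 hq1 hw h02 h12 (by linarith)
          (by linarith) (by linarith) (by linarith)
        exact ⟨ε, hε, fin ε e1 e3 e2⟩
    · obtain ⟨ε, hε, e1, e2, e3⟩ := TruA_case (a := u 0) (b := u 1) (c := u 2) hq0 hq1 hw h01 h12 (by linarith)
        (by linarith) (by linarith) (by linarith)
      exact ⟨ε, hε, fin ε e1 e2 e3⟩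

private theorem TruA_ge {q : ℝ} (hq0 : 0 < q) (hq1 : q < √3 - 1) (u : E3) (hu : ‖u‖ = 1) :
    2 * (1 + q) / √3 ≤ widthIn (trunc q) u := by
  by_contra hcon
  rw [not_le] at hcon
  obtain ⟨ε, hε, h⟩ := TruA_dir hq0 hq1 u hu hcon.le
  have hb := TruA_body hq0
  obtain ⟨hA0, -, -, hB0, -, -⟩ := TruA_vtx hq0 (TruA_q1 hq1)
  have h1 := Bas_le_hi hb.compact u hA0
  have h2 := Bas_lo_le hb.compact u hA0
  have h3 := Bas_le_hi hb.compact u hB0
  have h4 := Bas_lo_le hb.compact u hB0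
  rw [TruA_in, h 0, h 1, h 2] at h1 h2 h3 h4
  simp only [Matrix.cons_val_zero, Matrix.cons_val_one, Matrix.cons_val] at h1 h2 h3 h4
  unfold widthIn at hcon
  rcases hε with rfl | rfl
  · have e : 1 / √3 * 1 + 1 / √3 * q + 1 / √3 * q - (1 / √3 * 1 + 1 / √3 * -1 + 1 / √3 * -1) = 2 * (1 + q) / √3 := by
      ring
    linarith
  · have e : (-1 / √3 * 1 + -1 / √3 * -1 + -1 / √3 * -1) - (-1 / √3 * 1 + -1 / √3 * q + -1 / √3 * q) =
        2 * (1 + q) / √3 := by ring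
    linarith

private theorem TruA_g : ∃ g : E3, ‖g‖ = 1 ∧ ∀ i : Fin 3, g i = 1 / √3 := by
  refine ⟨!₂[1 / √3, 1 / √3, 1 / √3], ?_, ?_⟩
  · have h1 := TruA_sq (!₂[1 / √3, 1 / √3, 1 / √3] : E3)
    simp only [Matrix.cons_val_zero, Matrix.cons_val_one, Matrix.cons_val] at h1
    have h2 : (1 / √3) ^ 2 = 1 / 3 := by
      rw [div_pow, one_pow, pow_two, TruA_s3]
    rw [h2] at h1
    have h3 : ‖(!₂[1 / √3, 1 / √3, 1 / √3] : E3)‖ ^ 2 = 1 := by
      rw [h1]
      norm_num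
    exact (pow_eq_one_iff_of_nonneg (norm_nonneg _) two_ne_zero).1 h3
  · intro i
    fin_cases i <;> rfl

private theorem TruA_le {q : ℝ} (hq0 : 0 < q) (hq1 : q < √3 - 1) : width (trunc q) ≤ 2 * (1 + q) / √3 := by
  have hb := TruA_body hq0
  have hne : (trunc q).Nonempty := ⟨_, (TruA_vtx hq0 (TruA_q1 hq1)).1⟩
  obtain ⟨g, hg, hgi⟩ := TruA_g
  refine (Bas_width_le hb.compact hne hg).trans ?_
  have hs0 := TruA_s0
  have hin : ∀ x : E3, inner ℝ g x = 1 / √3 * (x 0 + x 1 + x 2) := by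
    intro x
    rw [TruA_in, hgi 0, hgi 1, hgi 2]
    ring
  have h1 : hi (trunc q) g ≤ 1 / √3 * (1 + 2 * q) := by
    apply Bas_hi_le hne
    intro x hx
    rw [hin]
    exact mul_le_mul_of_nonneg_left hx.2 (by positivity)
  have h2 : 1 / √3 * (-1) ≤ lo (trunc q) g := by
    apply Bas_le_lo hne
    intro x hx
    rw [hin]
    apply mul_le_mul_of_nonneg_left _ (by positivity)
    have := hx.1.1
    linarith
  unfold widthIn
  have h3 : 1 / √3 * (1 + 2 * q) - 1 / √3 * (-1) = 2 * (1 + q) / √3 := by ring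
  linarith

/-- **TruA** -/
theorem TruA : S_truA := by
  intro q hq0 hq1
  have hb := TruA_body hq0
  have hne : (trunc q).Nonempty := ⟨_, (TruA_vtx hq0 (TruA_q1 hq1)).1⟩
  have hw : width (trunc q) = 2 * (1 + q) / √3 := by
    apply le_antisymm (TruA_le hq0 hq1)
    obtain ⟨g, hg, -⟩ := TruA_g
    refine le_csInf ⟨_, g, hg, rfl⟩ ?_
    rintro _ ⟨u, hu, rfl⟩
    exact TruA_ge hq0 hq1 u hu
  refine ⟨hb, hw, ?_⟩
  rintro u ⟨hu, hwu⟩
  exact TruA_dir hq0 hq1 u hu (by rw [hwu, hw])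

end FriedPotato
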