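import Pool.Agent.CFP.St2
import Pool.Agent.CFP.Bas

set_option autoImplicit false

/-!
# TruB: two pieces of the truncated tetrahedron
-/

namespace FriedPotato

open Metric

private theorem TruB_in (u x : E3) : inner ℝ u x = u 0 * x 0 + u 1 * x 1 + u 2 * x 2 := by
  simp only [PiLp.inner_apply, Fin.sum_univ_three, RCLike.inner_apply, conj_trivial]
  ring

private theorem TruB_sq (u : E3) : ‖u‖ ^ 2 = u 0 ^ 2 + u 1 ^ 2 + u 2 ^ 2 := by
  rw [EuclideanSpace.norm_sq_eq, Fin.sum_univ_three]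
  simp only [Real.norm_eq_abs, sq_abs]

private theorem TruB_pt (c : E3) {r : ℝ} (hr : 0 ≤ r) (a b d : ℝ)
    (h : a ^ 2 + b ^ 2 + d ^ 2 = 1) :
    ∃ y ∈ closedBall c r, y 0 = c 0 + r * a ∧ y 1 = c 1 + r * b ∧ y 2 = c 2 + r * d := by
  have h2 : ‖(!₂[a, b, d] : E3)‖ ^ 2 = 1 := by
    rw [TruB_sq]
    exact h
  have h1 : ‖(!₂[a, b, d] : E3)‖ = 1 := by
    rw [← Real.sqrt_sq (norm_nonneg (!₂[a, b, d] : E3)), h2, Real.sqrt_one]
  refine ⟨c + r • !₂[a, b, d], ?_, ?_, ?_, ?_⟩
  · rw [mem_closedBall, dist_eq_norm, add_sub_cancel_left, norm_smul, Real.norm_of_nonneg hr,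
      h1, mul_one]
  · simp
  · simp
  · simp

private theorem TruB_sig {c : E3} {r : ℝ} (hr : 0 ≤ r) (h : closedBall c r ⊆ tet) :
    (-c 0 - c 1 - c 2 + √3 * r ≤ 1) ∧ (-c 0 + c 1 + c 2 + √3 * r ≤ 1) ∧
    (c 0 - c 1 + c 2 + √3 * r ≤ 1) ∧ (c 0 + c 1 - c 2 + √3 * r ≤ 1) := by
  have h3 : √3 * √3 = (3 : ℝ) := Real.mul_self_sqrt (by norm_num)
  obtain ⟨s, hs⟩ : ∃ s : ℝ, s = √3 / 3 := ⟨_, rfl⟩
  have hs3 : 3 * s = √3 := by
    rw [hs]
    ring
  have hss : s ^ 2 = 1 / 3 := by
    rw [hs, div_pow, sq, h3]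
    norm_num
  have hr3 : √3 * r = 3 * (r * s) := by
    rw [← hs3]
    ring
  rw [hr3]
  refine ⟨?_, ?_, ?_, ?_⟩
  · obtain ⟨y, hy, y0, y1, y2⟩ := TruB_pt c hr (-s) (-s) (-s) (by rw [neg_sq, hss]; norm_num)
    have := (h hy).1
    rw [y0, y1, y2] at this
    linarith
  · obtain ⟨y, hy, y0, y1, y2⟩ := TruB_pt c hr (-s) s s (by rw [neg_sq, hss]; norm_num)
    have := (h hy).2.1
    rw [y0, y1, y2] at this
    linarith
  · obtain ⟨y, hy, y0, y1, y2⟩ := TruB_pt c hr s (-s) s (by rw [neg_sq, hss]; norm_num)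
    have := (h hy).2.2.1
    rw [y0, y1, y2] at this
    linarith
  · obtain ⟨y, hy, y0, y1, y2⟩ := TruB_pt c hr s s (-s) (by rw [neg_sq, hss]; norm_num)
    have := (h hy).2.2.2
    rw [y0, y1, y2] at this
    linarith

private theorem TruB_e0 (x : E3) : inner ℝ (EuclideanSpace.single 0 (1 : ℝ) : E3) x = x 0 := by
  rw [EuclideanSpace.inner_single_left]
  simp

private theorem TruB_fin {r : ℝ} (h : (1 + √3) * r ≤ 1) : r ≤ 1 / (1 + √3) := by
  rw [le_div_iff₀ (by positivity)]
  linarith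

private theorem TruB_low (q : ℝ) : rMax ([] ++ below (EuclideanSpace.single 0 (1 : ℝ)) 0 (trunc q) ::
    above (EuclideanSpace.single 0 (1 : ℝ)) 0 (trunc q) :: []) ≤ 1 / (1 + √3) := by
  have h0 : (0 : ℝ) ≤ 1 / (1 + √3) := by positivity
  refine Bas_rMax_le h0 ?_
  intro P hP
  refine Bas_inradius_le h0 ?_
  intro c r hr hball
  rw [List.nil_append, List.mem_cons, List.mem_singleton] at hP
  rcases hP with rfl | rfl
  · obtain ⟨s1, s2, -, -⟩ := TruB_sig hr (fun x hx => (hball hx).1.1)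
    obtain ⟨y, hy, y0, -, -⟩ := TruB_pt c hr 1 0 0 (by norm_num)
    have h1 := (hball hy).2
    rw [TruB_e0, y0] at h1
    apply TruB_fin
    linarith
  · obtain ⟨-, -, s3, s4⟩ := TruB_sig hr (fun x hx => (hball hx).1.1)
    obtain ⟨y, hy, y0, -, -⟩ := TruB_pt c hr (-1) 0 0 (by norm_num)
    have h1 := (hball hy).2
    rw [TruB_e0, y0] at h1
    apply TruB_fin
    linarith

private theorem TruB_int {q : ℝ} (hq : 0 < q) : (0 : E3) ∈ interior (trunc q) := by
  refine mem_interior_iff_mem_nhds.mpr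
      (Filter.mem_of_superset (Metric.ball_mem_nhds 0 (by norm_num : (0 : ℝ) < 1 / 3)) ?_)
  intro x hx
  rw [mem_ball_zero_iff] at hx
  have h : ∀ i : Fin 3, |x i| ≤ 1 / 3 := fun i => by
    have := PiLp.norm_apply_le x i
    rw [Real.norm_eq_abs] at this
    linarith
  have h0 := abs_le.mp (h 0)
  have h1 := abs_le.mp (h 1)
  have h2 := abs_le.mp (h 2)
  exact ⟨⟨by linarith, by linarith, by linarith, by linarith⟩, by linarith⟩

private theorem TruB_ball {q : ℝ} (hq : 0 < q) (hq1 : q < 1) :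
    closedBall (!₂[(q - 1) / 6, (q - 1) / 6, (q - 1) / 6] : E3) ((1 + q) / (2 * √3)) ⊆
      {x | x ∈ trunc q ∧ x 0 + x 1 + x 2 ≤ q} := by
  intro x hx
  rw [mem_closedBall, dist_eq_norm] at hx
  obtain ⟨y, hy⟩ : ∃ y : E3, y = x - !₂[(q - 1) / 6, (q - 1) / 6, (q - 1) / 6] := ⟨_, rfl⟩
  rw [← hy] at hx
  have x0 : x 0 = (q - 1) / 6 + y 0 := by
    rw [hy]
    simp
  have x1 : x 1 = (q - 1) / 6 + y 1 := by
    rw [hy]
    simp
  have x2 : x 2 = (q - 1) / 6 + y 2 := by
    rw [hy]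
    simp
  have h3 : √3 * √3 = (3 : ℝ) := Real.mul_self_sqrt (by norm_num)
  have h30 : (0 : ℝ) < √3 := by positivity
  have hR : 3 * ((1 + q) / (2 * √3)) ^ 2 = ((1 + q) / 2) ^ 2 := by
    have h4 : (2 * √3) ^ 2 = 12 := by
      have : (2 * √3) ^ 2 = 4 * (√3 * √3) := by ring
      rw [this, h3]
      norm_num
    rw [div_pow, h4]
    ring
  have hyn : ‖y‖ ^ 2 ≤ ((1 + q) / (2 * √3)) ^ 2 := pow_le_pow_left₀ (norm_nonneg _) hx 2
  rw [TruB_sq] at hyn
  have key : ∀ a b d : ℝ, a ^ 2 = 1 → b ^ 2 = 1 → d ^ 2 = 1 →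
      a * y 0 + b * y 1 + d * y 2 ≤ (1 + q) / 2 := by
    intro a b d ha hb hd
    refine abs_le_of_sq_le_sq' (b := (1 + q) / 2) ?_ (by linarith) |>.2
    have e1 : 3 * (y 0 ^ 2 + y 1 ^ 2 + y 2 ^ 2) - (a * y 0 + b * y 1 + d * y 2) ^ 2 =
        (a * y 0 - b * y 1) ^ 2 + (b * y 1 - d * y 2) ^ 2 + (a * y 0 - d * y 2) ^ 2 := by
      linear_combination (-3 * y 0 ^ 2) * ha + (-3 * y 1 ^ 2) * hb + (-3 * y 2 ^ 2) * hd
    have := sq_nonneg (a * y 0 - b * y 1)
    have := sq_nonneg (b * y 1 - d * y 2)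
    have := sq_nonneg (a * y 0 - d * y 2)
    linarith
  have k1 := key (-1) (-1) (-1) (by norm_num) (by norm_num) (by norm_num)
  have k2 := key (-1) 1 1 (by norm_num) (by norm_num) (by norm_num)
  have k3 := key 1 (-1) 1 (by norm_num) (by norm_num) (by norm_num)
  have k4 := key 1 1 (-1) (by norm_num) (by norm_num) (by norm_num)
  have k5 := key 1 1 1 (by norm_num) (by norm_num) (by norm_num)
  refine ⟨⟨⟨?_, ?_, ?_, ?_⟩, ?_⟩, ?_⟩ <;> rw [x0, x1, x2] <;> linarith

/-- TruB. -/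
theorem TruB (hA : S_truA) : S_truB := by
  intro q hq hq3
  obtain ⟨hbody, hw, hdir⟩ := hA q hq hq3
  have h3 : √3 * √3 = (3 : ℝ) := Real.mul_self_sqrt (by norm_num)
  have h30 : (0 : ℝ) < √3 := by positivity
  have h32 : √3 < 2 := by nlinarith
  have hq1 : q < 1 := by linarith
  refine ⟨[] ++ below (EuclideanSpace.single 0 (1 : ℝ)) 0 (trunc q) ::
    above (EuclideanSpace.single 0 (1 : ℝ)) 0 (trunc q) :: [], ?_, rfl, TruB_low q, ?_⟩
  · refine Slicing.cut [] [] (trunc q) (EuclideanSpace.single 0 (1 : ℝ)) 0 Slicing.start ?_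
      ⟨0, TruB_int hq, inner_zero_right _⟩
    intro h
    have := congrArg (fun v : E3 => v 0) h
    simp at this
  · intro u hu
    obtain ⟨ε, hε, hui⟩ := hdir u hu
    have hin : ∀ x : E3, inner ℝ u x = ε * ((x 0 + x 1 + x 2) / √3) := by
      intro x
      rw [TruB_in, hui 0, hui 1, hui 2]
      ring
    have hR0 : 0 ≤ (1 + q) / (2 * √3) := by positivity
    have hball := TruB_ball hq hq1
    have hne : (trunc q).Nonempty := ⟨0, interior_subset (TruB_int hq)⟩
    have heq : equalSlices (trunc q) u 2 =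
        [below u (lo (trunc q) u + (1 + q) / √3) (trunc q),
          above u (lo (trunc q) u + (1 + q) / √3) (trunc q)] := by
      have h5 : levels (trunc q) u 2 = [lo (trunc q) u + (1 + q) / √3] := by
        have h6 : levels (trunc q) u 2 =
            [lo (trunc q) u + (((0 : ℕ) : ℝ) + 1) * (width (trunc q) / ((2 : ℕ) : ℝ))] := rfl
        rw [h6, hw]
        congr 2
        push_cast
        ring
      unfold equalSlices
      rw [h5]
      rfl
    rw [heq]
    rcases hε with rfl | rfl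
    · have hlo : lo (trunc q) u = -(1 / √3) := by
        apply le_antisymm
        · have hx : (!₂[(1 : ℝ), -1, -1] : E3) ∈ trunc q := by
            refine ⟨?_, ?_⟩
            · simp [tet]
              norm_num
            · simp
              linarith
          have h7 := Bas_lo_le hbody.compact u hx
          rw [hin] at h7
          refine h7.trans (le_of_eq ?_)
          simp
          ring
        · refine Bas_le_lo hne u ?_
          intro x hx
          rw [hin]
          have h8 := hx.1.1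
          have h9 : -1 / √3 ≤ (x 0 + x 1 + x 2) / √3 :=
            div_le_div_of_nonneg_right (by linarith) h30.le
          have h10 : -(1 / √3) = -1 / √3 := by ring
          rw [h10]
          linarith
      refine le_trans ?_ (Bas_inradius_le_rMax (List.mem_cons_self))
      refine Bas_le_inradius (hbody.compact.isBounded.subset (fun x hx => hx.1)) hR0
        (fun x hx => ⟨(hball hx).1, ?_⟩)
      rw [hin, hlo]
      have h11 : (x 0 + x 1 + x 2) / √3 ≤ q / √3 :=
        div_le_div_of_nonneg_right (hball hx).2 h30.le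
      have h12 : -(1 / √3) + (1 + q) / √3 = q / √3 := by ring
      rw [h12]
      linarith
    · have hlo : lo (trunc q) u = -((1 + 2 * q) / √3) := by
        apply le_antisymm
        · have hx : (!₂[(1 : ℝ), q, q] : E3) ∈ trunc q := by
            refine ⟨⟨?_, ?_, ?_, ?_⟩, ?_⟩ <;> simp <;> linarith
          have h7 := Bas_lo_le hbody.compact u hx
          rw [hin] at h7
          refine h7.trans (le_of_eq ?_)
          simp
          ring
        · refine Bas_le_lo hne u ?_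
          intro x hx
          rw [hin]
          have h9 : (x 0 + x 1 + x 2) / √3 ≤ (1 + 2 * q) / √3 :=
            div_le_div_of_nonneg_right hx.2 h30.le
          linarith
      refine le_trans ?_ (Bas_inradius_le_rMax (List.mem_cons_of_mem _ (List.mem_cons_self)))
      refine Bas_le_inradius (hbody.compact.isBounded.subset (fun x hx => hx.1)) hR0
        (fun x hx => ⟨(hball hx).1, ?_⟩)
      rw [hin, hlo]
      have h11 : (x 0 + x 1 + x 2) / √3 ≤ q / √3 :=
        div_le_div_of_nonneg_right (hball hx).2 h30.le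
      have h12 : -((1 + 2 * q) / √3) + (1 + q) / √3 = -(q / √3) := by ring
      rw [h12]
      linarith

end FriedPotato
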