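import Pool.Agent.CFP.Bas

namespace FriedPotato

open Metric

private theorem Upp_slab {P : Set E3} {u : E3} (hu : ‖u‖ = 1) {s d : ℝ} (hd : 0 ≤ d)
    (h : ∀ x ∈ P, s ≤ inner ℝ u x ∧ inner ℝ u x ≤ s + d) : inradius P ≤ d / 2 := by
  apply Bas_inradius_le (by linarith)
  intro c r hr hc
  have h1 : c + r • u ∈ P := by
    apply hc
    rw [mem_closedBall, dist_eq_norm, add_sub_cancel_left, norm_smul, hu, mul_one,
      Real.norm_of_nonneg hr]
  have h2 : c - r • u ∈ P := by
    apply hc
    rw [mem_closedBall, dist_eq_norm, sub_sub_cancel_left, norm_neg, norm_smul, hu, mul_one,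
      Real.norm_of_nonneg hr]
  have h3 := (h _ h1).2
  have h4 := (h _ h2).1
  rw [inner_add_right, inner_smul_right, real_inner_self_eq_norm_sq, hu] at h3
  rw [inner_sub_right, inner_smul_right, real_inner_self_eq_norm_sq, hu] at h4
  linarith

private theorem Upp_cuts {u : E3} (hu : ‖u‖ = 1) {d : ℝ} (hd : 0 ≤ d) (k : ℕ) :
    ∀ (s : ℝ) (P : Set E3), (∀ x ∈ P, s ≤ inner ℝ u x ∧ inner ℝ u x ≤ s + ((k : ℝ) + 1) * d) →
      ∀ Q ∈ cuts u ((List.range k).map (fun j : ℕ => s + ((j : ℝ) + 1) * d)) P,
        inradius Q ≤ d / 2 := by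
  induction k with
  | zero =>
    intro s P hP Q hQ
    simp only [List.range_zero, List.map_nil, cuts, List.mem_singleton] at hQ
    subst hQ
    apply Upp_slab hu hd (s := s)
    intro x hx
    have := hP x hx
    simpa using this
  | succ k ih =>
    intro s P hP Q hQ
    rw [List.range_succ_eq_map, List.map_cons, List.map_map] at hQ
    simp only [cuts, List.mem_cons] at hQ
    rcases hQ with rfl | hQ
    · apply Upp_slab hu hd (s := s)
      rintro x ⟨hx, hx2⟩
      refine ⟨(hP x hx).1, hx2.trans (le_of_eq ?_)⟩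
      simp
    · have h1 : ((fun j : ℕ => s + ((j : ℝ) + 1) * d) ∘ Nat.succ) =
          fun j : ℕ => (s + d) + ((j : ℝ) + 1) * d := by
        funext j
        simp only [Function.comp, Nat.succ_eq_add_one, Nat.cast_add, Nat.cast_one]
        ring
      rw [h1] at hQ
      apply ih (s + d) _ _ Q hQ
      rintro x ⟨hx, hx2⟩
      have h3 := (hP x hx).2
      push_cast at h3 hx2
      constructor
      · linarith
      · linarith

theorem Upp (hbas : S_bas) : S_upp := by
  intro K hK n hn u hu
  have hw : 0 < width K := (hbas K hK).2.2.2.2.2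
  have hn0 : (0 : ℝ) < n := by
    have : 0 < n := by omega
    exact_mod_cast this
  have hd : 0 ≤ width K / n := by positivity
  have h1 : width K / (2 * n) = (width K / n) / 2 := by
    field_simp
  rw [h1]
  apply Bas_rMax_le (by positivity)
  apply Upp_cuts hu.1 hd (n - 1) (lo K u) K
  intro x hx
  refine ⟨Bas_lo_le hK.compact u hx, ?_⟩
  have h2 := Bas_le_hi hK.compact u hx
  have h3 : hi K u - lo K u = width K := hu.2
  have h4 : (((n - 1 : ℕ) : ℝ) + 1) * (width K / n) = width K := by
    rw [Nat.cast_sub (by omega)]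
    push_cast
    field_simp
    ring
  rw [h4]
  linarith

end FriedPotato
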